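import Mathlib
import Pool.Agent.TetRel.Defs

/-! # Tetrahedra with a rotation of order two that tile space: definitions (helper21) -/

set_option autoImplicit false

open Complex

namespace Pool.Agent.TetRot

/-- A place of `ℂ`, trivial on the algebraic numbers, with rational values (the value at `0` is
irrelevant). -/
structure Place where
  v : ℂ → ℚ
  mul : ∀ x y : ℂ, x ≠ 0 → y ≠ 0 → v (x * y) = v x + v y
  add : ∀ x y : ℂ, x ≠ 0 → y ≠ 0 → x + y ≠ 0 → min (v x) (v y) ≤ v (x + y)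
  alg : ∀ x : ℂ, x ≠ 0 → IsAlgebraic ℚ x → v x = 0

/-- The complex conjugate place. -/
noncomputable def Place.conj (p : Place) : Place where
  v z := p.v (starRingEnd ℂ z)
  mul x y hx hy := by
    rw [map_mul]
    exact p.mul _ _ ((map_ne_zero _).2 hx) ((map_ne_zero _).2 hy)
  add x y hx hy hxy := by
    rw [map_add]
    refine p.add _ _ ((map_ne_zero _).2 hx) ((map_ne_zero _).2 hy) ?_
    rw [← map_add]
    exact (map_ne_zero _).2 hxy
  alg x hx h := by
    refine p.alg _ ((map_ne_zero _).2 hx) ?_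
    obtain ⟨q, hq, h0⟩ := h
    refine ⟨q, hq, ?_⟩
    have h1 := Polynomial.aeval_algHom_apply
      ((Complex.conjAe : ℂ ≃ₐ[ℝ] ℂ).toAlgHom.restrictScalars ℚ) x q
    rw [h0, map_zero] at h1
    exact h1

/-- value at `g - i` -/
noncomputable def vp (p : Place) (g : ℝ) : ℚ := p.v ((g : ℂ) - I)

/-- value at `g + i` -/
noncomputable def vm (p : Place) (g : ℝ) : ℚ := p.v ((g : ℂ) + I)

/-- `v (g - i) - v (g + i)` -/
noncomputable def uu (p : Place) (g : ℝ) : ℚ := vp p g - vm p g

/-- The normalised coordinates of a tetrahedron with a rotation of order two: `a`, `b` are the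
half perimeters of the faces (each occurs twice), `y 0, y 1, y 2, y 3` are `0` and the half
perimeters of the three quadrilaterals, all after an affine change of coordinate. -/
structure Nrm (a b : ℝ) (y : Fin 4 → ℝ) : Prop where
  sum : 2 * a + 2 * b = y 0 + y 1 + y 2 + y 3
  eqn : ((a : ℂ) - I) ^ 2 * ((b : ℂ) - I) ^ 2 =
    ((y 0 : ℂ) - I) * ((y 1 : ℂ) - I) * ((y 2 : ℂ) - I) * ((y 3 : ℂ) - I)
  a0 : y 0 < a
  b0 : y 0 < b
  ak : ∀ k, k ≠ 0 → a < y k
  bk : ∀ k, k ≠ 0 → b < y k

/-- The linear relation between the coordinates given by a place. -/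
def Rel (p : Place) (a b : ℝ) (y : Fin 4 → ℝ) : Prop :=
  2 * (uu p a : ℝ) * a + 2 * (uu p b : ℝ) * b = ∑ j, (uu p (y j) : ℝ) * y j

/-- Places of type I: `a` is near `i` together with `y j`, `b` is near `-i` together with `y k`,
everything else is away from both. -/
structure TyI (p : Place) (a b : ℝ) (y : Fin 4 → ℝ) (j k : Fin 4) : Prop where
  j0 : j ≠ 0
  k0 : k ≠ 0
  jk : j ≠ k
  eq : y j - a = y k - b
  pos : 0 < vp p a
  am : vm p a = 0
  bp : vp p b = 0
  bm : vm p b = vp p a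
  jp : vp p (y j) = 2 * vp p a
  km : vm p (y k) = 2 * vp p a
  ja : p.v ((y j : ℂ) - a) = vp p a
  kb : p.v ((y k : ℂ) - b) = vp p a
  oa : ∀ t, t ≠ j → p.v ((y t : ℂ) - a) = 0
  ob : ∀ t, t ≠ k → p.v ((y t : ℂ) - b) = 0

/-- The inequality at all other places. -/
def Star (p : Place) (a b : ℝ) (y : Fin 4 → ℝ) : Prop :=
  ∀ t, vp p a + vm p a + vp p b + vm p b ≤ 2 * p.v ((y t : ℂ) - a) ∧
    vp p a + vm p a + vp p b + vm p b ≤ 2 * p.v ((y t : ℂ) - b)

end Pool.Agent.TetRot
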