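import Mathlib
import Pool.Agent.TetRel.Defs
import Pool.Agent.TetRot.Defs

/-!
# The normalised coordinates of a tetrahedron with a rotation of order two: definitions

Edges `0 = 01, 1 = 02, 2 = 03, 3 = 12, 4 = 13, 5 = 23`; the rotation exchanges the vertices `0`, `1`
and `2`, `3`, so `02 = 13` and `03 = 12`. All forms are linear on `Fin 6 → ℝ` (they are also used
for integer vectors `n`, hence symmetrised).
-/

set_option autoImplicit false

open Complex
open Pool.Agent.TetRel

namespace Pool.Agent.TetRot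

/-- half perimeter of the faces which contain the edge `23` -/
noncomputable def aS (l : Fin 6 → ℝ) : ℝ := (l 1 + l 2 + l 3 + l 4) / 4 + l 5 / 2

/-- half perimeter of the faces which contain the edge `01` -/
noncomputable def bS (l : Fin 6 → ℝ) : ℝ := (l 1 + l 2 + l 3 + l 4) / 4 + l 0 / 2

/-- `0` and the half perimeters of the three quadrilaterals -/
noncomputable def yS (l : Fin 6 → ℝ) : Fin 4 → ℝ :=
  ![0, (l 1 + l 2 + l 3 + l 4) / 2, (l 0 + l 5) / 2 + (l 2 + l 3) / 2,
    (l 0 + l 5) / 2 + (l 1 + l 4) / 2]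

/-- rotation of order two exchanging the vertices 0, 1 and 2, 3 -/
def Rot (l : Fin 6 → ℝ) : Prop := l 1 = l 4 ∧ l 2 = l 3

/-- `e^{2 i arg}` of `g + i` -/
noncomputable def zz (g : ℝ) : ℂ := ((g : ℂ) + I) / ((g : ℂ) - I)

/-- `aS` after the affine change of coordinate -/
noncomputable def aN (l : Fin 6 → ℝ) (ξ η : ℝ) : ℝ := (aS l - ξ) / η

/-- `bS` after the affine change of coordinate -/
noncomputable def bN (l : Fin 6 → ℝ) (ξ η : ℝ) : ℝ := (bS l - ξ) / η

/-- `yS` after the affine change of coordinate -/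
noncomputable def yN (l : Fin 6 → ℝ) (ξ η : ℝ) (j : Fin 4) : ℝ := (yS l j - ξ) / η

/-- `ξ + i η` is the root of the quadratic -/
def IsRoot (l : Fin 6 → ℝ) (ξ η : ℝ) : Prop :=
  ∀ X : ℝ, (X - aS l) ^ 2 * (X - bS l) ^ 2 - (X - yS l 0) * (X - yS l 1) * (X - yS l 2) * (X - yS l 3)
    = (l 0 * l 5 + l 1 ^ 2 + l 2 ^ 2) / 2 * ((X - ξ) ^ 2 + η ^ 2)

end Pool.Agent.TetRot
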