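import Mathlib

/-!
# Shapes: definitions

`Alg`: all ratios are algebraic. `HillL`, `ReggeL`: the edge lengths of the Hill tetrahedra and of
the second family.
-/

set_option autoImplicit false

namespace Pool.Agent.TetRot

/-- the shape is algebraic -/
def Alg (a b : ℝ) (y : Fin 4 → ℝ) : Prop :=
  ∀ t, IsAlgebraic ℚ ((y t - a) / (y 0 - a)) ∧ IsAlgebraic ℚ ((y t - b) / (y 0 - a))

/-- edge lengths of the Hill tetrahedra with a rotation of order two -/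
def HillL (l : Fin 6 → ℝ) : Prop :=
  (l 5 = l 1 ∧ 3 * l 2 ^ 2 = 3 * l 1 ^ 2 + l 0 ^ 2) ∨ (l 5 = l 2 ∧ 3 * l 1 ^ 2 = 3 * l 2 ^ 2 + l 0 ^ 2) ∨
  (l 0 = l 1 ∧ 3 * l 2 ^ 2 = 3 * l 1 ^ 2 + l 5 ^ 2) ∨ (l 0 = l 2 ∧ 3 * l 1 ^ 2 = 3 * l 2 ^ 2 + l 5 ^ 2)

/-- edge lengths of the second family -/
def ReggeL (l : Fin 6 → ℝ) : Prop :=
  (l 0 - l 5 = 2 * (l 1 - l 2) ∨ l 0 - l 5 = 2 * (l 2 - l 1)) ∧
    16 * (l 1 ^ 2 - l 1 * l 2 + l 2 ^ 2) = 3 * (l 0 + l 5) ^ 2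

end Pool.Agent.TetRot
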