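import Mathlib
import Pool.Agent.TetRot.Defs

/-!
# The polynomial identity of the normalised coordinates and its values (helper81)
-/

set_option autoImplicit false

open Complex

namespace Pool.Agent.TetRot

/-- `e₂(a,a,b,b) - e₂(y)`; `(X-a)²(X-b)² - ∏ (X - y j) = C2 (X²+1)` -/
def C2 (a b : ℝ) (y : Fin 4 → ℝ) : ℝ :=
  a ^ 2 + b ^ 2 + 4 * a * b -
    (y 0 * y 1 + y 0 * y 2 + y 0 * y 3 + y 1 * y 2 + y 1 * y 3 + y 2 * y 3)

private lemma re_im {r s : ℝ} (h : (r : ℂ) + (s : ℂ) * I = 0) : r = 0 ∧ s = 0 := by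
  have h1 := congrArg Complex.re h
  have h2 := congrArg Complex.im h
  simp at h1 h2
  exact ⟨h1, h2⟩

theorem poly {a b : ℝ} {y : Fin 4 → ℝ} (h : Nrm a b y) (X : ℝ) :
    (X - a) ^ 2 * (X - b) ^ 2 - (X - y 0) * (X - y 1) * (X - y 2) * (X - y 3) =
      C2 a b y * (X ^ 2 + 1) := by
  have hs := h.sum
  have hsC : 2 * (a : ℂ) + 2 * (b : ℂ) = (y 0 : ℂ) + (y 1 : ℂ) + (y 2 : ℂ) + (y 3 : ℂ) := by
    exact_mod_cast congrArg (fun r : ℝ => (r : ℂ)) hs
  have key := re_im (r := (a ^ 2 * b ^ 2 - y 0 * y 1 * y 2 * y 3) - C2 a b y)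
    (s := -2 * a * b * (a + b) + (y 0 * y 1 * y 2 + y 0 * y 1 * y 3 + y 0 * y 2 * y 3 +
      y 1 * y 2 * y 3)) (by
      unfold C2
      push_cast
      linear_combination h.eqn - ((a : ℂ) ^ 2 + (b : ℂ) ^ 2 + 4 * (a : ℂ) * (b : ℂ) -
        ((y 0 : ℂ) * (y 1 : ℂ) + (y 0 : ℂ) * (y 2 : ℂ) + (y 0 : ℂ) * (y 3 : ℂ) +
          (y 1 : ℂ) * (y 2 : ℂ) + (y 1 : ℂ) * (y 3 : ℂ) + (y 2 : ℂ) * (y 3 : ℂ))) * I_sq +
        I ^ 3 * hsC)
  obtain ⟨k1, k2⟩ := key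
  unfold C2 at k1 ⊢
  linear_combination -X ^ 3 * hs + X * k2 + k1

theorem C2_ne {a b : ℝ} {y : Fin 4 → ℝ} (h : Nrm a b y) : C2 a b y ≠ 0 := by
  intro h0
  have h1 := poly h a
  rw [h0, zero_mul, sub_self] at h1
  have h2 : (a - y 0) * (a - y 1) * (a - y 2) * (a - y 3) = 0 := by linear_combination -h1
  have e0 : a - y 0 ≠ 0 := (sub_pos.2 h.a0).ne'
  have e1 : a - y 1 ≠ 0 := (sub_neg.2 (h.ak 1 (by decide))).ne
  have e2 : a - y 2 ≠ 0 := (sub_neg.2 (h.ak 2 (by decide))).ne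
  have e3 : a - y 3 ≠ 0 := (sub_neg.2 (h.ak 3 (by decide))).ne
  exact mul_ne_zero (mul_ne_zero (mul_ne_zero e0 e1) e2) e3 h2

private lemma nep (g : ℝ) : (g : ℂ) - I ≠ 0 := by
  intro h
  have := congrArg Complex.im h
  simp at this

private lemma nem (g : ℝ) : (g : ℂ) + I ≠ 0 := by
  intro h
  have := congrArg Complex.im h
  simp at this

private lemma val_two (p : Place) {x y : ℂ} (hx : x ≠ 0) (hy : y ≠ 0) :
    p.v (x ^ 2 * y ^ 2) = 2 * p.v x + 2 * p.v y := by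
  rw [p.mul _ _ (pow_ne_zero 2 hx) (pow_ne_zero 2 hy), pow_two, pow_two, p.mul _ _ hx hx,
    p.mul _ _ hy hy]
  ring

private lemma val_four (p : Place) {x y z w : ℂ} (hx : x ≠ 0) (hy : y ≠ 0) (hz : z ≠ 0)
    (hw : w ≠ 0) : p.v (x * y * z * w) = p.v x + p.v y + p.v z + p.v w := by
  rw [p.mul _ _ (mul_ne_zero (mul_ne_zero hx hy) hz) hw, p.mul _ _ (mul_ne_zero hx hy) hz,
    p.mul _ _ hx hy]

private lemma val_neg (p : Place) (x : ℂ) : p.v (-x) = p.v x := by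
  by_cases hx : x = 0
  · rw [hx, neg_zero]
  · have h1 : p.v (-1) = 0 := p.alg _ (neg_ne_zero.2 one_ne_zero) (isAlgebraic_one.neg)
    have h2 := p.mul (-1) x (neg_ne_zero.2 one_ne_zero) hx
    rw [h1, zero_add] at h2
    rw [← h2]
    congr 1
    ring

theorem wt_p (p : Place) {a b : ℝ} {y : Fin 4 → ℝ} (h : Nrm a b y) :
    2 * vp p a + 2 * vp p b = ∑ j, vp p (y j) := by
  have h1 := congrArg p.v h.eqn
  rw [val_two p (nep a) (nep b), val_four p (nep _) (nep _) (nep _) (nep _)] at h1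
  rw [Fin.sum_univ_four]
  exact h1

theorem wt_m (p : Place) {a b : ℝ} {y : Fin 4 → ℝ} (h : Nrm a b y) :
    2 * vm p a + 2 * vm p b = ∑ j, vm p (y j) := by
  have h0 := congrArg (starRingEnd ℂ) h.eqn
  simp only [map_mul, map_pow, map_sub, Complex.conj_ofReal, Complex.conj_I, sub_neg_eq_add] at h0
  have h1 := congrArg p.v h0
  rw [val_two p (nem a) (nem b), val_four p (nem _) (nem _) (nem _) (nem _)] at h1
  rw [Fin.sum_univ_four]
  exact h1

private lemma sub_neC {g k : ℝ} (h : g ≠ k) : (g : ℂ) - k ≠ 0 := by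
  intro h0
  exact h (by exact_mod_cast sub_eq_zero.1 h0)

theorem row_a (p : Place) {a b : ℝ} {y : Fin 4 → ℝ} (h : Nrm a b y) :
    ∑ j, p.v ((y j : ℂ) - a) = p.v (C2 a b y : ℂ) + vp p a + vm p a := by
  have h1 := congrArg (fun r : ℝ => (r : ℂ)) (poly h a)
  push_cast at h1
  have h2 : ((y 0 : ℂ) - a) * ((y 1 : ℂ) - a) * ((y 2 : ℂ) - a) * ((y 3 : ℂ) - a) =
      -((C2 a b y : ℂ) * (((a : ℂ) - I) * ((a : ℂ) + I))) := by
    linear_combination -h1 - (C2 a b y : ℂ) * I_sq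
  have h3 := congrArg p.v h2
  rw [val_four p (sub_neC h.a0.ne) (sub_neC (h.ak 1 (by decide)).ne')
    (sub_neC (h.ak 2 (by decide)).ne') (sub_neC (h.ak 3 (by decide)).ne'), val_neg,
    p.mul _ _ (by exact_mod_cast C2_ne h) (mul_ne_zero (nep a) (nem a)),
    p.mul _ _ (nep a) (nem a)] at h3
  rw [Fin.sum_univ_four, h3, vp, vm]
  ring

theorem Nrm.swap {a b : ℝ} {y : Fin 4 → ℝ} (h : Nrm a b y) : Nrm b a y where
  sum := by linarith [h.sum]
  eqn := by rw [← h.eqn]; ring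
  a0 := h.b0
  b0 := h.a0
  ak := h.bk
  bk := h.ak

theorem C2_swap (a b : ℝ) (y : Fin 4 → ℝ) : C2 b a y = C2 a b y := by
  unfold C2; ring

theorem row_b (p : Place) {a b : ℝ} {y : Fin 4 → ℝ} (h : Nrm a b y) :
    ∑ j, p.v ((y j : ℂ) - b) = p.v (C2 a b y : ℂ) + vp p b + vm p b := by
  rw [← C2_swap]
  exact row_a p h.swap

theorem col (p : Place) {a b : ℝ} {y : Fin 4 → ℝ} (h : Nrm a b y) (j : Fin 4) :
    2 * p.v ((y j : ℂ) - a) + 2 * p.v ((y j : ℂ) - b) =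
      p.v (C2 a b y : ℂ) + vp p (y j) + vm p (y j) := by
  have hz : (y j - y 0) * (y j - y 1) * (y j - y 2) * (y j - y 3) = 0 := by
    fin_cases j <;> simp
  have h0 : (y j - a) ^ 2 * (y j - b) ^ 2 = C2 a b y * (y j ^ 2 + 1) := by
    linear_combination poly h (y j) + hz
  have h1 := congrArg (fun r : ℝ => (r : ℂ)) h0
  push_cast at h1
  have h2 : ((y j : ℂ) - a) ^ 2 * ((y j : ℂ) - b) ^ 2 =
      (C2 a b y : ℂ) * (((y j : ℂ) - I) * ((y j : ℂ) + I)) := by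
    linear_combination h1 + (C2 a b y : ℂ) * I_sq
  have na : y j ≠ a := by
    by_cases hj : j = 0
    · rw [hj]; exact h.a0.ne
    · exact (h.ak j hj).ne'
  have nb : y j ≠ b := by
    by_cases hj : j = 0
    · rw [hj]; exact h.b0.ne
    · exact (h.bk j hj).ne'
  have h3 := congrArg p.v h2
  rw [val_two p (sub_neC na) (sub_neC nb),
    p.mul _ _ (by exact_mod_cast C2_ne h) (mul_ne_zero (nep _) (nem _)),
    p.mul _ _ (nep _) (nem _)] at h3
  rw [h3, vp, vm]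
  ring

theorem Rel.swap {p : Place} {a b : ℝ} {y : Fin 4 → ℝ} (h : Rel p a b y) : Rel p b a y := by
  unfold Rel at h ⊢
  linarith

private lemma uu_conj (p : Place) (g : ℝ) : uu p.conj g = -uu p g := by
  unfold uu vp vm
  show p.v (starRingEnd ℂ ((g : ℂ) - I)) - p.v (starRingEnd ℂ ((g : ℂ) + I)) = _
  rw [map_sub, map_add, Complex.conj_ofReal, Complex.conj_I, sub_neg_eq_add, ← sub_eq_add_neg]
  ring

theorem Rel.conj {p : Place} {a b : ℝ} {y : Fin 4 → ℝ} (h : Rel p a b y) :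
    Rel p.conj a b y := by
  unfold Rel at h ⊢
  simp only [uu_conj]
  push_cast
  simp only [neg_mul, mul_neg, Finset.sum_neg_distrib]
  linarith

end Pool.Agent.TetRot
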