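import Mathlib
import Pool.Agent.TetRel.Defs
import Pool.Agent.TetRot.Defs
import Pool.Agent.TetRot.NormDefs
import Pool.Agent.TetRot.ShapeDefs
import Pool.Agent.TetRot.UltraN

/-! # Tetrahedra with a rotation of order two: further definitions (helper21); `C2` is in
`UltraN`, `Alg`, `HillL`, `ReggeL` are in `ShapeDefs` -/

set_option autoImplicit false

open Pool.Agent.TetRel

namespace Pool.Agent.TetRot

/-- a tiling with three independent translations -/
def TilesPer (v : Fin 4 → E3) : Prop := ∃ S : Set (Set E3),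
      (∀ A ∈ S, ∃ φ : E3 ≃ᵢ E3, A = φ '' convexHull ℝ (Set.range v)) ∧
      ⋃₀ S = Set.univ ∧ S.Pairwise (fun A B => Disjoint (interior A) (interior B)) ∧
      ∃ a : Fin 3 → E3, LinearIndependent ℝ a ∧ ∀ i, ∀ A ∈ S, (fun x => x + a i) '' A ∈ S

end Pool.Agent.TetRot
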