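import Mathlib
import Pool.Agent.TetRel.Defs
import Pool.Agent.TetRot.Defs
import Pool.Agent.TetRot.Defs2

/-! # Places of the complex numbers: elementary rules (helper21) -/

set_option autoImplicit false

open Complex

namespace Pool.Agent.TetRot

namespace Place
variable (p : Place)

theorem one : p.v 1 = 0 := p.alg 1 one_ne_zero isAlgebraic_one

theorem neg (x : ℂ) : p.v (-x) = p.v x := by
  by_cases hx : x = 0
  · simp [hx]
  · have h1 : p.v (-1) = 0 := p.alg (-1) (by norm_num) (isAlgebraic_one.neg)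
    have h2 := p.mul (-1) x (by norm_num) hx
    rw [h1, zero_add, neg_one_mul] at h2
    exact h2

theorem inv (x : ℂ) (hx : x ≠ 0) : p.v x⁻¹ = - p.v x := by
  have h := p.mul x x⁻¹ hx (inv_ne_zero hx)
  rw [mul_inv_cancel₀ hx, p.one] at h
  linarith

theorem pow (x : ℂ) (hx : x ≠ 0) (n : ℕ) : p.v (x ^ n) = n * p.v x := by
  induction n with
  | zero => simp [p.one]
  | succ n ih =>
    rw [pow_succ, p.mul _ _ (pow_ne_zero n hx) hx, ih]
    push_cast
    ring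

theorem div (x y : ℂ) (hx : x ≠ 0) (hy : y ≠ 0) : p.v (x / y) = p.v x - p.v y := by
  rw [div_eq_mul_inv, p.mul x _ hx (inv_ne_zero hy), p.inv y hy]
  ring

theorem rat (q : ℚ) (hq : q ≠ 0) : p.v (q : ℂ) = 0 := by
  refine p.alg _ (by exact_mod_cast hq) ?_
  have := isAlgebraic_algebraMap (R := ℚ) (A := ℂ) q
  simpa using this

theorem rat_mul (q : ℚ) (hq : q ≠ 0) (x : ℂ) (hx : x ≠ 0) : p.v ((q : ℂ) * x) = p.v x := by
  rw [p.mul _ _ (by exact_mod_cast hq) hx, p.rat q hq, zero_add]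

theorem two : p.v 2 = 0 := by
  have := p.rat 2 (by norm_num)
  simpa using this

theorem vI : p.v I = 0 := by
  have h := p.mul I I I_ne_zero I_ne_zero
  rw [I_mul_I, p.neg, p.one] at h
  linarith

/-- if the values differ, the value of the sum is the minimum -/
theorem add_lt (x y : ℂ) (hx : x ≠ 0) (hy : y ≠ 0) (h : p.v x < p.v y) :
    x + y ≠ 0 ∧ p.v (x + y) = p.v x := by
  have h0 : x + y ≠ 0 := by
    intro h0
    have h1 : x = -y := by linear_combination h0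
    rw [h1, p.neg] at h
    exact lt_irrefl _ h
  refine ⟨h0, ?_⟩
  have h1 := p.add x y hx hy h0
  rw [min_eq_left h.le] at h1
  have h2 := p.add (x + y) (-y) h0 (neg_ne_zero.2 hy) (by simpa using hx)
  rw [p.neg, add_neg_cancel_right] at h2
  rcases le_total (p.v (x + y)) (p.v y) with h3 | h3
  · rw [min_eq_left h3] at h2
    exact le_antisymm h2 h1
  · rw [min_eq_right h3] at h2
    exact absurd h2 (not_le.2 h)

theorem sub_lt (x y : ℂ) (hx : x ≠ 0) (hy : y ≠ 0) (h : p.v x < p.v y) :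
    x - y ≠ 0 ∧ p.v (x - y) = p.v x := by
  rw [sub_eq_add_neg]
  exact p.add_lt x (-y) hx (neg_ne_zero.2 hy) (by rwa [p.neg])

theorem sub_lt' (x y : ℂ) (hx : x ≠ 0) (hy : y ≠ 0) (h : p.v y < p.v x) :
    x - y ≠ 0 ∧ p.v (x - y) = p.v y := by
  have h1 := p.sub_lt y x hy hx h
  refine ⟨fun h0 => h1.1 (by linear_combination -h0), ?_⟩
  rw [← h1.2, ← p.neg, neg_sub]

theorem sub_ge (x y : ℂ) (hx : x ≠ 0) (hy : y ≠ 0) (hxy : x - y ≠ 0) :
    min (p.v x) (p.v y) ≤ p.v (x - y) := by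
  have h := p.add x (-y) hx (neg_ne_zero.2 hy) (by rwa [← sub_eq_add_neg])
  rwa [p.neg, ← sub_eq_add_neg] at h

/-- finite products -/
theorem prod {ι : Type*} (s : Finset ι) (f : ι → ℂ) (hf : ∀ i ∈ s, f i ≠ 0) :
    p.v (∏ i ∈ s, f i) = ∑ i ∈ s, p.v (f i) := by
  classical
  induction s using Finset.induction_on with
  | empty => simp [p.one]
  | insert i s hi ih =>
    rw [Finset.prod_insert hi, Finset.sum_insert hi, p.mul _ _ (hf i (Finset.mem_insert_self i s))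
      (Finset.prod_ne_zero_iff.2 fun j hj => hf j (Finset.mem_insert_of_mem hj)),
      ih fun j hj => hf j (Finset.mem_insert_of_mem hj)]

end Place

theorem ne_p (g : ℝ) : (g : ℂ) - I ≠ 0 := by
  intro h
  have := congrArg Complex.im h
  simp at this

theorem ne_m (g : ℝ) : (g : ℂ) + I ≠ 0 := by
  intro h
  have := congrArg Complex.im h
  simp at this

theorem v_two_I (p : Place) : p.v (2 * I) = 0 := by
  rw [p.mul 2 I (by norm_num) I_ne_zero, p.two, p.vI, add_zero]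

/-- N: `vp = vm ≤ 0`; P (at i): `vm = 0 < vp`; M (at -i): `vp = 0 < vm` -/
theorem trich (p : Place) (g : ℝ) :
    (vp p g = vm p g ∧ vp p g ≤ 0) ∨ (0 < vp p g ∧ vm p g = 0) ∨ (vp p g = 0 ∧ 0 < vm p g) := by
  have h2I : (2 * I : ℂ) ≠ 0 := mul_ne_zero two_ne_zero I_ne_zero
  have e : ((g : ℂ) + I) - ((g : ℂ) - I) = 2 * I := by ring
  unfold vp vm
  rcases lt_trichotomy (p.v ((g : ℂ) - I)) (p.v ((g : ℂ) + I)) with h | h | h
  · have h1 := (p.sub_lt' _ _ (ne_m g) (ne_p g) h).2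
    rw [e, v_two_I] at h1
    right; right
    exact ⟨h1.symm, by rw [h1]; exact h⟩
  · left
    refine ⟨h, ?_⟩
    have h1 := p.sub_ge _ _ (ne_m g) (ne_p g) (by rw [e]; exact h2I)
    rw [e, v_two_I, h, min_self] at h1
    rw [h]
    exact h1
  · have h1 := (p.sub_lt _ _ (ne_m g) (ne_p g) h).2
    rw [e, v_two_I] at h1
    right; left
    exact ⟨by rw [h1]; exact h, h1.symm⟩

theorem ofReal_sub_ne {g h : ℝ} (hgh : g ≠ h) : (g : ℂ) - h ≠ 0 := by
  rw [sub_ne_zero]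
  exact_mod_cast hgh

theorem sub_p (p : Place) (g h : ℝ) (hgh : g ≠ h) : min (vp p g) (vp p h) ≤ p.v ((g : ℂ) - h) := by
  have e : ((g : ℂ) - I) - ((h : ℂ) - I) = (g : ℂ) - h := by ring
  have h1 := p.sub_ge _ _ (ne_p g) (ne_p h) (by rw [e]; exact ofReal_sub_ne hgh)
  rwa [e] at h1

theorem sub_p_eq (p : Place) (g h : ℝ) (hgh : vp p g ≠ vp p h) :
    p.v ((g : ℂ) - h) = min (vp p g) (vp p h) := by
  have e : ((g : ℂ) - I) - ((h : ℂ) - I) = (g : ℂ) - h := by ring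
  rcases lt_or_gt_of_ne hgh with h1 | h1
  · rw [← e, (p.sub_lt _ _ (ne_p g) (ne_p h) h1).2, min_eq_left h1.le]
    rfl
  · rw [← e, (p.sub_lt' _ _ (ne_p g) (ne_p h) h1).2, min_eq_right h1.le]
    rfl

theorem sub_m (p : Place) (g h : ℝ) (hgh : g ≠ h) : min (vm p g) (vm p h) ≤ p.v ((g : ℂ) - h) := by
  have e : ((g : ℂ) + I) - ((h : ℂ) + I) = (g : ℂ) - h := by ring
  have h1 := p.sub_ge _ _ (ne_m g) (ne_m h) (by rw [e]; exact ofReal_sub_ne hgh)
  rwa [e] at h1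

theorem sub_m_eq (p : Place) (g h : ℝ) (hgh : vm p g ≠ vm p h) :
    p.v ((g : ℂ) - h) = min (vm p g) (vm p h) := by
  have e : ((g : ℂ) + I) - ((h : ℂ) + I) = (g : ℂ) - h := by ring
  rcases lt_or_gt_of_ne hgh with h1 | h1
  · rw [← e, (p.sub_lt _ _ (ne_m g) (ne_m h) h1).2, min_eq_left h1.le]
    rfl
  · rw [← e, (p.sub_lt' _ _ (ne_m g) (ne_m h) h1).2, min_eq_right h1.le]
    rfl

theorem vp_conj (p : Place) (g : ℝ) : vp p.conj g = vm p g := by
  show p.v (starRingEnd ℂ ((g : ℂ) - I)) = p.v ((g : ℂ) + I)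
  rw [map_sub, conj_ofReal, conj_I, sub_neg_eq_add]

theorem vm_conj (p : Place) (g : ℝ) : vm p.conj g = vp p g := by
  show p.v (starRingEnd ℂ ((g : ℂ) + I)) = p.v ((g : ℂ) - I)
  rw [map_add, conj_ofReal, conj_I, sub_eq_add_neg]

theorem uu_conj (p : Place) (g : ℝ) : uu p.conj g = - uu p g := by
  unfold uu
  rw [vp_conj, vm_conj]
  ring

theorem v_conj_real (p : Place) (g : ℝ) : p.conj.v (g : ℂ) = p.v (g : ℂ) := by
  show p.v (starRingEnd ℂ (g : ℂ)) = p.v (g : ℂ)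
  rw [conj_ofReal]

theorem v_conj_real_sub (p : Place) (g h : ℝ) :
    p.conj.v ((g : ℂ) - h) = p.v ((g : ℂ) - h) := by
  show p.v (starRingEnd ℂ ((g : ℂ) - h)) = p.v ((g : ℂ) - h)
  rw [map_sub, conj_ofReal, conj_ofReal]

/-- rational relation between two nonzero reals: equal values -/
theorem v_prop (p : Place) (x y : ℝ) (r s : ℚ) (hx : x ≠ 0) (hy : y ≠ 0) (hr : r ≠ 0)
    (h : (r : ℝ) * x = (s : ℝ) * y) : p.v (x : ℂ) = p.v (y : ℂ) := by
  have hs : s ≠ 0 := by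
    rintro rfl
    have h0 : (r : ℝ) * x ≠ 0 := mul_ne_zero (by exact_mod_cast hr) hx
    rw [h] at h0
    simp at h0
  have hc : (r : ℂ) * (x : ℂ) = (s : ℂ) * (y : ℂ) := by exact_mod_cast congrArg (fun t : ℝ => (t : ℂ)) h
  rw [← p.rat_mul r hr (x : ℂ) (by exact_mod_cast hx), hc,
    p.rat_mul s hs (y : ℂ) (by exact_mod_cast hy)]

end Pool.Agent.TetRot
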