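import Mathlib
import Pool.Agent.TetRot.Defs

/-! # Existence of places -/

set_option autoImplicit false

open Polynomial

namespace Pool.Agent.TetRot

section PV

variable {Γ : Type*} [LinearOrderedCommGroupWithZero Γ]

/-- a polynomial relation has two terms of equal value -/
theorem pv_two_terms (v : Valuation ℂ Γ) (Q : ℂ[X]) (hQ : Q ≠ 0) (x : ℂ)
    (h0 : Q.eval x = 0) (hx : x ≠ 0) : ∃ i j, i < j ∧ Q.coeff i ≠ 0 ∧ Q.coeff j ≠ 0 ∧
      v (Q.coeff i) * v x ^ i = v (Q.coeff j) * v x ^ j := by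
  classical
  obtain ⟨j, hj, hmax⟩ := Q.support.exists_max_image (fun i => v (Q.coeff i * x ^ i))
    (Polynomial.support_nonempty.2 hQ)
  by_contra hcon
  push Not at hcon
  have h1 : ∀ i ∈ Q.support \ {j}, v (Q.coeff i * x ^ i) < v (Q.coeff j * x ^ j) := by
    intro i hi
    rw [Finset.mem_sdiff, Finset.mem_singleton] at hi
    refine lt_of_le_of_ne (hmax i hi.1) ?_
    intro heq
    rw [map_mul, map_mul, map_pow, map_pow] at heq
    rcases lt_or_gt_of_ne hi.2 with h | h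
    · exact hcon i j h (mem_support_iff.1 hi.1) (mem_support_iff.1 hj) heq
    · exact hcon j i h (mem_support_iff.1 hj) (mem_support_iff.1 hi.1) heq.symm
  have h2 := Valuation.map_sum_eq_of_lt v hj h1
  have h3 : ∑ i ∈ Q.support, Q.coeff i * x ^ i = 0 := by
    rw [← h0, Polynomial.eval_eq_sum, Polynomial.sum_def]
  rw [h3, map_zero] at h2
  have h4 : Q.coeff j * x ^ j ≠ 0 := mul_ne_zero (mem_support_iff.1 hj) (pow_ne_zero _ hx)
  exact h4 ((Valuation.zero_iff v).1 h2.symm)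

theorem pv_zpow_inj {γ : Γ} (hγ : 1 < γ) {m n : ℤ} (h : γ ^ m = γ ^ n) : m = n :=
  zpow_right_injective₀ (zero_lt_one.trans hγ) hγ.ne' h

theorem pv_zpow_le {γ : Γ} (hγ : 1 < γ) {m n : ℤ} (h : γ ^ m ≤ γ ^ n) : m ≤ n :=
  (zpow_le_zpow_iff_right₀ hγ).1 h

/-- a rational exponent -/
structure PExp (v : Valuation ℂ Γ) (γ : Γ) (x : ℂ) (n : ℕ) (m : ℤ) : Prop where
  pos : 0 < n
  eq : v x ^ n = γ ^ m

theorem PExp.mono {v : Valuation ℂ Γ} {γ : Γ} (hγ : 1 < γ) {x y : ℂ} {n n' : ℕ} {m m' : ℤ}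
    (hx : PExp v γ x n m) (hy : PExp v γ y n' m') (h : v x ≤ v y) :
    (m : ℚ) / n ≤ (m' : ℚ) / n' := by
  have h1 : v x ^ (n * n') ≤ v y ^ (n * n') := pow_le_pow_left₀ (zero_le) h _
  rw [pow_mul, hx.eq, mul_comm n n', pow_mul, hy.eq, ← zpow_natCast, ← zpow_natCast,
    ← zpow_mul, ← zpow_mul] at h1
  have h2 := pv_zpow_le hγ h1
  have hn : (0 : ℚ) < n := by exact_mod_cast hx.pos
  have hn' : (0 : ℚ) < n' := by exact_mod_cast hy.pos
  rw [div_le_div_iff₀ hn hn']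
  exact_mod_cast h2

theorem PExp.mul {v : Valuation ℂ Γ} {γ : Γ} {x y : ℂ} {n n' : ℕ} {m m' : ℤ}
    (hγ0 : γ ≠ 0) (hx : PExp v γ x n m) (hy : PExp v γ y n' m') :
    PExp v γ (x * y) (n * n') (m * n' + m' * n) := by
  refine ⟨Nat.mul_pos hx.pos hy.pos, ?_⟩
  rw [map_mul, mul_pow, pow_mul, hx.eq, mul_comm n n', pow_mul, hy.eq, zpow_add₀ hγ0,
    zpow_mul, zpow_mul, zpow_natCast, zpow_natCast]

theorem pv_build (v : Valuation ℂ Γ) {f : ℂ} (hf : 1 < v f)
    (hQ : ∀ q : ℚ, q ≠ 0 → v (q : ℂ) = 1)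
    (hT : ∀ x : ℂ, x ≠ 0 → ∃ (n : ℕ) (m : ℤ), PExp v (v f) x n m) :
    ∃ p : Place, p.v f < 0 := by
  classical
  have hγ0 : v f ≠ 0 := (zero_lt_one.trans hf).ne'
  choose! n m hnm using hT
  have huniq : ∀ x : ℂ, x ≠ 0 → ∀ (n' : ℕ) (m' : ℤ), PExp v (v f) x n' m' →
      (m x : ℚ) / n x = (m' : ℚ) / n' := by
    intro x hx n' m' h
    exact le_antisymm ((hnm x hx).mono hf h le_rfl) (h.mono hf (hnm x hx) le_rfl)
  have hf0 : f ≠ 0 := by
    rintro rfl
    exact hγ0 (map_zero v)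
  refine ⟨{ v := fun x => -((m x : ℚ) / n x), mul := ?_, add := ?_, alg := ?_ }, ?_⟩
  · intro x y hx hy
    have h1 := huniq (x * y) (mul_ne_zero hx hy) _ _ ((hnm x hx).mul hγ0 (hnm y hy))
    show -((m (x * y) : ℚ) / n (x * y)) = -((m x : ℚ) / n x) + -((m y : ℚ) / n y)
    rw [h1]
    have hn : (n x : ℚ) ≠ 0 := by exact_mod_cast (hnm x hx).pos.ne'
    have hn' : (n y : ℚ) ≠ 0 := by exact_mod_cast (hnm y hy).pos.ne'
    push_cast
    field_simp
    ring
  · intro x y hx hy hxy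
    show min (-((m x : ℚ) / n x)) (-((m y : ℚ) / n y)) ≤ -((m (x + y) : ℚ) / n (x + y))
    rcases le_total (v x) (v y) with h | h
    · have h1 : v (x + y) ≤ v y := (v.map_add x y).trans (max_le h le_rfl)
      have h2 := (hnm _ hxy).mono hf (hnm y hy) h1
      exact (min_le_right _ _).trans (neg_le_neg h2)
    · have h1 : v (x + y) ≤ v x := (v.map_add x y).trans (max_le le_rfl h)
      have h2 := (hnm _ hxy).mono hf (hnm x hx) h1
      exact (min_le_left _ _).trans (neg_le_neg h2)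
  · intro x hx hal
    obtain ⟨P, hP, h0⟩ := hal
    have hinj : Function.Injective (algebraMap ℚ ℂ) := (algebraMap ℚ ℂ).injective
    have h1 : P.map (algebraMap ℚ ℂ) ≠ 0 := (Polynomial.map_ne_zero_iff hinj).2 hP
    have h2 : (P.map (algebraMap ℚ ℂ)).eval x = 0 := by
      rw [Polynomial.eval_map_algebraMap]
      exact h0
    obtain ⟨i, j, hij, hi, hj, h3⟩ := pv_two_terms v _ h1 x h2 hx
    rw [Polynomial.coeff_map] at hi hj h3
    rw [Polynomial.coeff_map] at h3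
    have hc : ∀ q : ℚ, algebraMap ℚ ℂ q ≠ 0 → v (algebraMap ℚ ℂ q) = 1 := by
      intro q hq
      refine hQ q ?_
      rintro rfl
      exact hq (map_zero _)
    rw [hc _ hi, hc _ hj, one_mul, one_mul] at h3
    have hvx : v x ≠ 0 := (Valuation.ne_zero_iff v).2 hx
    have h4 : v x ^ (j - i) = 1 := by
      have h5 : v x ^ j = v x ^ i * v x ^ (j - i) := by
        rw [← pow_add, Nat.add_sub_cancel' hij.le]
      rw [h5] at h3
      have h6 : v x ^ i ≠ 0 := pow_ne_zero _ hvx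
      exact (mul_right_eq_self₀.1 h3.symm).resolve_right h6
    have h5 : PExp v (v f) x (j - i) 0 := ⟨Nat.sub_pos_of_lt hij, by rw [h4, zpow_zero]⟩
    show -((m x : ℚ) / n x) = 0
    rw [huniq x hx _ _ h5]
    simp
  · have h1 : PExp v (v f) f 1 1 := ⟨one_pos, by rw [pow_one, zpow_one]⟩
    show -((m f : ℚ) / n f) < 0
    rw [huniq f hf0 _ _ h1]
    norm_num

end PV

theorem pv_aeval {Γ : Type*} [LinearOrderedCommGroupWithZero Γ] (v : Valuation ℂ Γ)
    (k : IntermediateField ℚ ℂ) (hk : ∀ c : k, c ≠ 0 → v (c : ℂ) = 1) (f : ℂ) (hf : 1 < v f)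
    (P : k[X]) (hP : P ≠ 0) : v (aeval f P) = v f ^ P.natDegree := by
  classical
  have h1 : aeval f P = ∑ i ∈ P.support, (P.coeff i : ℂ) * f ^ i := by
    rw [aeval_def, eval₂_eq_sum, Polynomial.sum_def]
    rfl
  have hval : ∀ i ∈ P.support, v ((P.coeff i : ℂ) * f ^ i) = v f ^ i := by
    intro i hi
    rw [map_mul, map_pow, hk _ (mem_support_iff.1 hi), one_mul]
  have hn : P.natDegree ∈ P.support := natDegree_mem_support_of_nonzero hP
  rw [h1, Valuation.map_sum_eq_of_lt v hn, hval _ hn]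
  intro i hi
  rw [Finset.mem_sdiff, Finset.mem_singleton] at hi
  rw [hval i hi.1, hval _ hn]
  exact pow_lt_pow_right₀ hf (lt_of_le_of_ne (le_natDegree_of_mem_supp _ hi.1) hi.2)

theorem pv_field (f : ℂ) (hf : ¬ IsAlgebraic ℚ f) : ∃ (k : IntermediateField ℚ ℂ) (t : Set ℂ),
    Transcendental k f ∧ Algebra.IsAlgebraic (Algebra.adjoin ℚ t) ℂ ∧
      ∀ c ∈ Algebra.adjoin ℚ t, ∃ P : k[X], aeval f P = c := by
  classical
  obtain ⟨t, hft, ht⟩ := exists_isTranscendenceBasis_superset (R := ℚ) (A := ℂ) (s := {f}) (by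
    show AlgebraicIndependent ℚ fun i : ({f} : Set ℂ) => id (i : ℂ)
    rw [algebraicIndependent_singleton_iff ⟨f, rfl⟩]
    exact hf)
  have hf' : f ∈ t := hft rfl
  refine ⟨IntermediateField.adjoin ℚ (t \ {f}), t, ?_, ?_, ?_⟩
  · have h1 := ht.1.transcendental_adjoin (s := {i : t | (i : ℂ) ≠ f}) (i := ⟨f, hf'⟩)
      (by simp)
    have h2 : (Subtype.val '' {i : t | (i : ℂ) ≠ f}) = t \ {f} := by
      ext z
      simp [and_comm]
    have h3 : Transcendental (Algebra.adjoin ℚ (t \ {f})) f := by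
      have h4 := h1
      rw [h2] at h4
      exact h4
    intro h4
    apply h3
    open IntermediateField.algebraAdjoinAdjoin in
    exact (IsFractionRing.isAlgebraic_iff (Algebra.adjoin ℚ (t \ {f}))
      (IntermediateField.adjoin ℚ (t \ {f})) ℂ).2 h4
  · have h1 := ht.isAlgebraic
    rw [Subtype.range_coe] at h1
    exact h1
  · intro c hc
    set k := IntermediateField.adjoin ℚ (t \ {f})
    have h1 : Algebra.adjoin ℚ t ≤ ((aeval f : k[X] →ₐ[k] ℂ).restrictScalars ℚ).range := by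
      rw [Algebra.adjoin_le_iff]
      intro z hz
      by_cases hzf : z = f
      · exact ⟨X, by simp [hzf]⟩
      · have h2 : z ∈ k := IntermediateField.subset_adjoin ℚ _ ⟨hz, hzf⟩
        exact ⟨C ⟨z, h2⟩, by simp⟩
    obtain ⟨P, hP⟩ := h1 hc
    exact ⟨P, hP⟩

theorem exists_place (f : ℂ) (hf : ¬ IsAlgebraic ℚ f) : ∃ p : Place, p.v f < 0 := by
  classical
  obtain ⟨k, t, hk, ht, hkt⟩ := pv_field f hf
  have hf0 : f ≠ 0 := by
    rintro rfl
    exact hf isAlgebraic_zero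
  -- the valuation ring
  set B : Subalgebra k ℂ := Algebra.adjoin k {f⁻¹} with hB
  have hg : f⁻¹ ∈ B.toSubring := Algebra.self_mem_adjoin_singleton k f⁻¹
  have hI : Ideal.span {(⟨f⁻¹, hg⟩ : B.toSubring)} ≠ ⊤ := by
    rw [Ideal.ne_top_iff_one, Ideal.mem_span_singleton]
    rintro ⟨⟨c, hc⟩, h1⟩
    have h2 : (1 : ℂ) = f⁻¹ * c := congrArg Subtype.val h1
    have h3 : c ∈ Algebra.adjoin k {f⁻¹} := hc
    rw [Algebra.adjoin_singleton_eq_range_aeval] at h3
    obtain ⟨P, hP⟩ := h3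
    have h4 : aeval f⁻¹ (X * P - 1) = 0 := by
      have h5 : aeval f⁻¹ P = c := hP
      rw [map_sub, map_mul, aeval_X, h5, map_one, ← h2, sub_self]
    have h5 : X * P - 1 ≠ 0 := by
      intro h6
      have h7 := congrArg (fun Q : k[X] => Q.eval 0) h6
      simp at h7
    have h6 : IsAlgebraic k f⁻¹ := ⟨_, h5, h4⟩
    have h7 := h6.inv
    rw [inv_inv] at h7
    exact hk h7
  obtain ⟨V, hV1, hV2⟩ := Ideal.image_subset_nonunits_valuationSubring _ hI
  have hvg : V.valuation f⁻¹ < 1 := by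
    rw [← V.mem_nonunits_iff]
    exact hV2 ⟨⟨f⁻¹, hg⟩, Ideal.subset_span rfl, rfl⟩
  have hvf : 1 < V.valuation f := by
    rw [map_inv₀] at hvg
    have h1 : V.valuation f ≠ 0 := (Valuation.ne_zero_iff _).2 hf0
    have h2 : 0 < V.valuation f := zero_lt_iff.2 h1
    exact (inv_lt_one₀ h2).1 hvg
  have hkV : ∀ c : k, (c : ℂ) ∈ V := fun c => hV1 (B.algebraMap_mem c)
  have hkv : ∀ c : k, c ≠ 0 → V.valuation (c : ℂ) = 1 := by
    intro c hc
    have h1 := (V.valuation_le_one_iff _).2 (hkV c)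
    have h2 := (V.valuation_le_one_iff _).2 (hkV c⁻¹)
    have h3 : ((c⁻¹ : k) : ℂ) = (c : ℂ)⁻¹ := rfl
    have hc' : (c : ℂ) ≠ 0 := by
      intro h
      exact hc (Subtype.ext h)
    have h4 : 0 < V.valuation (c : ℂ) := zero_lt_iff.2 ((Valuation.ne_zero_iff _).2 hc')
    rw [h3, map_inv₀] at h2
    exact le_antisymm h1 ((inv_le_one₀ h4).1 h2)
  refine pv_build V.valuation hvf ?_ ?_
  · intro q hq
    have h1 := hkv (algebraMap ℚ k q) (by
      rwa [ne_eq, map_eq_zero])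
    have h2 : ((algebraMap ℚ k q : k) : ℂ) = (q : ℂ) := by
      simp
    rwa [h2] at h1
  · intro x hx
    obtain ⟨P, hP, h0⟩ := ht.1 x
    have hinj : Function.Injective (algebraMap (Algebra.adjoin ℚ t) ℂ) :=
      Subtype.val_injective
    have h1 : P.map (algebraMap (Algebra.adjoin ℚ t) ℂ) ≠ 0 :=
      (Polynomial.map_ne_zero_iff hinj).2 hP
    have h2 : (P.map (algebraMap (Algebra.adjoin ℚ t) ℂ)).eval x = 0 := by
      rw [Polynomial.eval_map_algebraMap]
      exact h0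
    obtain ⟨i, j, hij, hi, hj, h3⟩ := pv_two_terms V.valuation _ h1 x h2 hx
    have hc : ∀ l, (P.map (algebraMap (Algebra.adjoin ℚ t) ℂ)).coeff l ≠ 0 →
        ∃ n : ℕ, V.valuation ((P.map (algebraMap (Algebra.adjoin ℚ t) ℂ)).coeff l) =
          V.valuation f ^ n := by
      intro l hl
      obtain ⟨Q, hQ⟩ := hkt ((P.map (algebraMap (Algebra.adjoin ℚ t) ℂ)).coeff l) (by
        rw [Polynomial.coeff_map]
        exact (P.coeff l).2)
      refine ⟨Q.natDegree, ?_⟩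
      rw [← hQ]
      refine pv_aeval V.valuation k hkv f hvf Q ?_
      rintro rfl
      rw [map_zero] at hQ
      exact hl hQ.symm
    obtain ⟨a, ha⟩ := hc i hi
    obtain ⟨b, hb⟩ := hc j hj
    rw [ha, hb] at h3
    have hvx : V.valuation x ≠ 0 := (Valuation.ne_zero_iff _).2 hx
    have hvf0 : V.valuation f ≠ 0 := (zero_lt_one.trans hvf).ne'
    refine ⟨j - i, (a : ℤ) - b, Nat.sub_pos_of_lt hij, ?_⟩
    have h5 : V.valuation x ^ j = V.valuation x ^ i * V.valuation x ^ (j - i) := by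
      rw [← pow_add, Nat.add_sub_cancel' hij.le]
    rw [h5, mul_left_comm, mul_comm (V.valuation f ^ a)] at h3
    have h6 := mul_left_cancel₀ (pow_ne_zero i hvx) h3
    rw [zpow_sub₀ hvf0, zpow_natCast, zpow_natCast, h6]
    rw [mul_comm, mul_div_assoc, div_self (pow_ne_zero _ hvf0), mul_one]

end Pool.Agent.TetRot
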