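import Pool.Agent.TetRot.Ultra

/-!
# The global step (package G)

The existence of places (`EP`), the local classification (`LA`) and the exclusion of the relation
chains (`LX`) are hypotheses here.
-/

set_option autoImplicit false

open Complex

namespace Pool.Agent.TetRot

/-! the package -/

section Gval

variable (p : Place)

theorem gl_div (x y : ℂ) (hx : x ≠ 0) (hy : y ≠ 0) : p.v (x / y) = p.v x - p.v y := by
  have h := p.mul (x / y) y (div_ne_zero hx hy) hy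
  rw [div_mul_cancel₀ x hy] at h
  linarith

/-- zero or of value at least `c` -/
def GGe (c : ℚ) (x : ℂ) : Prop := x = 0 ∨ c ≤ p.v x

variable {p}

theorem GGe.of {c : ℚ} {x : ℂ} (h : c ≤ p.v x) : GGe p c x := Or.inr h

theorem GGe.mono {c d : ℚ} {x : ℂ} (h : GGe p c x) (hd : d ≤ c) : GGe p d x :=
  h.imp id fun h => hd.trans h

theorem GGe.add {c : ℚ} {x y : ℂ} (hx : GGe p c x) (hy : GGe p c y) : GGe p c (x + y) := by
  by_cases hx0 : x = 0
  · rw [hx0, zero_add]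
    exact hy
  by_cases hy0 : y = 0
  · rw [hy0, add_zero]
    exact hx
  by_cases hxy : x + y = 0
  · exact Or.inl hxy
  have h1 := hx.resolve_left hx0
  have h2 := hy.resolve_left hy0
  exact Or.inr ((le_min h1 h2).trans (p.add x y hx0 hy0 hxy))

theorem GGe.mul {c d : ℚ} {x y : ℂ} (hx : GGe p c x) (hy : GGe p d y) :
    GGe p (c + d) (x * y) := by
  by_cases hx0 : x = 0
  · exact Or.inl (by rw [hx0, zero_mul])
  by_cases hy0 : y = 0
  · exact Or.inl (by rw [hy0, mul_zero])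
  refine Or.inr ?_
  rw [p.mul x y hx0 hy0]
  exact add_le_add (hx.resolve_left hx0) (hy.resolve_left hy0)

theorem GGe.const {x : ℂ} (h : IsAlgebraic ℚ x) : GGe p 0 x := by
  by_cases hx0 : x = 0
  · exact Or.inl hx0
  · exact Or.inr (p.alg x hx0 h).ge

theorem GGe.cmul {c : ℚ} {x z : ℂ} (hz : IsAlgebraic ℚ z) (hx : GGe p c x) :
    GGe p c (z * x) := by
  have := (GGe.const (p := p) hz).mul hx
  rwa [zero_add] at this

end Gval

theorem gl_algI : IsAlgebraic ℚ I := by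
  refine ⟨Polynomial.X ^ 2 + 1, ?_, ?_⟩
  · exact (Polynomial.monic_X_pow_add (by simp)).ne_zero
  · simp

theorem gl_alg_nat (n : ℕ) : IsAlgebraic ℚ (n : ℂ) := isAlgebraic_natCast n

/-- all values nonnegative: algebraic -/
theorem gl_alg (EP : ∀ f : ℂ, ¬ IsAlgebraic ℚ f → ∃ p : Place, p.v f < 0)
    {f : ℂ} (h : ∀ p : Place, 0 ≤ p.v f) : IsAlgebraic ℚ f := by
  by_contra hf
  obtain ⟨p, hp⟩ := EP f hf
  exact absurd (h p) (not_le.2 hp)

theorem gl_real {x : ℝ} (h : IsAlgebraic ℚ (x : ℂ)) : IsAlgebraic ℚ x := by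
  rwa [← isAlgebraic_algebraMap_iff (R := ℚ) (S := ℝ) (A := ℂ) (algebraMap ℝ ℂ).injective]

/-- the product `(a² + 1) (b² + 1)` -/
noncomputable def glW (a b : ℝ) : ℂ := ((a : ℂ) ^ 2 + 1) * ((b : ℂ) ^ 2 + 1)

theorem glW_eq (a b : ℝ) :
    glW a b = (((a : ℂ) - I) * ((a : ℂ) + I)) * (((b : ℂ) - I) * ((b : ℂ) + I)) := by
  have h : ∀ z : ℂ, (z - I) * (z + I) = z ^ 2 + 1 := by
    intro z
    linear_combination (-1 : ℂ) * I_sq
  rw [h, h, glW]

theorem glW_ne (a b : ℝ) : glW a b ≠ 0 := by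
  rw [glW_eq]
  exact mul_ne_zero (mul_ne_zero (ne_p a) (ne_m a)) (mul_ne_zero (ne_p b) (ne_m b))

theorem v_glW (p : Place) (a b : ℝ) :
    p.v (glW a b) = vp p a + vm p a + vp p b + vm p b := by
  rw [glW_eq, p.mul _ _ (mul_ne_zero (ne_p a) (ne_m a)) (mul_ne_zero (ne_p b) (ne_m b)),
    p.mul _ _ (ne_p a) (ne_m a), p.mul _ _ (ne_p b) (ne_m b)]
  simp only [vp, vm]
  ring

theorem gl_conj (p : Place) (x : ℝ) : p.conj.v (x : ℂ) = p.v (x : ℂ) := by
  show p.v (starRingEnd ℂ (x : ℂ)) = _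
  rw [conj_ofReal]

theorem gl_Alg (EP : ∀ f : ℂ, ¬ IsAlgebraic ℚ f → ∃ p : Place, p.v f < 0) {a b : ℝ} {y : Fin 4 → ℝ} (h : Nrm a b y) (hS : ∀ p, Star p a b y) :
    ∀ t, IsAlgebraic ℚ ((y t - a) / (y 0 - a)) ∧ IsAlgebraic ℚ ((y t - b) / (y 0 - a)) := by
  have ha : ∀ t, ((y t : ℂ) - a) ≠ 0 := by
    intro t ht
    have h1 : y t = a := by exact_mod_cast sub_eq_zero.1 ht
    by_cases h0 : t = 0
    · exact h.a0.ne (h0 ▸ h1)
    · exact (h.ak t h0).ne' h1
  have hb : ∀ t, ((y t : ℂ) - b) ≠ 0 := by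
    intro t ht
    have h1 : y t = b := by exact_mod_cast sub_eq_zero.1 ht
    by_cases h0 : t = 0
    · exact h.b0.ne (h0 ▸ h1)
    · exact (h.bk t h0).ne' h1
  have h1 : ∀ z : ℂ, z ≠ 0 → (∀ p : Place, vp p a + vm p a + vp p b + vm p b ≤ 2 * p.v z) →
      IsAlgebraic ℚ (z * ((y 0 : ℂ) - a) / glW a b) := by
    intro z hz hv
    refine gl_alg EP fun p => ?_
    rw [gl_div p _ _ (mul_ne_zero hz (ha 0)) (glW_ne a b), p.mul _ _ hz (ha 0), v_glW]
    have h2 := hv p
    have h3 := (hS p 0).1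
    linarith
  have h0 := h1 _ (ha 0) fun p => (hS p 0).1
  have h2 : ∀ z : ℝ, (z : ℂ) ≠ 0 →
      (∀ p : Place, vp p a + vm p a + vp p b + vm p b ≤ 2 * p.v (z : ℂ)) →
      IsAlgebraic ℚ (z / (y 0 - a)) := by
    intro z hz hv
    apply gl_real
    have h3 := (h1 _ hz hv).mul h0.inv
    have h4 : (z : ℂ) * ((y 0 : ℂ) - a) / glW a b * (((y 0 : ℂ) - a) * ((y 0 : ℂ) - a) / glW a b)⁻¹ =
        ((z / (y 0 - a) : ℝ) : ℂ) := by
      push_cast
      have := glW_ne a b
      have := ha 0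
      field_simp
    rwa [h4] at h3
  intro t
  constructor
  · refine h2 _ ?_ fun p => ?_
    · push_cast
      exact ha t
    · push_cast
      exact (hS p t).1
  · refine h2 _ ?_ fun p => ?_
    · push_cast
      exact hb t
    · push_cast
      exact (hS p t).2

theorem gl_unique {a b : ℝ} {y : Fin 4 → ℝ}
    (LX : ∀ j k t : Fin 4, j ≠ 0 → k ≠ 0 → t ≠ 0 → j ≠ k → j ≠ t → k ≠ t →
      y j - a = y k - b → y k - a = y t - b → False)
    {p q : Place} {j k j' k' : Fin 4} (hp : TyI p a b y j k)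
    (hq : TyI q a b y j' k') : j' = j ∧ k' = k := by
  have hva : ∀ t, y t = y j → t = j := by
    intro t ht
    by_contra h1
    have h2 := hp.oa t h1
    rw [ht, hp.ja] at h2
    exact hp.pos.ne' h2
  have hvb : ∀ t, y t = y k → t = k := by
    intro t ht
    by_contra h1
    have h2 := hp.ob t h1
    rw [ht, hp.kb] at h2
    exact hp.pos.ne' h2
  have e1 := hp.eq
  have e2 := hq.eq
  by_cases hj : j' = j
  · refine ⟨hj, hvb k' ?_⟩
    rw [hj] at e2
    linarith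
  exfalso
  by_cases hk : k' = k
  · refine hj (hva j' ?_)
    rw [hk] at e2
    linarith
  by_cases hjk : j' = k
  · by_cases hkj : k' = j
    · rw [hjk, hkj] at e2
      have h1 : y k = y j := by linarith
      have h2 : a = b := by linarith
      have h3 := hp.ob j hp.jk
      rw [← h2, hp.ja] at h3
      exact hp.pos.ne' h3
    · rw [hjk] at e2
      exact LX j k k' hp.j0 hp.k0 hq.k0 hp.jk (Ne.symm hkj) (Ne.symm hk) e1 e2
  · have hkj : k' = j := by
      have h1 := hp.j0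
      have h2 := hp.k0
      have h3 := hp.jk
      have h4 := hq.j0
      have h5 := hq.k0
      have h6 := hq.jk
      revert hj hk hjk h1 h2 h3 h4 h5 h6
      clear hva hvb e1 e2 hp hq
      revert j k j' k'
      decide
    rw [hkj] at e2
    exact LX j' j k hq.j0 hp.j0 hp.k0 hj hjk hp.jk e2 e1

theorem global_of (EP : ∀ f : ℂ, ¬ IsAlgebraic ℚ f → ∃ p : Place, p.v f < 0)
    {a b : ℝ} {y : Fin 4 → ℝ} (h : Nrm a b y)
    (LA : ∀ p : Place, (∃ j k, TyI p a b y j k) ∨ (∃ j k, TyI p.conj a b y j k) ∨ Star p a b y)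
    (hna : ¬ ∀ t, IsAlgebraic ℚ ((y t - a) / (y 0 - a)) ∧ IsAlgebraic ℚ ((y t - b) / (y 0 - a)))
    (LX : ∀ j k t : Fin 4, j ≠ 0 → k ≠ 0 → t ≠ 0 → j ≠ k → j ≠ t → k ≠ t →
      y j - a = y k - b → y k - a = y t - b → False) :
    ∃ j k : Fin 4, j ≠ 0 ∧ k ≠ 0 ∧ j ≠ k ∧ y j - a = y k - b ∧
      4 * (y j - a) ^ 2 = (a ^ 2 + 1) * (b ^ 2 + 1) := by
  -- a place of type I
  obtain ⟨p₀, j, k, h0⟩ : ∃ (p : Place) (j k : Fin 4), TyI p a b y j k := by
    by_contra hno
    push Not at hno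
    refine hna (gl_Alg EP h fun p => ?_)
    rcases LA p with ⟨j, k, hj⟩ | ⟨j, k, hj⟩ | hS
    · exact absurd hj (hno _ _ _)
    · exact absurd hj (hno _ _ _)
    · exact hS
  refine ⟨j, k, h0.j0, h0.k0, h0.jk, h0.eq, ?_⟩
  set u : ℝ := y j - a with hu
  have hu0 : (u : ℂ) ≠ 0 := by
    have h1 := h.ak j h0.j0
    have h2 : u ≠ 0 := by rw [hu]; exact (sub_pos.2 h1).ne'
    exact_mod_cast h2
  have hua : (u : ℂ) = (y j : ℂ) - a := by rw [hu]; push_cast; ring
  have hub : (u : ℂ) = (y k : ℂ) - b := by rw [hu, h0.eq]; push_cast; ring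
  have hW := glW_ne a b
  -- the quotient is algebraic
  have hpos : ∀ p : Place, (∃ j' k', TyI p a b y j' k') →
      p.v (glW a b) ≤ 2 * p.v (u : ℂ) := by
    rintro p ⟨j', k', hp⟩
    obtain ⟨rfl, rfl⟩ := gl_unique LX h0 hp
    rw [v_glW, hua, hp.ja, hp.am, hp.bp, hp.bm]
    linarith
  have hWr : (((a ^ 2 + 1) * (b ^ 2 + 1) : ℝ) : ℂ) = glW a b := by
    rw [glW]
    push_cast
    ring
  have hall : ∀ p : Place, p.v (glW a b) ≤ 2 * p.v (u : ℂ) := by
    intro p
    rcases LA p with hp | hp | hS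
    · exact hpos p hp
    · have h1 := hpos p.conj hp
      rwa [← hWr, gl_conj, gl_conj, hWr] at h1
    · rw [v_glW, hua]
      exact (hS j).1
  have halg : IsAlgebraic ℚ ((u : ℂ) ^ 2 / glW a b) := by
    refine gl_alg EP fun p => ?_
    rw [gl_div p _ _ (pow_ne_zero 2 hu0) hW, pow_two, p.mul _ _ hu0 hu0]
    have := hall p
    linarith
  -- the value of the difference at the place of type I
  set A : ℂ := (a : ℂ) - I with hA
  set B : ℂ := (b : ℂ) + I with hB
  set Yj : ℂ := (y j : ℂ) - I with hYj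
  set Yk : ℂ := (y k : ℂ) + I with hYk
  set m := vp p₀ a with hm
  have gA : GGe p₀ m A := GGe.of le_rfl
  have gB : GGe p₀ m B := GGe.of h0.bm.ge
  have gYj : GGe p₀ (2 * m) Yj := GGe.of h0.jp.ge
  have gYk : GGe p₀ (2 * m) Yk := GGe.of h0.km.ge
  have hmpos : 0 < m := h0.pos
  have hid : 4 * (u : ℂ) ^ 2 - glW a b =
      4 * (Yj * Yk) + (-4) * (Yj * B) + (-4) * (A * Yk) + (-2 * I) * (A * B * B) +
        (2 * I) * (A * B * A) + (-1) * (A * B * (A * B)) := by
    have e1 : (u : ℂ) = Yj - A := by rw [hua, hYj, hA]; ring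
    have e2 : (u : ℂ) = Yk - B := by rw [hub, hYk, hB]; ring
    have e3 : (u : ℂ) ^ 2 = (Yj - A) * (Yk - B) := by
      rw [pow_two]
      nth_rewrite 1 [e1]
      rw [e2]
    have e4 : glW a b = A * (2 * I + A) * (B * (-2 * I + B)) := by
      rw [glW_eq, hA, hB]
      ring
    rw [e3, e4]
    linear_combination (4 * A * B) * I_sq
  have algn : ∀ n : ℕ, IsAlgebraic ℚ (-(n : ℂ)) := fun n => (gl_alg_nat n).neg
  have g3 : GGe p₀ (3 * m) (4 * (u : ℂ) ^ 2 - glW a b) := by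
    rw [hid]
    have a4 : IsAlgebraic ℚ (4 : ℂ) := by exact_mod_cast gl_alg_nat 4
    have a4' : IsAlgebraic ℚ (-4 : ℂ) := a4.neg
    have a1' : IsAlgebraic ℚ (-1 : ℂ) := by
      have : IsAlgebraic ℚ (1 : ℂ) := isAlgebraic_one
      exact this.neg
    have a2 : IsAlgebraic ℚ (2 * I) := by
      have : IsAlgebraic ℚ (2 : ℂ) := by exact_mod_cast gl_alg_nat 2
      exact this.mul gl_algI
    have a2' : IsAlgebraic ℚ (-2 * I) := by
      have : -2 * I = -(2 * I) := by ring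
      rw [this]
      exact a2.neg
    refine (((((?_ : GGe p₀ (3 * m) _).add ?_).add ?_).add ?_).add ?_).add ?_
    · exact ((gYj.mul gYk).cmul a4).mono (by linarith)
    · exact ((gYj.mul gB).cmul a4').mono (by linarith)
    · exact ((gA.mul gYk).cmul a4').mono (by linarith)
    · exact (((gA.mul gB).mul gB).cmul a2').mono (by linarith)
    · exact (((gA.mul gB).mul gA).cmul a2).mono (by linarith)
    · exact (((gA.mul gB).mul (gA.mul gB)).cmul a1').mono (by linarith)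
  -- conclusion
  have hz : 4 * (u : ℂ) ^ 2 - glW a b = 0 := by
    by_contra hne
    have hd : (4 * (u : ℂ) ^ 2 - glW a b) / glW a b ≠ 0 := div_ne_zero hne hW
    have h1 : IsAlgebraic ℚ ((4 * (u : ℂ) ^ 2 - glW a b) / glW a b) := by
      have h2 : (4 * (u : ℂ) ^ 2 - glW a b) / glW a b = 4 * ((u : ℂ) ^ 2 / glW a b) - 1 := by
        field_simp
      rw [h2]
      have a4 : IsAlgebraic ℚ (4 : ℂ) := by exact_mod_cast gl_alg_nat 4
      exact (a4.mul halg).sub isAlgebraic_one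
    have h2 := p₀.alg _ hd h1
    rw [gl_div p₀ _ _ hne hW, v_glW, h0.am, h0.bp, h0.bm] at h2
    have h3 := g3.resolve_left hne
    linarith
  rw [← hWr] at hz
  have h5 : ((4 * u ^ 2 - (a ^ 2 + 1) * (b ^ 2 + 1) : ℝ) : ℂ) = 0 := by
    push_cast
    push_cast at hz
    exact hz
  have h6 : 4 * u ^ 2 - (a ^ 2 + 1) * (b ^ 2 + 1) = 0 := by exact_mod_cast h5
  linarith

end Pool.Agent.TetRot
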