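import Mathlib
import Pool.Agent.TetRel.Defs
import Pool.Agent.TetDim.HillFamily
import Pool.Agent.TetRot.Defs2

/-!
# The Hill tetrahedra with a rotation of order two tile space periodically (helper81)
-/

set_option autoImplicit false

open Set
open Pool.Agent.TetRel
open Pool.Agent.TetDim.Hill

namespace Pool.Agent.TetRot

/-- The lattice translations permute the cells. -/
private lemma shift (m : Fin 3 → ℤ) (n : Fin 6 → ℤ) : ∃ n', (fun x => x + tr m) '' C n = C n' := by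
  refine ⟨![n 0 + m 0, n 1 + m 1, n 2 + m 2, n 3 + (m 0 - m 1), n 4 + (m 1 - m 2),
    n 5 + (m 0 - m 2)], ?_⟩
  ext x
  constructor
  · rintro ⟨z, hz, rfl⟩
    rw [mem_C] at hz ⊢
    simp [tr]
    obtain ⟨⟨_, _⟩, ⟨_, _⟩, ⟨_, _⟩, ⟨_, _⟩, ⟨_, _⟩, ⟨_, _⟩⟩ := hz
    refine ⟨⟨?_, ?_⟩, ⟨?_, ?_⟩, ⟨?_, ?_⟩, ⟨?_, ?_⟩, ⟨?_, ?_⟩, ⟨?_, ?_⟩⟩ <;> linarith
  · intro hx
    refine ⟨x - tr m, ?_, by simp⟩
    rw [mem_C] at hx ⊢
    simp at hx
    simp [tr]
    obtain ⟨⟨_, _⟩, ⟨_, _⟩, ⟨_, _⟩, ⟨_, _⟩, ⟨_, _⟩, ⟨_, _⟩⟩ := hx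
    refine ⟨⟨?_, ?_⟩, ⟨?_, ?_⟩, ⟨?_, ?_⟩, ⟨?_, ?_⟩, ⟨?_, ?_⟩, ⟨?_, ?_⟩⟩ <;> linarith

private lemma tr_single (i : Fin 3) : tr (Pi.single i 1) = EuclideanSpace.single i (1 : ℝ) := by
  ext j
  fin_cases i <;> fin_cases j <;> simp [tr]

/-- The family of HillFamily tiles periodically. -/
private lemma vert_per {a b : ℝ} (ha : a ≠ 0) (hb : a + 3 * b ≠ 0) : TilesPer (vert a b) := by
  refine ⟨{A | (∃ n, A = M a b '' C n) ∧
    ∃ φ : E3 ≃ᵢ E3, A = φ '' convexHull ℝ (range (vert a b))}, ?_, ?_, ?_, ?_⟩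
  · rintro A ⟨-, hA⟩
    exact hA
  · rw [sUnion_eq_univ_iff]
    intro y
    obtain ⟨x, rfl⟩ := (ME a b ha hb).surjective y
    obtain ⟨n, hn, φ, hφ⟩ := G_all a b x
    exact ⟨M a b '' C n, ⟨⟨n, rfl⟩, φ, by rw [hull_vert, hφ]⟩, x, hn, rfl⟩
  · rintro _ ⟨⟨n, rfl⟩, -⟩ _ ⟨⟨m, rfl⟩, -⟩ hne
    have e : ∀ X : Set E3, interior (M a b '' X) = M a b '' interior X := fun X =>
      ((ME a b ha hb).toContinuousLinearEquiv.toHomeomorph.image_interior X).symm
    have inj : Function.Injective (M a b) := (ME a b ha hb).injective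
    show Disjoint _ _
    rw [e, e, Set.disjoint_image_iff inj]
    exact disj fun he => hne (by rw [he])
  · refine ⟨fun i => M a b (EuclideanSpace.single i (1 : ℝ)), ?_, ?_⟩
    · have h1 := (EuclideanSpace.basisFun (Fin 3) ℝ).toBasis.linearIndependent
      have h2 := h1.map' (M a b) (LinearMap.ker_eq_bot.2 (ME a b ha hb).injective)
      have h3 : (⇑(M a b) ∘ ⇑(EuclideanSpace.basisFun (Fin 3) ℝ).toBasis) =
          fun i => M a b (EuclideanSpace.single i (1 : ℝ)) := by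
        funext i
        simp
      rw [h3] at h2
      exact h2
    · rintro i A ⟨⟨n, rfl⟩, φ, hφ⟩
      obtain ⟨n', hn'⟩ := shift (Pi.single i 1) n
      refine ⟨⟨n', ?_⟩, φ.trans (IsometryEquiv.addRight (M a b (EuclideanSpace.single i 1))), ?_⟩
      · rw [← hn', image_image, image_image]
        refine image_congr fun x _ => ?_
        rw [map_add, tr_single]
      · rw [hφ, image_image]
        rfl

/-- Transport by an isometry of the form `x ↦ Λ x + c`. -/
private lemma per_image {v w : Fin 4 → E3} (h : TilesPer v) (Λ : E3 ≃ₗᵢ[ℝ] E3) (c : E3)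
    (hw : ∀ i, w i = Λ (v i) + c) : TilesPer w := by
  obtain ⟨S, h1, h2, h3, a, ha, h4⟩ := h
  set f : E3 ≃ᵢ E3 := Λ.toIsometryEquiv.trans (IsometryEquiv.addRight c) with hf
  have fx : ∀ x, f x = Λ x + c := fun x => rfl
  have hull : convexHull ℝ (range w) = f '' convexHull ℝ (range v) := by
    have e : range w = (fun x => x + c) '' (Λ '' range v) := by
      rw [← range_comp, ← range_comp]
      congr 1
      funext i
      exact hw i
    have e2 : (fun x : E3 => x + c) '' (Λ '' convexHull ℝ (range v)) =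
        convexHull ℝ ((fun x : E3 => x + c) '' (Λ '' range v)) := by
      have h5 := (Λ.toLinearEquiv : E3 →ₗ[ℝ] E3).image_convexHull (range v)
      have h6 := (AffineEquiv.constVAdd ℝ E3 c : E3 →ᵃ[ℝ] E3).image_convexHull (Λ '' range v)
      have h7 : ((AffineEquiv.constVAdd ℝ E3 c : E3 →ᵃ[ℝ] E3) : E3 → E3) =
          fun x => x + c := by
        funext x
        simp [add_comm]
      rw [h7] at h6
      rw [← h6]
      congr 1
    rw [e, ← e2, image_image]
    rfl
  refine ⟨(fun A => f '' A) '' S, ?_, ?_, ?_, fun i => Λ (a i), ?_, ?_⟩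
  · rintro _ ⟨A, hA, rfl⟩
    obtain ⟨φ, rfl⟩ := h1 A hA
    refine ⟨f.symm.trans (φ.trans f), ?_⟩
    show f '' (φ '' convexHull ℝ (range v)) = _
    rw [hull, image_image, image_image]
    refine image_congr fun x _ => ?_
    simp
  · rw [sUnion_image]
    have h5 := congrArg (fun A => f '' A) h2
    simp only [sUnion_eq_biUnion, image_iUnion₂, image_univ] at h5
    rw [h5]
    exact f.surjective.range_eq
  · rintro _ ⟨A, hA, rfl⟩ _ ⟨B, hB, rfl⟩ hne
    have hAB : A ≠ B := fun e => hne (by rw [e])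
    have := h3 hA hB hAB
    show Disjoint (interior (f '' A)) (interior (f '' B))
    have e : ∀ X : Set E3, interior (f '' X) = f '' interior X := fun X =>
      (f.toHomeomorph.image_interior X).symm
    rw [e, e, Set.disjoint_image_iff f.injective]
    exact this
  · exact ha.map' (Λ.toLinearEquiv : E3 →ₗ[ℝ] E3)
      (LinearMap.ker_eq_bot.2 Λ.toLinearEquiv.injective)
  · rintro i _ ⟨A, hA, rfl⟩
    refine ⟨_, h4 i A hA, ?_⟩
    show f '' _ = _
    rw [image_image, image_image]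
    refine image_congr fun x _ => ?_
    rw [fx, fx, map_add]
    abel

/-- A path with three equal edges and the right diagonals. -/
private lemma path_per (w : Fin 4 → E3) (hw : AffineIndependent ℝ w) (s t r : ℝ)
    (h01 : dist (w 0) (w 1) = s) (h12 : dist (w 1) (w 2) = s) (h23 : dist (w 2) (w 3) = s)
    (h02 : dist (w 0) (w 2) = t) (h13 : dist (w 1) (w 3) = t) (h03 : dist (w 0) (w 3) = r)
    (hr : 3 * t ^ 2 = 3 * s ^ 2 + r ^ 2) : TilesPer w := by
  set u := w 1 - w 0 with hu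
  set v := w 2 - w 1 with hv
  set z := w 3 - w 2 with hz
  have nu : ‖u‖ = s := by rw [hu, ← dist_eq_norm, dist_comm]; exact h01
  have nv : ‖v‖ = s := by rw [hv, ← dist_eq_norm, dist_comm]; exact h12
  have nz : ‖z‖ = s := by rw [hz, ← dist_eq_norm, dist_comm]; exact h23
  have nuv : ‖u + v‖ = t := by
    have : u + v = w 2 - w 0 := by rw [hu, hv]; abel
    rw [this, ← dist_eq_norm, dist_comm]; exact h02
  have nvz : ‖v + z‖ = t := by
    have : v + z = w 3 - w 1 := by rw [hv, hz]; abel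
    rw [this, ← dist_eq_norm, dist_comm]; exact h13
  have nuvz : ‖u + v + z‖ = r := by
    have : u + v + z = w 3 - w 0 := by rw [hu, hv, hz]; abel
    rw [this, ← dist_eq_norm, dist_comm]; exact h03
  have iuv : t ^ 2 = s ^ 2 + 2 * inner ℝ u v + s ^ 2 := by
    rw [← nuv, norm_add_sq_real, nu, nv]
  have ivz : t ^ 2 = s ^ 2 + 2 * inner ℝ v z + s ^ 2 := by
    rw [← nvz, norm_add_sq_real, nv, nz]
  have iuz : r ^ 2 = t ^ 2 + 2 * (inner ℝ u z + inner ℝ v z) + s ^ 2 := by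
    rw [← nuvz, norm_add_sq_real, nuv, nz, inner_add_left]
  have inj := hw.injective
  have s0 : 0 < s := by
    rw [← h01]; exact dist_pos.2 fun h => absurd (inj h) (by decide)
  have r0 : 0 < r := by
    rw [← h03]; exact dist_pos.2 fun h => absurd (inj h) (by decide)
  have t0 : 0 < t := by
    rw [← h02]; exact dist_pos.2 fun h => absurd (inj h) (by decide)
  have st : s < t := by
    have : s ^ 2 < t ^ 2 := by nlinarith
    exact lt_of_pow_lt_pow_left₀ 2 t0.le this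
  have ts : t < 2 * s := by
    have hne : u - v ≠ 0 := by
      intro h0
      rw [affineIndependent_iff_of_fintype] at hw
      have h1 := hw ![1, -2, 1, 0] (by simp [Fin.sum_univ_four]; norm_num) (by
        rw [Finset.univ.weightedVSub_eq_linear_combination
          (by simp [Fin.sum_univ_four]; norm_num), Fin.sum_univ_four]
        have h2 : w 1 - w 0 - (w 2 - w 1) = 0 := h0
        have h3 : (![1, -2, 1, 0] : Fin 4 → ℝ) 0 • w 0 + (![1, -2, 1, 0] : Fin 4 → ℝ) 1 • w 1 +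
            (![1, -2, 1, 0] : Fin 4 → ℝ) 2 • w 2 + (![1, -2, 1, 0] : Fin 4 → ℝ) 3 • w 3 =
            -(w 1 - w 0 - (w 2 - w 1)) := by
          simp only [Matrix.cons_val]
          module
        rw [h3, h2, neg_zero]) 0
      simp at h1
    have h1 : 0 < ‖u - v‖ ^ 2 := by have := norm_pos_iff.2 hne; positivity
    rw [norm_sub_sq_real, nu, nv] at h1
    have : t ^ 2 < (2 * s) ^ 2 := by nlinarith
    exact lt_of_pow_lt_pow_left₀ 2 (by linarith) this
  obtain ⟨a, b, ha, hb, e0, e1⟩ := exists_len s0 st ts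
  have q0 : (a + b) ^ 2 + 2 * b ^ 2 = s ^ 2 := by
    rw [len_0] at e0
    rw [← e0, Real.sq_sqrt (by positivity)]
  have q1 : 2 * (a + 2 * b) ^ 2 + 4 * b ^ 2 = t ^ 2 := by
    rw [len_1] at e1
    rw [← e1, Real.sq_sqrt (by positivity)]
  let L : E3 →ₗ[ℝ] E3 :=
    { toFun := fun x => x 0 • u + x 1 • v + x 2 • z
      map_add' := fun x y => by simp only [PiLp.add_apply]; module
      map_smul' := fun c x => by
        simp only [PiLp.smul_apply, smul_eq_mul, RingHom.id_apply]; module }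
  have hL : ∀ x : E3, L x = x 0 • u + x 1 • v + x 2 • z := fun x => rfl
  have nL : ∀ x : E3, ‖L x‖ = ‖M a b x‖ := by
    intro x
    have h1 : ‖L x‖ ^ 2 = ‖M a b x‖ ^ 2 := by
      have l1 : ‖L x‖ ^ 2 = x 0 ^ 2 * s ^ 2 + x 1 ^ 2 * s ^ 2 + x 2 ^ 2 * s ^ 2 +
          2 * (x 0 * x 1) * inner ℝ u v + 2 * (x 0 * x 2) * inner ℝ u z +
          2 * (x 1 * x 2) * inner ℝ v z := by
        rw [hL, norm_add_sq_real, norm_add_sq_real, norm_smul, norm_smul, norm_smul, nu, nv, nz,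
          inner_add_left]
        simp only [inner_smul_left, inner_smul_right, mul_pow, Real.norm_eq_abs, sq_abs,
          conj_trivial]
        ring
      have l2 : ‖M a b x‖ ^ 2 = (a * x 0 + b * (x 0 + x 1 + x 2)) ^ 2 +
          (a * x 1 + b * (x 0 + x 1 + x 2)) ^ 2 + (a * x 2 + b * (x 0 + x 1 + x 2)) ^ 2 := by
        rw [M_apply, EuclideanSpace.norm_eq, Real.sq_sqrt (by positivity), Fin.sum_univ_three]
        simp
      rw [l1, l2]
      have c1 : inner ℝ u v = t ^ 2 / 2 - s ^ 2 := by linarith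
      have c2 : inner ℝ v z = t ^ 2 / 2 - s ^ 2 := by linarith
      have c3 : inner ℝ u z = t ^ 2 / 2 - s ^ 2 := by linarith
      rw [c1, c2, c3, ← q0, ← q1]
      ring
    exact (pow_left_inj₀ (norm_nonneg _) (norm_nonneg _) two_ne_zero).1 h1
  let Λ₀ : E3 →ₗᵢ[ℝ] E3 :=
    { toLinearMap := L.comp ((ME a b ha hb).symm : E3 →ₗ[ℝ] E3)
      norm_map' := fun x => by
        show ‖L ((ME a b ha hb).symm x)‖ = ‖x‖
        rw [nL, ← ME_apply a b ha hb, LinearEquiv.apply_symm_apply] }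
  let Λ : E3 ≃ₗᵢ[ℝ] E3 := Λ₀.toLinearIsometryEquiv rfl
  have hΛ : ∀ x, Λ (M a b x) = L x := by
    intro x
    show L ((ME a b ha hb).symm (M a b x)) = L x
    rw [← ME_apply a b ha hb, LinearEquiv.symm_apply_apply]
  refine per_image (vert_per ha hb) Λ (w 0) fun i => ?_
  show w i = Λ (M a b (q i)) + w 0
  rw [hΛ, hL]
  fin_cases i
  · simp [q]
  · simp [q, hu]
  · simp [q, hu, hv]
  · simp [q, hu, hv, hz]

private lemma per_comp {v : Fin 4 → E3} {τ : Fin 4 → Fin 4} (hτ : Function.Bijective τ)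
    (h : TilesPer (v ∘ τ)) : TilesPer v := by
  unfold TilesPer at h ⊢
  rwa [hτ.2.range_comp] at h

theorem hill_per (v : Fin 4 → E3) (hv : AffineIndependent ℝ v) (hs : Rot (len v))
    (hH : HillL (len v)) : TilesPer v := by
  have e0 : len v 0 = dist (v 0) (v 1) := rfl
  have e1 : len v 1 = dist (v 0) (v 2) := rfl
  have e2 : len v 2 = dist (v 0) (v 3) := rfl
  have e3 : len v 3 = dist (v 1) (v 2) := rfl
  have e4 : len v 4 = dist (v 1) (v 3) := rfl
  have e5 : len v 5 = dist (v 2) (v 3) := rfl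
  obtain ⟨h14, h23⟩ := hs
  have key : ∀ τ : Fin 4 → Fin 4, Function.Bijective τ → ∀ s t r : ℝ,
      dist (v (τ 0)) (v (τ 1)) = s → dist (v (τ 1)) (v (τ 2)) = s →
      dist (v (τ 2)) (v (τ 3)) = s → dist (v (τ 0)) (v (τ 2)) = t →
      dist (v (τ 1)) (v (τ 3)) = t → dist (v (τ 0)) (v (τ 3)) = r →
      3 * t ^ 2 = 3 * s ^ 2 + r ^ 2 → TilesPer v := by
    intro τ hτ s t r a1 a2 a3 a4 a5 a6 a7
    exact per_comp hτ (path_per (v ∘ τ) (hv.comp_embedding ⟨τ, hτ.1⟩) s t r a1 a2 a3 a4 a5 a6 a7)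
  rcases hH with ⟨h5, h⟩ | ⟨h5, h⟩ | ⟨h0, h⟩ | ⟨h0, h⟩
  · -- path 0, 2, 3, 1
    exact key ![0, 2, 3, 1] (by decide) (len v 1) (len v 2) (len v 0) e1.symm
      (e5.symm.trans h5) ((dist_comm _ _).trans (e4.symm.trans h14.symm)) e2.symm
      ((dist_comm _ _).trans (e3.symm.trans h23.symm)) e0.symm h
  · -- path 0, 3, 2, 1
    exact key ![0, 3, 2, 1] (by decide) (len v 2) (len v 1) (len v 0) e2.symm
      ((dist_comm _ _).trans (e5.symm.trans h5)) ((dist_comm _ _).trans (e3.symm.trans h23.symm))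
      e1.symm ((dist_comm _ _).trans (e4.symm.trans h14.symm)) e0.symm h
  · -- path 2, 0, 1, 3
    exact key ![2, 0, 1, 3] (by decide) (len v 1) (len v 2) (len v 5)
      ((dist_comm _ _).trans e1.symm) (e0.symm.trans h0) (e4.symm.trans h14.symm)
      ((dist_comm _ _).trans (e3.symm.trans h23.symm)) e2.symm e5.symm h
  · -- path 3, 0, 1, 2
    exact key ![3, 0, 1, 2] (by decide) (len v 2) (len v 1) (len v 5)
      ((dist_comm _ _).trans e2.symm) (e0.symm.trans h0) (e3.symm.trans h23.symm)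
      ((dist_comm _ _).trans (e4.symm.trans h14.symm)) e1.symm ((dist_comm _ _).trans e5.symm) h

end Pool.Agent.TetRot
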