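import Mathlib
import Pool.Agent.TetRot.ShapeDefs
import Pool.Agent.TetRot.Ultra
import Pool.Agent.TetRot.UltraN

/-! # Lemma X: the chain `y j - a = y k - b`, `y k - a = y t - b` (helper95) -/

set_option autoImplicit false

open Complex

namespace Pool.Agent.TetRot

theorem lx_sum {M : Type*} [AddCommMonoid M] (f : Fin 4 → M) (j k t : Fin 4) (j0 : j ≠ 0)
    (k0 : k ≠ 0) (t0 : t ≠ 0) (jk : j ≠ k) (jt : j ≠ t) (kt : k ≠ t) :
    ∑ i, f i = f 0 + f j + f k + f t := by
  rw [Fin.sum_univ_four]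
  fin_cases j <;> fin_cases k <;> fin_cases t <;> first | exact absurd rfl ‹_› | skip
  all_goals simp only [Fin.mk_one, Fin.reduceFinMk]
  all_goals abel

theorem lx_cover (j k t : Fin 4) (j0 : j ≠ 0) (k0 : k ≠ 0) (t0 : t ≠ 0) (jk : j ≠ k) (jt : j ≠ t)
    (kt : k ≠ t) (i : Fin 4) : i = 0 ∨ i = j ∨ i = k ∨ i = t := by
  omega

/-- all coordinates in terms of `A = a - y 0` and `u = y j - a` -/
theorem lx_coord {a b : ℝ} {y : Fin 4 → ℝ} (h : Nrm a b y)
    (j k t : Fin 4) (j0 : j ≠ 0) (k0 : k ≠ 0) (t0 : t ≠ 0) (jk : j ≠ k) (jt : j ≠ t) (kt : k ≠ t)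
    (h1 : y j - a = y k - b) (h2 : y k - a = y t - b) :
    y k - a = (a - y 0) - 2 * (y j - a) ∧ y t - a = 2 * (a - y 0) - 5 * (y j - a) ∧
    y 0 - b = 3 * (y j - a) - 2 * (a - y 0) ∧ y j - b = 4 * (y j - a) - (a - y 0) ∧
    y k - b = y j - a ∧ y t - b = (a - y 0) - 2 * (y j - a) := by
  have hs : 2 * a + 2 * b = y 0 + y j + y k + y t := by
    rw [← lx_sum y j k t j0 k0 t0 jk jt kt, Fin.sum_univ_four]
    exact h.sum
  refine ⟨?_, ?_, ?_, ?_, ?_, ?_⟩ <;> linarith

/-- value of a combination -/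
theorem lx_comb (p : Place) (x u : ℂ) (hx : x ≠ 0) (hu : u ≠ 0) (hlt : p.v u < p.v x) (r s : ℚ)
    (hs : s ≠ 0) : p.v ((r : ℂ) * x + (s : ℂ) * u) = p.v u := by
  by_cases hr : r = 0
  · rw [hr, Rat.cast_zero, zero_mul, zero_add, p.rat_mul s hs u hu]
  · have h := (p.add_lt ((s : ℂ) * u) ((r : ℂ) * x) (mul_ne_zero (Rat.cast_ne_zero.2 hs) hu)
      (mul_ne_zero (Rat.cast_ne_zero.2 hr) hx)
      (by rw [p.rat_mul s hs u hu, p.rat_mul r hr x hx]; exact hlt)).2
    rw [add_comm, h, p.rat_mul s hs u hu]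

theorem lemX_core (p : Place) {a b : ℝ} {y : Fin 4 → ℝ} (h : Nrm a b y)
    (hL : (∃ j k, TyI p a b y j k) ∨ (∃ j k, TyI p.conj a b y j k) ∨ Star p a b y)
    (j k t : Fin 4) (j0 : j ≠ 0) (k0 : k ≠ 0) (t0 : t ≠ 0) (jk : j ≠ k) (jt : j ≠ t) (kt : k ≠ t)
    (h1 : y j - a = y k - b) (h2 : y k - a = y t - b)
    (hv : p.v ((y j : ℂ) - a) < p.v ((a : ℂ) - y 0)) : False := by
  obtain ⟨eka, eta, e0b, ejb, ekb, etb⟩ := lx_coord h j k t j0 k0 t0 jk jt kt h1 h2
  have hA : ((a : ℂ) - y 0) ≠ 0 := by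
    rw [← ofReal_sub, Ne, ofReal_eq_zero]
    exact (sub_pos.2 h.a0).ne'
  have hu : ((y j : ℂ) - a) ≠ 0 := by
    rw [← ofReal_sub, Ne, ofReal_eq_zero]
    exact (sub_pos.2 (h.ak j j0)).ne'
  have key : ∀ (g g' : ℝ) (r s : ℚ), s ≠ 0 → g - g' = r * (a - y 0) + s * (y j - a) →
      p.v ((g : ℂ) - g') = p.v ((y j : ℂ) - a) := by
    intro g g' r s hs e
    have e' : (g : ℂ) - g' = (r : ℂ) * ((a : ℂ) - y 0) + (s : ℂ) * ((y j : ℂ) - a) := by
      have := congrArg (fun z : ℝ => (z : ℂ)) e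
      push_cast at this
      exact this
    rw [e']
    exact lx_comb p _ _ hA hu hv r s hs
  have vka := key (y k) a 1 (-2) (by norm_num) (by rw [eka]; push_cast; ring)
  have vta := key (y t) a 2 (-5) (by norm_num) (by rw [eta]; push_cast; ring)
  have v0b := key (y 0) b (-2) 3 (by norm_num) (by rw [e0b]; push_cast; ring)
  have vjb := key (y j) b (-1) 4 (by norm_num) (by rw [ejb]; push_cast; ring)
  have vkb := key (y k) b 0 1 (by norm_num) (by rw [ekb]; push_cast; ring)
  have vtb := key (y t) b 1 (-2) (by norm_num) (by rw [etb]; push_cast; ring)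
  have v0a : p.v ((y 0 : ℂ) - a) = p.v ((a : ℂ) - y 0) := by
    rw [← neg_sub (a : ℂ) (y 0 : ℂ), p.neg]
  rw [← v0a] at hv
  set al := p.v ((y 0 : ℂ) - a) with hal
  set mu := p.v ((y j : ℂ) - a) with hmu
  -- the two type I cases
  have tyI : ∀ q : Place, (∀ g g' : ℝ, q.v ((g : ℂ) - g') = p.v ((g : ℂ) - g')) →
      ∀ j' k', ¬ TyI q a b y j' k' := by
    intro q hq j' k' hT
    have c0 : al = 0 := by
      have := hT.oa 0 (Ne.symm hT.j0)
      rw [hq] at this
      exact this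
    by_cases hj : j = j'
    · have := hT.oa k (fun hk => jk (hj.trans hk.symm))
      rw [hq, vka] at this
      linarith
    · have := hT.oa j hj
      rw [hq] at this
      have h3 : mu = 0 := this
      linarith
  rcases hL with ⟨j', k', hT⟩ | ⟨j', k', hT⟩ | hS
  · exact tyI p (fun _ _ => rfl) j' k' hT
  · refine tyI p.conj (fun g g' => ?_) j' k' hT
    rw [← ofReal_sub, v_conj_real]
  · have ra := row_a p h
    rw [lx_sum _ j k t j0 k0 t0 jk jt kt, vka, vta] at ra
    have rb := row_b p h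
    rw [lx_sum _ j k t j0 k0 t0 jk jt kt, v0b, vjb, vkb, vtb] at rb
    have c0 := col p h 0
    have cj := col p h j
    rw [v0b] at c0
    rw [vjb] at cj
    have st := (hS j).1
    have n0 : y 0 ≠ a := h.a0.ne
    have nj : y j ≠ a := (h.ak j j0).ne'
    have p0 := sub_p_eq p (y 0) a
    have m0 := sub_m_eq p (y 0) a
    have pj := sub_p_eq p (y j) a
    have mj := sub_m_eq p (y j) a
    have pj' := sub_p p (y j) a nj
    have mj' := sub_m p (y j) a nj
    rw [← hal] at ra c0 p0 m0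
    rw [← hmu] at cj pj mj pj' mj' st
    rcases trich p a with ⟨a1, a2⟩ | ⟨a1, a2⟩ | ⟨a1, a2⟩
    · -- `a` of type N
      have hyj : vp p (y j) = vm p (y j) := by
        rcases trich p (y j) with ⟨b1, _⟩ | ⟨b1, b2⟩ | ⟨b1, b2⟩
        · exact b1
        · exfalso; linarith
        · exfalso; linarith
      have hlt : vp p (y j) < vp p a := by linarith
      have e1 := pj hlt.ne
      rw [min_eq_left hlt.le] at e1
      have e2 : al = vp p a := by
        rcases trich p (y 0) with ⟨b1, _⟩ | ⟨b1, b2⟩ | ⟨b1, b2⟩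
        · have hlt' : vp p a < vp p (y 0) := by linarith
          have e := p0 hlt'.ne'
          rwa [min_eq_right hlt'.le] at e
        · have hlt' : vp p a < vp p (y 0) := by linarith
          have e := p0 hlt'.ne'
          rwa [min_eq_right hlt'.le] at e
        · have hlt' : vm p a < vm p (y 0) := by linarith
          have e := m0 hlt'.ne'
          rw [min_eq_right hlt'.le, ← a1] at e
          exact e
      linarith
    · -- `a` at `i`
      rcases trich p (y 0) with ⟨b1, b2⟩ | ⟨b1, b2⟩ | ⟨b1, b2⟩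
      · linarith
      · have hlt : vp p a < vp p (y 0) := by linarith
        have e := p0 hlt.ne'
        rw [min_eq_right hlt.le] at e
        linarith
      · have hlt : vp p (y 0) < vp p a := by linarith
        have e := p0 hlt.ne
        rw [min_eq_left hlt.le, b1] at e
        rcases trich p (y j) with ⟨d1, d2⟩ | ⟨d1, d2⟩ | ⟨d1, d2⟩
        · have hlt' : vp p (y j) < vp p a := by linarith
          have e' := pj hlt'.ne
          rw [min_eq_left hlt'.le] at e'
          linarith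
        · have := lt_min d1 a1
          linarith
        · have hlt' : vp p (y j) < vp p a := by linarith
          have e' := pj hlt'.ne
          rw [min_eq_left hlt'.le] at e'
          linarith
    · -- `a` at `-i`
      rcases trich p (y 0) with ⟨b1, b2⟩ | ⟨b1, b2⟩ | ⟨b1, b2⟩
      · linarith
      · have hlt : vm p (y 0) < vm p a := by linarith
        have e := m0 hlt.ne
        rw [min_eq_left hlt.le, b2] at e
        rcases trich p (y j) with ⟨d1, d2⟩ | ⟨d1, d2⟩ | ⟨d1, d2⟩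
        · have hlt' : vm p (y j) < vm p a := by linarith
          have e' := mj hlt'.ne
          rw [min_eq_left hlt'.le] at e'
          linarith
        · have hlt' : vm p (y j) < vm p a := by linarith
          have e' := mj hlt'.ne
          rw [min_eq_left hlt'.le] at e'
          linarith
        · have := lt_min d2 a2
          linarith
      · have hlt : vm p a < vm p (y 0) := by linarith
        have e := m0 hlt.ne'
        rw [min_eq_right hlt.le] at e
        linarith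

/-- if the ratio `u / A` is algebraic then the shape is -/
theorem lx_alg {a b : ℝ} {y : Fin 4 → ℝ} (h : Nrm a b y)
    (j k t : Fin 4) (j0 : j ≠ 0) (k0 : k ≠ 0) (t0 : t ≠ 0) (jk : j ≠ k) (jt : j ≠ t) (kt : k ≠ t)
    (h1 : y j - a = y k - b) (h2 : y k - a = y t - b)
    (hf : IsAlgebraic ℚ ((y j - a) / (a - y 0))) : Alg a b y := by
  obtain ⟨eka, eta, e0b, ejb, ekb, etb⟩ := lx_coord h j k t j0 k0 t0 jk jt kt h1 h2
  have hA : a - y 0 ≠ 0 := (sub_pos.2 h.a0).ne'
  have hA' : y 0 - a ≠ 0 := sub_ne_zero.2 h.a0.ne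
  have key : ∀ (g : ℝ) (r s : ℚ), g = r * (a - y 0) + s * (y j - a) →
      IsAlgebraic ℚ (g / (y 0 - a)) := by
    intro g r s e
    have e' : g / (y 0 - a) = algebraMap ℚ ℝ (-r) + algebraMap ℚ ℝ (-s) * ((y j - a) / (a - y 0)) := by
      rw [e]
      simp only [eq_ratCast]
      push_cast
      field_simp
      ring
    rw [e']
    exact (isAlgebraic_algebraMap _).add ((isAlgebraic_algebraMap _).mul hf)
  intro i
  rcases lx_cover j k t j0 k0 t0 jk jt kt i with rfl | rfl | rfl | rfl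
  · exact ⟨key _ (-1) 0 (by push_cast; ring), key _ (-2) 3 (by rw [e0b]; push_cast; ring)⟩
  · exact ⟨key _ 0 1 (by push_cast; ring), key _ (-1) 4 (by rw [ejb]; push_cast; ring)⟩
  · exact ⟨key _ 1 (-2) (by rw [eka]; push_cast; ring), key _ 0 1 (by rw [ekb]; push_cast; ring)⟩
  · exact ⟨key _ 2 (-5) (by rw [eta]; push_cast; ring), key _ 1 (-2) (by rw [etb]; push_cast; ring)⟩

/-- Lemma X with the two inputs as hypotheses -/
theorem lemX_of {a b : ℝ} {y : Fin 4 → ℝ} (h : Nrm a b y) (hna : ¬ Alg a b y)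
    (hV : ∀ f : ℂ, ¬ IsAlgebraic ℚ f → ∃ p : Place, p.v f < 0)
    (hL : ∀ p : Place, (∃ j k, TyI p a b y j k) ∨ (∃ j k, TyI p.conj a b y j k) ∨ Star p a b y)
    (j k t : Fin 4) (j0 : j ≠ 0) (k0 : k ≠ 0) (t0 : t ≠ 0) (jk : j ≠ k) (jt : j ≠ t) (kt : k ≠ t)
    (h1 : y j - a = y k - b) (h2 : y k - a = y t - b) : False := by
  have hA : ((a : ℂ) - y 0) ≠ 0 := by
    rw [← ofReal_sub, Ne, ofReal_eq_zero]
    exact (sub_pos.2 h.a0).ne'
  have hu : ((y j : ℂ) - a) ≠ 0 := by
    rw [← ofReal_sub, Ne, ofReal_eq_zero]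
    exact (sub_pos.2 (h.ak j j0)).ne'
  have hf : ¬ IsAlgebraic ℚ (((y j : ℂ) - a) / ((a : ℂ) - y 0)) := by
    intro hf
    refine hna (lx_alg h j k t j0 k0 t0 jk jt kt h1 h2 ?_)
    have e : ((y j : ℂ) - a) / ((a : ℂ) - y 0) = algebraMap ℝ ℂ ((y j - a) / (a - y 0)) := by
      rw [Complex.coe_algebraMap]
      push_cast
      rfl
    rw [e] at hf
    exact (isAlgebraic_algebraMap_iff (algebraMap ℝ ℂ).injective).1 hf
  obtain ⟨p, hp⟩ := hV _ hf
  rw [p.div _ _ hu hA] at hp
  exact lemX_core p h (hL p) j k t j0 k0 t0 jk jt kt h1 h2 (by linarith)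

end Pool.Agent.TetRot
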