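import Pool.Agent.TetRot.Resid

/-! # Places where `a` and `b` are away from `i` and `-i` -/

set_option autoImplicit false

open Complex

namespace Pool.Agent.TetRot

/-- `x` is zero or has value larger than `m`. -/
def BigV (p : Place) (m : ℚ) (x : ℂ) : Prop := x = 0 ∨ m < p.v x

theorem BigV.add {p : Place} {m : ℚ} {x z : ℂ} (hx : BigV p m x) (hz : BigV p m z) :
    BigV p m (x + z) := by
  rcases hx with rfl | hx
  · rwa [zero_add]
  rcases hz with rfl | hz
  · rw [add_zero]
    exact Or.inr hx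
  by_cases hxz : x + z = 0
  · exact Or.inl hxz
  by_cases hx0 : x = 0
  · subst hx0
    rw [zero_add]
    exact Or.inr hz
  by_cases hz0 : z = 0
  · subst hz0
    rw [add_zero]
    exact Or.inr hx
  exact Or.inr (lt_of_lt_of_le (lt_min hx hz) (p.add x z hx0 hz0 hxz))

theorem BigV.neg {p : Place} {m : ℚ} {x : ℂ} (hx : BigV p m x) : BigV p m (-x) := by
  rcases hx with rfl | hx
  · rw [neg_zero]
    exact Or.inl rfl
  · exact Or.inr (by rwa [Place.neg])

/-- If one of the `y` has a pole larger than allowed, another one has the same. -/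
theorem exists_other (p : Place) {a b : ℝ} {y : Fin 4 → ℝ} (h : Nrm a b y) (j : Fin 4)
    (ha : vp p (y j) < vp p a) (hb : vp p (y j) < vp p b) :
    ∃ k, k ≠ j ∧ vp p (y k) ≤ vp p (y j) := by
  by_contra hcon
  push Not at hcon
  have hsum : ((y 0 : ℂ) - I) + ((y 1 : ℂ) - I) + ((y 2 : ℂ) - I) + ((y 3 : ℂ) - I) =
      (((a : ℂ) - I) + ((a : ℂ) - I)) + (((b : ℂ) - I) + ((b : ℂ) - I)) := by
    have h1 : (2 * (a : ℂ) + 2 * b) = y 0 + y 1 + y 2 + y 3 := by exact_mod_cast h.sum
    linear_combination -h1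
  have hA : BigV p (vp p (y j)) ((a : ℂ) - I) := Or.inr ha
  have hB : BigV p (vp p (y j)) ((b : ℂ) - I) := Or.inr hb
  have hY : ∀ k, k ≠ j → BigV p (vp p (y j)) ((y k : ℂ) - I) := fun k hk => Or.inr (hcon k hk)
  have key : BigV p (vp p (y j)) ((y j : ℂ) - I) := by
    fin_cases j
    · have e : ((y 0 : ℂ) - I) = (((a : ℂ) - I) + ((a : ℂ) - I)) + (((b : ℂ) - I) + ((b : ℂ) - I))
          + (-((y 1 : ℂ) - I) + (-((y 2 : ℂ) - I) + -((y 3 : ℂ) - I))) := by
        rw [← hsum]; ring
      have g := ((hA.add hA).add (hB.add hB)).add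
        ((hY 1 (by decide)).neg.add ((hY 2 (by decide)).neg.add (hY 3 (by decide)).neg))
      rw [← e] at g
      exact g
    · have e : ((y 1 : ℂ) - I) = (((a : ℂ) - I) + ((a : ℂ) - I)) + (((b : ℂ) - I) + ((b : ℂ) - I))
          + (-((y 0 : ℂ) - I) + (-((y 2 : ℂ) - I) + -((y 3 : ℂ) - I))) := by
        rw [← hsum]; ring
      have g := ((hA.add hA).add (hB.add hB)).add
        ((hY 0 (by decide)).neg.add ((hY 2 (by decide)).neg.add (hY 3 (by decide)).neg))
      rw [← e] at g
      exact g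
    · have e : ((y 2 : ℂ) - I) = (((a : ℂ) - I) + ((a : ℂ) - I)) + (((b : ℂ) - I) + ((b : ℂ) - I))
          + (-((y 0 : ℂ) - I) + (-((y 1 : ℂ) - I) + -((y 3 : ℂ) - I))) := by
        rw [← hsum]; ring
      have g := ((hA.add hA).add (hB.add hB)).add
        ((hY 0 (by decide)).neg.add ((hY 1 (by decide)).neg.add (hY 3 (by decide)).neg))
      rw [← e] at g
      exact g
    · have e : ((y 3 : ℂ) - I) = (((a : ℂ) - I) + ((a : ℂ) - I)) + (((b : ℂ) - I) + ((b : ℂ) - I))
          + (-((y 0 : ℂ) - I) + (-((y 1 : ℂ) - I) + -((y 2 : ℂ) - I))) := by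
        rw [← hsum]; ring
      have g := ((hA.add hA).add (hB.add hB)).add
        ((hY 0 (by decide)).neg.add ((hY 1 (by decide)).neg.add (hY 2 (by decide)).neg))
      rw [← e] at g
      exact g
  rcases key with h0 | h0
  · exact ne_p _ h0
  · exact absurd h0 (lt_irrefl _)

theorem local_NN (p : Place) {a b : ℝ} {y : Fin 4 → ℝ} (h : Nrm a b y) (hR : Rel p a b y)
    (ha : vp p a = vm p a) (hb : vp p b = vm p b) : Star p a b y := by
  have ha0 : vp p a ≤ 0 := by
    rcases trich p a with h1 | h1 | h1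
    · exact h1.2
    · rw [ha, h1.2] at h1
      exact absurd h1.1 (lt_irrefl _)
    · rw [← ha, h1.1] at h1
      exact absurd h1.2 (lt_irrefl _)
  have hb0 : vp p b ≤ 0 := by
    rcases trich p b with h1 | h1 | h1
    · exact h1.2
    · rw [hb, h1.2] at h1
      exact absurd h1.1 (lt_irrefl _)
    · rw [← hb, h1.1] at h1
      exact absurd h1.2 (lt_irrefl _)
  obtain ⟨r1, r2, -⟩ := residue p h hR
  have hy0 : ∀ j, vp p (y j) ≤ 0 := by
    rw [max_eq_right ha0, max_eq_right hb0] at r1
    have h1 : ∑ j, max (vp p (y j)) 0 = 0 := by rw [← r1]; ring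
    rw [Finset.sum_eq_zero_iff_of_nonneg fun j _ => le_max_right _ _] at h1
    intro j
    have h2 := h1 j (Finset.mem_univ _)
    exact (le_max_left _ _).trans h2.le
  have hw := wt_p p h
  have hylow : ∀ j, vp p a + vp p b ≤ vp p (y j) := by
    intro j
    by_contra hcon
    push Not at hcon
    obtain ⟨k, hkj, hk⟩ := exists_other p h j (by linarith) (by linarith)
    have h1 : ∑ i, vp p (y i) ≤ vp p (y j) + vp p (y k) := by
      have h2 : ∑ i ∈ ({j, k} : Finset (Fin 4)), vp p (y i) = vp p (y j) + vp p (y k) :=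
        Finset.sum_pair hkj.symm
      have h3 := Finset.sum_add_sum_compl ({j, k} : Finset (Fin 4)) fun i => vp p (y i)
      have h4 : ∑ i ∈ ({j, k} : Finset (Fin 4))ᶜ, vp p (y i) ≤ 0 :=
        Finset.sum_nonpos fun i _ => hy0 i
      linarith
    linarith
  intro t
  have ht1 : y t ≠ a := by
    by_cases ht : t = 0
    · subst ht; exact h.a0.ne
    · exact (h.ak t ht).ne'
  have ht2 : y t ≠ b := by
    by_cases ht : t = 0
    · subst ht; exact h.b0.ne
    · exact (h.bk t ht).ne'
  have h1 := sub_p p (y t) a ht1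
  have h2 := sub_p p (y t) b ht2
  have h3 := hylow t
  have h4 : vp p a + vp p b ≤ min (vp p (y t)) (vp p a) := le_min h3 (by linarith)
  have h5 : vp p a + vp p b ≤ min (vp p (y t)) (vp p b) := le_min h3 (by linarith)
  constructor
  · linarith
  · linarith

end Pool.Agent.TetRot
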