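import Mathlib
import Pool.Agent.TetRot.Defs
import Pool.Agent.TetRot.Ultra
import Pool.Agent.TetRot.UltraN

/-! # The residue of the relation (helper34) -/

set_option autoImplicit false

open Complex

namespace Pool.Agent.TetRot

namespace Resid

/-- The maximal ideal of a place. -/
def Small (p : Place) (x : ℂ) : Prop := x = 0 ∨ 0 < p.v x

theorem Small.add {p : Place} {x y : ℂ} (hx : Small p x) (hy : Small p y) : Small p (x + y) := by
  rcases hx with rfl | hx
  · rwa [zero_add]
  · rcases hy with rfl | hy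
    · rw [add_zero]; exact Or.inr hx
    · by_cases h0 : x + y = 0
      · exact Or.inl h0
      · by_cases x0 : x = 0
        · rw [x0, zero_add]; exact Or.inr hy
        · by_cases y0 : y = 0
          · rw [y0, add_zero]; exact Or.inr hx
          · exact Or.inr (lt_of_lt_of_le (lt_min hx hy) (p.add x y x0 y0 h0))

theorem Small.neg {p : Place} {x : ℂ} (hx : Small p x) : Small p (-x) := by
  rcases hx with rfl | hx
  · exact Or.inl neg_zero
  · exact Or.inr (by rw [p.neg]; exact hx)

theorem Small.sub {p : Place} {x y : ℂ} (hx : Small p x) (hy : Small p y) : Small p (x - y) := by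
  rw [sub_eq_add_neg]
  exact hx.add hy.neg

theorem Small.rat {p : Place} {x : ℂ} (hx : Small p x) (q : ℚ) : Small p ((q : ℂ) * x) := by
  by_cases hq : q = 0
  · exact Or.inl (by rw [hq]; simp)
  · by_cases x0 : x = 0
    · exact Or.inl (by rw [x0, mul_zero])
    · rcases hx with rfl | hx
      · exact absurd rfl x0
      · exact Or.inr (by rw [p.rat_mul q hq x x0]; exact hx)

theorem small_sum {p : Place} {f : Fin 4 → ℂ} (hf : ∀ j, Small p (f j)) : Small p (∑ j, f j) := by
  rw [Fin.sum_univ_four]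
  exact (((hf 0).add (hf 1)).add (hf 2)).add (hf 3)

/-- The small part of a coordinate. -/
noncomputable def sm (p : Place) (g : ℝ) : ℂ :=
  ((max (vp p g) 0 : ℚ) : ℂ) * ((g : ℂ) - I) - ((max (vm p g) 0 : ℚ) : ℂ) * ((g : ℂ) + I)

theorem small_sm (p : Place) (g : ℝ) : Small p (sm p g) := by
  refine Small.sub ?_ ?_
  · rcases le_or_gt (vp p g) 0 with h | h
    · exact Or.inl (by rw [max_eq_right h]; simp)
    · exact Small.rat (Or.inr h) _
  · rcases le_or_gt (vm p g) 0 with h | h
    · exact Or.inl (by rw [max_eq_right h]; simp)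
    · exact Small.rat (Or.inr h) _

theorem uu_eq (p : Place) (g : ℝ) : uu p g = max (vp p g) 0 - max (vm p g) 0 := by
  unfold uu
  rcases trich p g with h | h | h
  · rw [← h.1, max_eq_right h.2, sub_self, sub_self]
  · rw [h.2, max_eq_left h.1.le, max_self]
  · rw [h.1, max_eq_left h.2.le, max_self]

theorem uu_mul (p : Place) (g : ℝ) : ((uu p g : ℚ) : ℂ) * (g : ℂ) =
    sm p g + ((max (vp p g) 0 + max (vm p g) 0 : ℚ) : ℂ) * I := by
  rw [uu_eq]
  unfold sm
  push_cast
  ring

end Resid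

open Resid

/-- Residue of the relation: the values at `i` and at `-i` are balanced separately and the poles
are balanced. -/
theorem residue (p : Place) {a b : ℝ} {y : Fin 4 → ℝ} (h : Nrm a b y) (hR : Rel p a b y) :
    2 * max (vp p a) 0 + 2 * max (vp p b) 0 = ∑ j, max (vp p (y j)) 0 ∧
    2 * max (vm p a) 0 + 2 * max (vm p b) 0 = ∑ j, max (vm p (y j)) 0 ∧
    2 * min (vp p a) 0 + 2 * min (vp p b) 0 = ∑ j, min (vp p (y j)) 0 := by
  have h1 : (2 : ℂ) * (((uu p a : ℚ) : ℂ) * (a : ℂ)) + 2 * (((uu p b : ℚ) : ℂ) * (b : ℂ)) =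
      ∑ j, ((uu p (y j) : ℚ) : ℂ) * (y j : ℂ) := by
    have h2 := congrArg (fun t : ℝ => (t : ℂ)) hR
    push_cast at h2
    rw [← h2]
    ring
  simp only [uu_mul] at h1
  rw [Finset.sum_add_distrib, ← Finset.sum_mul] at h1
  have h2 : ((2 * (max (vp p a) 0 + max (vm p a) 0) + 2 * (max (vp p b) 0 + max (vm p b) 0) -
      ∑ j, (max (vp p (y j)) 0 + max (vm p (y j)) 0) : ℚ) : ℂ) * I =
      (∑ j, sm p (y j)) - (((2 : ℚ) : ℂ) * sm p a + ((2 : ℚ) : ℂ) * sm p b) := by
    push_cast at h1 ⊢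
    linear_combination h1
  have h3 : Small p (((2 * (max (vp p a) 0 + max (vm p a) 0) + 2 * (max (vp p b) 0 +
      max (vm p b) 0) - ∑ j, (max (vp p (y j)) 0 + max (vm p (y j)) 0) : ℚ) : ℂ) * I) := by
    rw [h2]
    exact (small_sum fun j => small_sm p (y j)).sub
      (((small_sm p a).rat 2).add ((small_sm p b).rat 2))
  have h4 : 2 * (max (vp p a) 0 + max (vm p a) 0) + 2 * (max (vp p b) 0 + max (vm p b) 0) -
      ∑ j, (max (vp p (y j)) 0 + max (vm p (y j)) 0) = 0 := by
    by_contra hne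
    rcases h3 with h5 | h5
    · exact (mul_ne_zero (Rat.cast_ne_zero.2 hne) I_ne_zero) h5
    · rw [p.rat_mul _ hne I I_ne_zero, p.vI] at h5
      exact lt_irrefl _ h5
  have w1 := wt_p p h
  have w2 := wt_m p h
  have ea := uu_eq p a
  have eb := uu_eq p b
  have e0 := uu_eq p (y 0)
  have e1 := uu_eq p (y 1)
  have e2 := uu_eq p (y 2)
  have e3 := uu_eq p (y 3)
  have m : ∀ x : ℚ, min x 0 = x - max x 0 := fun x => by
    rw [eq_sub_iff_add_eq, min_add_max, add_zero]
  simp only [Fin.sum_univ_four, m] at w1 w2 h4 ⊢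
  unfold uu at ea eb e0 e1 e2 e3
  refine ⟨?_, ?_, ?_⟩ <;> linarith

end Pool.Agent.TetRot
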