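import Mathlib
import Pool.Agent.TetRot.Defs
import Pool.Agent.TetRot.Ultra
import Pool.Agent.TetRot.UltraN
import Pool.Agent.TetRot.Resid

/-! # Places where `a` is near `i` and `b` is near `-i` (helper34) -/

set_option autoImplicit false

open Complex

namespace Pool.Agent.TetRot

namespace LocalPM

/-- The common data: numbers of type P and M. -/
theorem data (p : Place) {a b : ℝ} {y : Fin 4 → ℝ} (h : Nrm a b y) (hR : Rel p a b y)
    (ha : 0 < vp p a) (hb : 0 < vm p b) :
    vm p a = 0 ∧ vp p b = 0 ∧ (∑ j, vp p (y j) = 2 * vp p a) ∧ (∑ j, vm p (y j) = 2 * vm p b) ∧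
    ∀ j, (0 < vp p (y j) ∧ vm p (y j) = 0 ∧ p.v ((y j : ℂ) - b) = 0 ∧
        2 * p.v ((y j : ℂ) - a) = p.v (C2 a b y : ℂ) + vp p (y j)) ∨
      (vp p (y j) = 0 ∧ 0 < vm p (y j) ∧ p.v ((y j : ℂ) - a) = 0 ∧
        2 * p.v ((y j : ℂ) - b) = p.v (C2 a b y : ℂ) + vm p (y j)) ∨
      (vp p (y j) = 0 ∧ vm p (y j) = 0 ∧ p.v ((y j : ℂ) - a) = 0 ∧ p.v ((y j : ℂ) - b) = 0 ∧
        p.v (C2 a b y : ℂ) = 0) := by
  have ha0 : vm p a = 0 := by
    rcases trich p a with h1 | h1 | h1
    · linarith [h1.2]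
    · exact h1.2
    · linarith [h1.1]
  have hb0 : vp p b = 0 := by
    rcases trich p b with h1 | h1 | h1
    · linarith [h1.1, h1.2]
    · linarith [h1.2]
    · exact h1.1
  obtain ⟨r1, r2, r3⟩ := residue p h hR
  rw [hb0, max_eq_left ha.le, max_self] at r1
  rw [ha0, max_eq_left hb.le, max_self] at r2
  rw [hb0, min_eq_right ha.le, min_self] at r3
  have hmin : ∀ j, 0 ≤ vp p (y j) := by
    intro j
    have h0 : ∑ j, min (vp p (y j)) 0 = 0 := by rw [← r3]; ring
    have h1 := (Finset.sum_eq_zero_iff_of_nonpos (fun i _ => min_le_right (vp p (y i)) 0)).1 h0 j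
      (Finset.mem_univ _)
    exact min_eq_right_iff.1 h1
  have hminm : ∀ j, 0 ≤ vm p (y j) := by
    intro j
    rcases trich p (y j) with h1 | h1 | h1
    · rw [← h1.1]; exact hmin j
    · exact h1.2.ge
    · exact h1.2.le
  refine ⟨ha0, hb0, ?_, ?_, ?_⟩
  · rw [Finset.sum_congr rfl (fun j _ => (max_eq_left (hmin j)).symm), ← r1]
    ring
  · rw [Finset.sum_congr rfl (fun j _ => (max_eq_left (hminm j)).symm), ← r2]
    ring
  · intro j
    have hja : y j ≠ a := by
      by_cases hj : j = 0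
      · rw [hj]; exact h.a0.ne
      · exact (h.ak j hj).ne'
    have hjb : y j ≠ b := by
      by_cases hj : j = 0
      · rw [hj]; exact h.b0.ne
      · exact (h.bk j hj).ne'
    have hc := col p h j
    rcases trich p (y j) with h1 | h1 | h1
    · have e1 : vp p (y j) = 0 := le_antisymm h1.2 (hmin j)
      have e2 : vm p (y j) = 0 := by rw [← h1.1]; exact e1
      have e3 : p.v ((y j : ℂ) - a) = 0 := by
        rw [sub_p_eq p (y j) a (by rw [e1]; exact ha.ne), e1, min_eq_left ha.le]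
      have e4 : p.v ((y j : ℂ) - b) = 0 := by
        rw [sub_m_eq p (y j) b (by rw [e2]; exact hb.ne), e2, min_eq_left hb.le]
      exact Or.inr (Or.inr ⟨e1, e2, e3, e4, by rw [e1, e2, e3, e4] at hc; linarith⟩)
    · have e4 : p.v ((y j : ℂ) - b) = 0 := by
        rw [sub_p_eq p (y j) b (by rw [hb0]; exact h1.1.ne'), hb0, min_eq_right h1.1.le]
      exact Or.inl ⟨h1.1, h1.2, e4, by rw [e4, h1.2] at hc; linarith⟩
    · have e3 : p.v ((y j : ℂ) - a) = 0 := by
        rw [sub_m_eq p (y j) a (by rw [ha0]; exact h1.2.ne'), ha0, min_eq_right h1.2.le]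
      exact Or.inr (Or.inl ⟨h1.1, h1.2, e3, by rw [e3, h1.1] at hc; linarith⟩)

/-- The case of two coordinates near `i` and two near `-i`, the last two ordered. -/
theorem core_lt (p : Place) {a b : ℝ} {y : Fin 4 → ℝ} (h : Nrm a b y) (hR : Rel p a b y)
    (ha : 0 < vp p a) (hb : 0 < vm p b) (k l m : Fin 4) (hk0 : k ≠ 0) (hl0 : l ≠ 0) (hm0 : m ≠ 0)
    (hQ : ∀ f : Fin 4 → ℚ, ∑ t, f t = f 0 + f k + f l + f m)
    (hS : ∀ f : Fin 4 → ℝ, ∑ t, f t = f 0 + f k + f l + f m)
    (h0 : 0 < vp p (y 0)) (hk : 0 < vp p (y k)) (hl : 0 < vm p (y l)) (hm : 0 < vm p (y m))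
    (hle : vm p (y l) ≤ vm p (y m)) : False := by
  obtain ⟨ha0, hb0, s1, s2, hd⟩ := data p h hR ha hb
  have d0 : vm p (y 0) = 0 ∧ 2 * p.v ((y 0 : ℂ) - a) = p.v (C2 a b y : ℂ) + vp p (y 0) := by
    rcases hd 0 with h1 | h1 | h1
    · exact ⟨h1.2.1, h1.2.2.2⟩
    · linarith [h1.1]
    · linarith [h1.1]
  have dk : vm p (y k) = 0 ∧ 2 * p.v ((y k : ℂ) - a) = p.v (C2 a b y : ℂ) + vp p (y k) := by
    rcases hd k with h1 | h1 | h1
    · exact ⟨h1.2.1, h1.2.2.2⟩
    · linarith [h1.1]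
    · linarith [h1.1]
  have dl : vp p (y l) = 0 ∧ 2 * p.v ((y l : ℂ) - b) = p.v (C2 a b y : ℂ) + vm p (y l) := by
    rcases hd l with h1 | h1 | h1
    · linarith [h1.2.1]
    · exact ⟨h1.1, h1.2.2.2⟩
    · linarith [h1.2.1]
  have dm : vp p (y m) = 0 ∧ 2 * p.v ((y m : ℂ) - b) = p.v (C2 a b y : ℂ) + vm p (y m) := by
    rcases hd m with h1 | h1 | h1
    · linarith [h1.2.1]
    · exact ⟨h1.1, h1.2.2.2⟩
    · linarith [h1.2.1]
  rw [hQ, dl.1, dm.1] at s1
  rw [hQ, d0.1, dk.1] at s2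
  have hsum : 2 * a + 2 * b = y 0 + y k + y l + y m := by
    have h1 := h.sum
    have h2 := hS y
    rw [Fin.sum_univ_four] at h2
    rw [h1, h2]
  -- the four gaps
  have t0 : 0 < a - y 0 := sub_pos.2 h.a0
  have tk : 0 < y k - a := sub_pos.2 (h.ak k hk0)
  have tl : 0 < y l - b := sub_pos.2 (h.bk l hl0)
  have tm : 0 < y m - b := sub_pos.2 (h.bk m hm0)
  have hrel : (vp p (y k) : ℝ) * (y k - a) = (vp p (y 0) : ℝ) * (a - y 0) +
      (vm p (y l) : ℝ) * (y l - b) + (vm p (y m) : ℝ) * (y m - b) := by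
    have h1 := hR
    unfold Rel at h1
    rw [hS] at h1
    simp only [uu, ha0, hb0, d0.1, dk.1, dl.1, dm.1] at h1
    have c1 : ((vp p (y 0) : ℝ)) + vp p (y k) = 2 * vp p a := by
      have := congrArg (fun q : ℚ => (q : ℝ)) s1
      push_cast at this
      linarith
    have c2 : ((vm p (y l) : ℝ)) + vm p (y m) = 2 * vm p b := by
      have := congrArg (fun q : ℚ => (q : ℝ)) s2
      push_cast at this
      linarith
    push_cast at h1
    linear_combination (-1) * h1 - a * c1 + b * c2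
  have hrel2 : ((vp p (y k) - vp p (y 0) : ℚ) : ℝ) * (y k - a) =
      ((vp p (y 0) + vm p (y l) : ℚ) : ℝ) * (y l - b) +
      ((vp p (y 0) + vm p (y m) : ℚ) : ℝ) * (y m - b) := by
    push_cast
    have : a - y 0 = (y k - a) + (y l - b) + (y m - b) := by linarith
    rw [this] at hrel
    linear_combination hrel
  have r0 : (0 : ℝ) < (vp p (y 0) + vm p (y l) : ℚ) := by exact_mod_cast add_pos h0 hl
  have r1 : (0 : ℝ) < (vp p (y 0) + vm p (y m) : ℚ) := by exact_mod_cast add_pos h0 hm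
  have hpos : (0 : ℝ) < ((vp p (y k) - vp p (y 0) : ℚ) : ℝ) := by
    have h1 : 0 < ((vp p (y k) - vp p (y 0) : ℚ) : ℝ) * (y k - a) := by
      rw [hrel2]; positivity
    exact (mul_pos_iff_of_pos_right tk).1 h1
  have hposq : 0 < vp p (y k) - vp p (y 0) := by exact_mod_cast hpos
  have hA : vp p (y 0) < vp p a := by linarith
  have hA' : vp p a < vp p (y k) := by linarith
  have v0 : p.v ((y 0 : ℂ) - a) = vp p (y 0) := by
    rw [sub_p_eq p _ _ hA.ne, min_eq_left hA.le]
  have hC : p.v (C2 a b y : ℂ) = vp p (y 0) := by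
    have := d0.2
    rw [v0] at this
    linarith
  have vk : p.v ((y k : ℂ) - a) = vp p a := by
    rw [sub_p_eq p _ _ hA'.ne', min_eq_right hA'.le]
  -- the value of the sum of the last two gaps
  have e0 : ((y 0 : ℂ) - a) ≠ 0 := by
    rw [← ofReal_sub, Ne, ofReal_eq_zero]; linarith
  have ek : ((y k : ℂ) - a) ≠ 0 := by
    rw [← ofReal_sub, Ne, ofReal_eq_zero]; linarith
  have el : ((y l : ℂ) - b) ≠ 0 := by
    rw [← ofReal_sub, Ne, ofReal_eq_zero]; linarith
  have em : ((y m : ℂ) - b) ≠ 0 := by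
    rw [← ofReal_sub, Ne, ofReal_eq_zero]; linarith
  have vlm : p.v (((y l - b) + (y m - b) : ℝ) : ℂ) = vp p (y 0) := by
    have h1 := (p.add_lt ((y 0 : ℂ) - a) ((y k : ℂ) - a) e0 ek (by rw [v0, vk]; exact hA)).2
    have h2 : (((y l - b) + (y m - b) : ℝ) : ℂ) = -(((y 0 : ℂ) - a) + ((y k : ℂ) - a)) := by
      have : (y l - b) + (y m - b) = -((y 0 - a) + (y k - a)) := by linarith
      rw [this]; push_cast; ring
    rw [h2, p.neg, h1, v0]
  rcases hle.lt_or_eq with hlt | heq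
  · -- different values
    have hB : vm p (y l) < vm p b := by linarith
    have hB' : vm p b < vm p (y m) := by linarith
    have vl : p.v ((y l : ℂ) - b) = vm p (y l) := by
      rw [sub_m_eq p _ _ hB.ne, min_eq_left hB.le]
    have vM : p.v ((y m : ℂ) - b) = vm p b := by
      rw [sub_m_eq p _ _ hB'.ne', min_eq_right hB'.le]
    have hCl : vm p (y l) = vp p (y 0) := by
      have := dl.2
      rw [vl, hC] at this
      linarith
    have q0 : (vp p (y 0) + vm p (y l) : ℚ) ≠ 0 := (add_pos h0 hl).ne'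
    have q1 : (vp p (y 0) + vm p (y m) : ℚ) ≠ 0 := (add_pos h0 hm).ne'
    have w1 : p.v (((vp p (y 0) + vm p (y l) : ℚ) : ℂ) * ((y l : ℂ) - b)) = vp p (y 0) := by
      rw [p.rat_mul _ q0 _ el, vl, hCl]
    have w2 : p.v (((vp p (y 0) + vm p (y m) : ℚ) : ℂ) * ((y m : ℂ) - b)) = vm p b := by
      rw [p.rat_mul _ q1 _ em, vM]
    have w3 := (p.add_lt _ _ (mul_ne_zero (Rat.cast_ne_zero.2 q0) el)
      (mul_ne_zero (Rat.cast_ne_zero.2 q1) em) (by rw [w1, w2]; linarith)).2
    have w4 : ((vp p (y k) - vp p (y 0) : ℚ) : ℂ) * ((y k : ℂ) - a) =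
        ((vp p (y 0) + vm p (y l) : ℚ) : ℂ) * ((y l : ℂ) - b) +
        ((vp p (y 0) + vm p (y m) : ℚ) : ℂ) * ((y m : ℂ) - b) := by
      exact_mod_cast congrArg (fun x : ℝ => (x : ℂ)) hrel2
    rw [← w4, w1, p.rat_mul _ hposq.ne' _ ek, vk] at w3
    linarith
  · -- equal values
    have h1 : ((vp p (y k) - vp p (y 0) : ℚ) : ℝ) * (y k - a) =
        ((vp p (y 0) + vm p (y l) : ℚ) : ℝ) * ((y l - b) + (y m - b)) := by
      rw [hrel2, ← heq]; ring
    have h2 := v_prop p (y k - a) ((y l - b) + (y m - b)) _ _ tk.ne' (by linarith) hposq.ne' h1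
    rw [vlm] at h2
    push_cast at h2
    rw [vk] at h2
    linarith

/-- The case of two coordinates near `i` and two near `-i`, `y 0` near `i`. -/
theorem core (p : Place) {a b : ℝ} {y : Fin 4 → ℝ} (h : Nrm a b y) (hR : Rel p a b y)
    (ha : 0 < vp p a) (hb : 0 < vm p b) (k l m : Fin 4) (hk0 : k ≠ 0) (hl0 : l ≠ 0) (hm0 : m ≠ 0)
    (hQ : ∀ f : Fin 4 → ℚ, ∑ t, f t = f 0 + f k + f l + f m)
    (hS : ∀ f : Fin 4 → ℝ, ∑ t, f t = f 0 + f k + f l + f m)
    (h0 : 0 < vp p (y 0)) (hk : 0 < vp p (y k)) (hl : 0 < vm p (y l)) (hm : 0 < vm p (y m)) :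
    False := by
  rcases le_total (vm p (y l)) (vm p (y m)) with h1 | h1
  · exact core_lt p h hR ha hb k l m hk0 hl0 hm0 hQ hS h0 hk hl hm h1
  · exact core_lt p h hR ha hb k m l hk0 hm0 hl0 (fun f => by rw [hQ]; ring)
      (fun f => by rw [hS]; ring) h0 hk hm hl h1

/-- Balanced sums with one nonzero term. -/
theorem single_of_sum {f : Fin 4 → ℚ} {A : ℚ} (hA : 0 < A) (hs : ∑ t, f t = 2 * A)
    (hf : ∀ t, f t = 0 ∨ f t = 2 * A) : ∃ j, f j = 2 * A ∧ ∀ t, t ≠ j → f t = 0 := by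
  have hn : ∀ t, 0 ≤ f t := fun t => by
    rcases hf t with h1 | h1
    · exact h1.ge
    · rw [h1]; linarith
  obtain ⟨j, hj⟩ : ∃ j, f j = 2 * A := by
    by_contra hcon
    push Not at hcon
    have : ∑ t, f t = 0 := Finset.sum_eq_zero fun t _ => (hf t).resolve_right (hcon t)
    rw [this] at hs
    linarith
  refine ⟨j, hj, fun t ht => ?_⟩
  have h1 := Finset.add_sum_erase Finset.univ f (Finset.mem_univ j)
  have h2 := Finset.single_le_sum (f := f) (s := Finset.univ.erase j) (fun i _ => hn i)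
    (Finset.mem_erase.2 ⟨ht, Finset.mem_univ t⟩)
  rw [hs, hj] at h1
  linarith [hn t]

end LocalPM

open LocalPM

/-- A place where `a` is near `i` and `b` is near `-i` is of type I. -/
theorem local_PM (p : Place) {a b : ℝ} {y : Fin 4 → ℝ} (h : Nrm a b y) (hR : Rel p a b y)
    (ha : 0 < vp p a) (hb : 0 < vm p b) : ∃ j k, TyI p a b y j k := by
  obtain ⟨ha0, hb0, s1, s2, hd⟩ := data p h hR ha hb
  have hja : ∀ j, y j ≠ a := by
    intro j
    by_cases hj : j = 0
    · rw [hj]; exact h.a0.ne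
    · exact (h.ak j hj).ne'
  have hjb : ∀ j, y j ≠ b := by
    intro j
    by_cases hj : j = 0
    · rw [hj]; exact h.b0.ne
    · exact (h.bk j hj).ne'
  by_cases hC : p.v (C2 a b y : ℂ) = 0
  · -- the constant is a unit
    have hP : ∀ j, vp p (y j) = 0 ∨ vp p (y j) = 2 * vp p a := by
      intro j
      rcases hd j with h1 | h1 | h1
      · right
        have h2 := h1.2.2.2
        rw [hC] at h2
        rcases eq_or_ne (vp p (y j)) (vp p a) with h3 | h3
        · have h4 := sub_p p (y j) a (hja j)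
          rw [h3, min_self] at h4
          linarith [h1.1]
        · have h4 := sub_p_eq p (y j) a h3
          rcases min_choice (vp p (y j)) (vp p a) with h5 | h5
          · rw [h5] at h4
            linarith [h1.1]
          · rw [h5] at h4
            linarith
      · exact Or.inl h1.1
      · exact Or.inl h1.1
    have hM : ∀ j, vm p (y j) = 0 ∨ vm p (y j) = 2 * vm p b := by
      intro j
      rcases hd j with h1 | h1 | h1
      · exact Or.inl h1.2.1
      · right
        have h2 := h1.2.2.2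
        rw [hC] at h2
        rcases eq_or_ne (vm p (y j)) (vm p b) with h3 | h3
        · have h4 := sub_m p (y j) b (hjb j)
          rw [h3, min_self] at h4
          linarith [h1.2.1]
        · have h4 := sub_m_eq p (y j) b h3
          rcases min_choice (vm p (y j)) (vm p b) with h5 | h5
          · rw [h5] at h4
            linarith [h1.2.1]
          · rw [h5] at h4
            linarith
      · exact Or.inl h1.2.1
    obtain ⟨j, hj, hj'⟩ := single_of_sum (f := fun t => vp p (y t)) ha s1 hP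
    obtain ⟨k, hk, hk'⟩ := single_of_sum (f := fun t => vm p (y t)) hb s2 hM
    have dj : p.v ((y j : ℂ) - a) = vp p a ∧ vm p (y j) = 0 ∧ p.v ((y j : ℂ) - b) = 0 := by
      rcases hd j with h1 | h1 | h1
      · exact ⟨by linarith [h1.2.2.2], h1.2.1, h1.2.2.1⟩
      · linarith [h1.1]
      · linarith [h1.1]
    have dk : p.v ((y k : ℂ) - b) = vm p b ∧ vp p (y k) = 0 ∧ p.v ((y k : ℂ) - a) = 0 := by
      rcases hd k with h1 | h1 | h1
      · linarith [h1.2.1]
      · exact ⟨by linarith [h1.2.2.2], h1.1, h1.2.2.1⟩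
      · linarith [h1.2.1]
    have jk : j ≠ k := by
      rintro rfl
      linarith [dj.2.1]
    have hrel : (vp p a : ℝ) * (y j - a) = (vm p b : ℝ) * (y k - b) := by
      have h1 := hR
      unfold Rel at h1
      simp only [uu, ha0, hb0] at h1
      have h2 : ∑ t, ((vp p (y t) - vm p (y t) : ℚ) : ℝ) * y t =
          (2 * vp p a : ℚ) * y j - (2 * vm p b : ℚ) * y k := by
        have h3 : ∑ t, ((vp p (y t) : ℚ) : ℝ) * y t = ((2 * vp p a : ℚ) : ℝ) * y j := by
          rw [Finset.sum_eq_single j (fun t _ ht => by rw [hj' t ht]; simp)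
            (fun hh => absurd (Finset.mem_univ _) hh), hj]
        have h4 : ∑ t, ((vm p (y t) : ℚ) : ℝ) * y t = ((2 * vm p b : ℚ) : ℝ) * y k := by
          rw [Finset.sum_eq_single k (fun t _ ht => by rw [hk' t ht]; simp)
            (fun hh => absurd (Finset.mem_univ _) hh), hk]
        rw [← h3, ← h4, ← Finset.sum_sub_distrib]
        refine Finset.sum_congr rfl fun t _ => ?_
        push_cast
        ring
      rw [h2] at h1
      push_cast at h1
      linear_combination (-1 / 2) * h1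
    have hv := v_prop p (y j - a) (y k - b) _ _ (sub_ne_zero.2 (hja j)) (sub_ne_zero.2 (hjb k))
      ha.ne' hrel
    push_cast at hv
    rw [dj.1, dk.1] at hv
    have heq : y j - a = y k - b := by
      rw [← hv] at hrel
      exact mul_left_cancel₀ (by exact_mod_cast ha.ne') hrel
    have j0 : j ≠ 0 := by
      rintro rfl
      have hk0 : k ≠ 0 := fun hh => jk hh.symm
      linarith [h.a0, h.bk k hk0]
    have k0 : k ≠ 0 := by
      rintro rfl
      linarith [h.b0, h.ak j j0]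
    refine ⟨j, k, j0, k0, jk, heq, ha, ha0, hb0, hv.symm, hj, by rw [hk, hv], dj.1,
      by rw [dk.1, hv], fun t ht => ?_, fun t ht => ?_⟩
    · rcases hd t with h1 | h1 | h1
      · linarith [h1.1, hj' t ht]
      · exact h1.2.2.1
      · exact h1.2.2.1
    · rcases hd t with h1 | h1 | h1
      · exact h1.2.2.1
      · linarith [h1.2.1, hk' t ht]
      · exact h1.2.2.2.1
  · -- the constant is not a unit: contradiction
    exfalso
    have hd2 : ∀ j, (0 < vp p (y j) ∧ vm p (y j) = 0 ∧ p.v ((y j : ℂ) - b) = 0 ∧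
        2 * p.v ((y j : ℂ) - a) = p.v (C2 a b y : ℂ) + vp p (y j)) ∨
      (vp p (y j) = 0 ∧ 0 < vm p (y j) ∧ p.v ((y j : ℂ) - a) = 0 ∧
        2 * p.v ((y j : ℂ) - b) = p.v (C2 a b y : ℂ) + vm p (y j)) := by
      intro j
      rcases hd j with h1 | h1 | h1
      · exact Or.inl h1
      · exact Or.inr h1
      · exact absurd h1.2.2.2.2 hC
    have ra := row_a p h
    rw [ha0, Fin.sum_univ_four] at ra
    rw [Fin.sum_univ_four] at s1 s2
    have hc : ∀ k l m : Fin 4, k ≠ 0 → l ≠ 0 → m ≠ 0 →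
        (∀ f : Fin 4 → ℚ, ∑ t, f t = f 0 + f k + f l + f m) →
        (∀ f : Fin 4 → ℝ, ∑ t, f t = f 0 + f k + f l + f m) →
        (0 < vp p (y 0) → 0 < vp p (y k) → 0 < vm p (y l) → 0 < vm p (y m) → False) ∧
        (0 < vm p (y 0) → 0 < vm p (y k) → 0 < vp p (y l) → 0 < vp p (y m) → False) := by
      intro k l m hk0 hl0 hm0 hQ hS
      refine ⟨core p h hR ha hb k l m hk0 hl0 hm0 hQ hS, fun h0 hk hl hm => ?_⟩
      exact core p.conj h.swap hR.swap.conj (by rw [vp_conj]; exact hb)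
        (by rw [vm_conj]; exact ha) k l m hk0 hl0 hm0 hQ hS (by rw [vp_conj]; exact h0)
        (by rw [vp_conj]; exact hk) (by rw [vm_conj]; exact hl) (by rw [vm_conj]; exact hm)
    have c1 := hc 1 2 3 (by decide) (by decide) (by decide) (fun f => Fin.sum_univ_four f)
      (fun f => Fin.sum_univ_four f)
    have c2 := hc 2 1 3 (by decide) (by decide) (by decide)
      (fun f => by rw [Fin.sum_univ_four]; ring) (fun f => by rw [Fin.sum_univ_four]; ring)
    have c3 := hc 3 1 2 (by decide) (by decide) (by decide)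
      (fun f => by rw [Fin.sum_univ_four]; ring) (fun f => by rw [Fin.sum_univ_four]; ring)
    rcases hd2 0 with ⟨a1, a2, a3, a4⟩ | ⟨a1, a2, a3, a4⟩ <;>
    rcases hd2 1 with ⟨b1, b2, b3, b4⟩ | ⟨b1, b2, b3, b4⟩ <;>
    rcases hd2 2 with ⟨d1, d2, d3, d4⟩ | ⟨d1, d2, d3, d4⟩ <;>
    rcases hd2 3 with ⟨e1, e2, e3, e4⟩ | ⟨e1, e2, e3, e4⟩ <;>
    first
      | exact c1.1 a1 b1 d2 e2
      | exact c1.2 a2 b2 d1 e1
      | exact c2.1 a1 d1 b2 e2
      | exact c2.2 a2 d2 b1 e1
      | exact c3.1 a1 e1 b2 d2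
      | exact c3.2 a2 e2 b1 d1
      | exact hC (by linarith)

end Pool.Agent.TetRot
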