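import Pool.Agent.TetRot.Ultra
import Pool.Agent.TetRot.UltraN
import Pool.Agent.TetRot.Resid

/-! # Places with `a` and `b` near `i` (helper82) -/

set_option autoImplicit false

open Complex

namespace Pool.Agent.TetRot

/-- the value at `y j` is not compatible with a convex combination of `a` and `b` -/
theorem pp_order {a b : ℝ} {y : Fin 4 → ℝ} (h : Nrm a b y) (j : Fin 4) (A B : ℝ) (hA : 0 < A)
    (hB : 0 ≤ B) (he : A * (y j - a) + B * (y j - b) = 0) : False := by
  by_cases hj : j = 0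
  · subst hj
    have h1 : 0 < A * (a - y 0) := mul_pos hA (by linarith [h.a0])
    have h2 : 0 ≤ B * (b - y 0) := mul_nonneg hB (by linarith [h.b0])
    nlinarith
  · have h1 : 0 < A * (y j - a) := mul_pos hA (by linarith [h.ak j hj])
    have h2 : 0 ≤ B * (y j - b) := mul_nonneg hB (by linarith [h.bk j hj])
    linarith

theorem pp_ne_a {a b : ℝ} {y : Fin 4 → ℝ} (h : Nrm a b y) (j : Fin 4) : y j ≠ a := by
  by_cases hj : j = 0
  · subst hj
    exact h.a0.ne
  · exact (h.ak j hj).ne'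

theorem pp_ne_b {a b : ℝ} {y : Fin 4 → ℝ} (h : Nrm a b y) (j : Fin 4) : y j ≠ b := by
  by_cases hj : j = 0
  · subst hj
    exact h.b0.ne
  · exact (h.bk j hj).ne'

/-- no value of a `y j` at `-i` and no poles -/
theorem pp_vm (p : Place) {a b : ℝ} {y : Fin 4 → ℝ} (h : Nrm a b y) (hR : Rel p a b y)
    (ha : 0 < vp p a) (hb : 0 < vp p b) : vm p a = 0 ∧ vm p b = 0 ∧ ∀ j, vm p (y j) = 0 := by
  have h1 : ∀ g : ℝ, 0 < vp p g → vm p g = 0 := by
    intro g hg
    rcases trich p g with ⟨_, h2⟩ | ⟨_, h2⟩ | ⟨h2, _⟩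
    · exact absurd hg (not_lt.mpr h2)
    · exact h2
    · rw [h2] at hg
      exact absurd hg (lt_irrefl _)
  refine ⟨h1 a ha, h1 b hb, ?_⟩
  obtain ⟨-, r2, r3⟩ := residue p h hR
  rw [h1 a ha, h1 b hb, max_self, mul_zero, add_zero] at r2
  rw [min_eq_right ha.le, min_eq_right hb.le, mul_zero, add_zero] at r3
  have k2 : ∀ j, max (vm p (y j)) 0 = 0 := by
    intro j
    have := (Finset.sum_eq_zero_iff_of_nonneg (s := Finset.univ)
      (f := fun j => max (vm p (y j)) 0) (fun i _ => le_max_right _ _)).1 r2.symm j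
      (Finset.mem_univ j)
    exact this
  have k3 : ∀ j, min (vp p (y j)) 0 = 0 := by
    intro j
    have := (Finset.sum_eq_zero_iff_of_nonpos (s := Finset.univ)
      (f := fun j => min (vp p (y j)) 0) (fun i _ => min_le_right _ _)).1 r3.symm j
      (Finset.mem_univ j)
    exact this
  intro j
  have e2 : vm p (y j) ≤ 0 := by
    have := k2 j
    exact max_eq_right_iff.1 this
  have e3 : 0 ≤ vp p (y j) := by
    have := k3 j
    exact min_eq_right_iff.1 this
  rcases trich p (y j) with ⟨h2, h3⟩ | ⟨_, h2⟩ | ⟨_, h2⟩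
  · linarith
  · exact h2
  · linarith

/-- the relation in terms of the values -/
theorem pp_rel (p : Place) {a b : ℝ} {y : Fin 4 → ℝ} (hR : Rel p a b y)
    (ha : vm p a = 0) (hb : vm p b = 0) (hy : ∀ j, vm p (y j) = 0) :
    2 * (vp p a : ℝ) * a + 2 * (vp p b : ℝ) * b =
      (vp p (y 0) : ℝ) * y 0 + (vp p (y 1) : ℝ) * y 1 + (vp p (y 2) : ℝ) * y 2 +
        (vp p (y 3) : ℝ) * y 3 := by
  have h1 : ∀ g : ℝ, vm p g = 0 → uu p g = vp p g := by
    intro g hg
    unfold uu
    rw [hg, sub_zero]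
  have h2 := hR
  unfold Rel at h2
  rw [Fin.sum_univ_four, h1 a ha, h1 b hb, h1 _ (hy 0), h1 _ (hy 1), h1 _ (hy 2),
    h1 _ (hy 3)] at h2
  exact h2

/-- all values are the least one except at one `y j` -/
theorem pp_conclude (p : Place) {a b : ℝ} {y : Fin 4 → ℝ} (h : Nrm a b y) (hR : Rel p a b y)
    (hva : vm p a = 0) (hvb : vm p b = 0) (hvy : ∀ j, vm p (y j) = 0) (D : ℚ)
    (hA : D < vp p a) (hB : D ≤ vp p b) (hc : p.v (C2 a b y : ℂ) = 3 * D)
    (hj : ∀ j, (vp p (y j) = D ∧ p.v ((y j : ℂ) - a) = D) ∨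
      (p.v ((y j : ℂ) - a) = vp p a ∧ vp p (y j) = 2 * vp p a + 2 * vp p b - 3 * D)) : False := by
  have hrow := row_a p h
  rw [Fin.sum_univ_four, hc, hva] at hrow
  have hrel := pp_rel p hR hva hvb hvy
  have hsum := h.sum
  have hA' : (0 : ℝ) < (vp p a : ℝ) - D := by
    have : (D : ℝ) < (vp p a : ℝ) := by exact_mod_cast hA
    linarith
  have hB' : (0 : ℝ) ≤ (vp p b : ℝ) - D := by
    have : (D : ℝ) ≤ (vp p b : ℝ) := by exact_mod_cast hB
    linarith
  rcases hj 0 with ⟨e0, f0⟩ | ⟨f0, e0⟩ <;> rcases hj 1 with ⟨e1, f1⟩ | ⟨f1, e1⟩ <;>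
    rcases hj 2 with ⟨e2, f2⟩ | ⟨f2, e2⟩ <;> rcases hj 3 with ⟨e3, f3⟩ | ⟨f3, e3⟩ <;>
    rw [f0, f1, f2, f3] at hrow <;> try (exfalso; linarith)
  · refine pp_order h 3 _ _ hA' hB' ?_
    rw [e0, e1, e2, e3] at hrel
    push_cast at hrel
    linear_combination ((D : ℝ) / 2) * hsum + (-1 / 2 : ℝ) * hrel
  · refine pp_order h 2 _ _ hA' hB' ?_
    rw [e0, e1, e2, e3] at hrel
    push_cast at hrel
    linear_combination ((D : ℝ) / 2) * hsum + (-1 / 2 : ℝ) * hrel
  · refine pp_order h 1 _ _ hA' hB' ?_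
    rw [e0, e1, e2, e3] at hrel
    push_cast at hrel
    linear_combination ((D : ℝ) / 2) * hsum + (-1 / 2 : ℝ) * hrel
  · refine pp_order h 0 _ _ hA' hB' ?_
    rw [e0, e1, e2, e3] at hrel
    push_cast at hrel
    linear_combination ((D : ℝ) / 2) * hsum + (-1 / 2 : ℝ) * hrel

/-- the case of two pairs with the sums `2 a` and `2 b` -/
theorem pp_pair (p : Place) {a b : ℝ} {y : Fin 4 → ℝ} (h : Nrm a b y)
    (hva : vm p a = 0) (hvb : vm p b = 0) (D c : ℚ)
    (hA : D < vp p a) (hB : vp p b = D) (hb : 0 < vp p b) (j k l m : Fin 4)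
    (hsum : 2 * a + 2 * b = y j + y k + y l + y m)
    (heq : ((a : ℂ) - I) ^ 2 * ((b : ℂ) - I) ^ 2 =
      ((y j : ℂ) - I) * ((y k : ℂ) - I) * ((y l : ℂ) - I) * ((y m : ℂ) - I))
    (hrel : 2 * (vp p a : ℝ) * a + 2 * (vp p b : ℝ) * b =
      (vp p (y j) : ℝ) * y j + (vp p (y k) : ℝ) * y k + (vp p (y l) : ℝ) * y l +
        (vp p (y m) : ℝ) * y m)
    (hwt : 2 * vp p a + 2 * vp p b = vp p (y j) + vp p (y k) + vp p (y l) + vp p (y m))
    (hl : vp p (y l) = D) (hm : vp p (y m) = D) (hj : D < vp p (y j))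
    (hnj : D < p.v ((y j : ℂ) - a))
    (hcj : 2 * p.v ((y j : ℂ) - a) + 2 * D = c + vp p (y j))
    (hck : 2 * p.v ((y k : ℂ) - a) + 2 * D = c + vp p (y k)) : False := by
  have hja : y j - a ≠ 0 := sub_ne_zero.2 (pp_ne_a h j)
  have hka : y k - a ≠ 0 := sub_ne_zero.2 (pp_ne_a h k)
  have hlb : y l - b ≠ 0 := sub_ne_zero.2 (pp_ne_b h l)
  rw [hB, hl, hm] at hrel hwt
  have hDR : ((D : ℚ) : ℝ) < (vp p (y j) : ℝ) := by exact_mod_cast hj
  have hwtR : 2 * (vp p a : ℝ) + 2 * (D : ℝ) = (vp p (y j) : ℝ) + (vp p (y k) : ℝ) + D + D := by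
    exact_mod_cast hwt
  have e1 : (((vp p (y j) - D : ℚ) : ℝ)) * (y j - a) =
      ((-(vp p (y k) - D) : ℚ) : ℝ) * (y k - a) := by
    push_cast
    linear_combination (-1 : ℝ) * hrel + (D : ℝ) * hsum + a * hwtR
  have e2 := v_prop p (y j - a) (y k - a) (vp p (y j) - D) (-(vp p (y k) - D)) hja hka
    (sub_ne_zero.2 hj.ne') e1
  have e3 : p.v ((y j : ℂ) - a) = p.v ((y k : ℂ) - a) := by
    have e4 : ((y j - a : ℝ) : ℂ) = (y j : ℂ) - a := by push_cast; ring
    have e5 : ((y k - a : ℝ) : ℂ) = (y k : ℂ) - a := by push_cast; ring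
    rw [← e4, ← e5]
    exact e2
  have e6 : vp p (y j) = vp p (y k) := by linarith
  rw [← e6] at e1
  have e7 : y k = 2 * a - y j := by
    have e8 : ((vp p (y j) : ℝ) - D) * ((y j - a) + (y k - a)) = 0 := by
      push_cast at e1
      linear_combination e1
    rcases mul_eq_zero.1 e8 with h9 | h9
    · exact absurd h9 (by linarith)
    · linarith
  have e8 : y m = 2 * b - y l := by linarith
  -- the equations at `i` and `-i`
  set th : ℝ := y j - a with hth
  set ph : ℝ := y l - b with hph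
  have f1 : (ph : ℂ) ^ 2 * ((a : ℂ) - I) ^ 2 + (th : ℂ) ^ 2 * ((b : ℂ) - I) ^ 2 =
      (th : ℂ) ^ 2 * (ph : ℂ) ^ 2 := by
    have g1 : (y j : ℂ) = a + th := by rw [hth]; push_cast; ring
    have g2 : (y k : ℂ) = a - th := by rw [e7, hth]; push_cast; ring
    have g3 : (y l : ℂ) = b + ph := by rw [hph]; push_cast; ring
    have g4 : (y m : ℂ) = b - ph := by rw [e8, hph]; push_cast; ring
    rw [g1, g2, g3, g4] at heq
    linear_combination heq
  have f2 : (ph : ℂ) ^ 2 * ((a : ℂ) + I) ^ 2 + (th : ℂ) ^ 2 * ((b : ℂ) + I) ^ 2 =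
      (th : ℂ) ^ 2 * (ph : ℂ) ^ 2 := by
    have g := congrArg (starRingEnd ℂ) f1
    simp only [map_add, map_mul, map_pow, map_sub, Complex.conj_ofReal, Complex.conj_I,
      sub_neg_eq_add] at g
    exact g
  have hthC : (th : ℂ) ≠ 0 := by exact_mod_cast hja
  have hphC : (ph : ℂ) ≠ 0 := by exact_mod_cast hlb
  have vth : p.v (th : ℂ) = p.v ((y j : ℂ) - a) := by
    congr 1
    rw [hth]
    push_cast
    ring
  set t : ℚ := p.v (th : ℂ) with ht
  set f : ℚ := p.v (ph : ℂ) with hf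
  have htD : D < t := by rw [vth]; exact hnj
  have v2 : ∀ x : ℂ, x ≠ 0 → p.v (x ^ 2) = 2 * p.v x := by
    intro x hx
    rw [p.pow x hx 2]
    norm_num
  have v22 : ∀ x z : ℂ, x ≠ 0 → z ≠ 0 → p.v (x ^ 2 * z ^ 2) = 2 * p.v x + 2 * p.v z := by
    intro x z hx hz
    rw [p.mul _ _ (pow_ne_zero 2 hx) (pow_ne_zero 2 hz), v2 x hx, v2 z hz]
  have w1 : p.v ((ph : ℂ) ^ 2 * ((a : ℂ) + I) ^ 2) = 2 * f := by
    rw [v22 _ _ hphC (ne_m a)]
    have : p.v ((a : ℂ) + I) = 0 := hva
    rw [this]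
    ring
  have w2 : p.v ((th : ℂ) ^ 2 * ((b : ℂ) + I) ^ 2) = 2 * t := by
    rw [v22 _ _ hthC (ne_m b)]
    have : p.v ((b : ℂ) + I) = 0 := hvb
    rw [this]
    ring
  have w3 : p.v ((th : ℂ) ^ 2 * (ph : ℂ) ^ 2) = 2 * t + 2 * f := v22 _ _ hthC hphC
  have w4 : p.v ((ph : ℂ) ^ 2 * ((a : ℂ) - I) ^ 2) = 2 * f + 2 * vp p a :=
    v22 _ _ hphC (ne_p a)
  have w5 : p.v ((th : ℂ) ^ 2 * ((b : ℂ) - I) ^ 2) = 2 * t + 2 * D := by
    rw [v22 _ _ hthC (ne_p b)]
    have : p.v ((b : ℂ) - I) = D := hB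
    rw [this]
  have n1 : (ph : ℂ) ^ 2 * ((a : ℂ) + I) ^ 2 ≠ 0 :=
    mul_ne_zero (pow_ne_zero 2 hphC) (pow_ne_zero 2 (ne_m a))
  have n2 : (th : ℂ) ^ 2 * ((b : ℂ) + I) ^ 2 ≠ 0 :=
    mul_ne_zero (pow_ne_zero 2 hthC) (pow_ne_zero 2 (ne_m b))
  have n4 : (ph : ℂ) ^ 2 * ((a : ℂ) - I) ^ 2 ≠ 0 :=
    mul_ne_zero (pow_ne_zero 2 hphC) (pow_ne_zero 2 (ne_p a))
  have n5 : (th : ℂ) ^ 2 * ((b : ℂ) - I) ^ 2 ≠ 0 :=
    mul_ne_zero (pow_ne_zero 2 hthC) (pow_ne_zero 2 (ne_p b))
  have htf : t = f := by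
    rcases lt_trichotomy f t with h1 | h1 | h1
    · have := (p.add_lt _ _ n1 n2 (by rw [w1, w2]; linarith)).2
      rw [f2, w3, w1] at this
      linarith
    · exact h1.symm
    · have := (p.add_lt _ _ n2 n1 (by rw [w1, w2]; linarith)).2
      rw [add_comm, f2, w3, w2] at this
      linarith
  have := (p.add_lt _ _ n5 n4 (by rw [w4, w5]; linarith)).2
  rw [add_comm, f1, w3, w5] at this
  linarith

/-- the least value is the value at `b` and smaller than the value at `a` -/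
theorem pp_mixed (p : Place) {a b : ℝ} {y : Fin 4 → ℝ} (h : Nrm a b y) (hR : Rel p a b y)
    (hva : vm p a = 0) (hvb : vm p b = 0) (hvy : ∀ j, vm p (y j) = 0) (D : ℚ)
    (hA : D < vp p a) (hB : vp p b = D) (hb : 0 < vp p b)
    (hY : ∀ j, D ≤ vp p (y j)) : False := by
  have hcol : ∀ j, 2 * p.v ((y j : ℂ) - a) + 2 * p.v ((y j : ℂ) - b) =
      p.v (C2 a b y : ℂ) + vp p (y j) := by
    intro j
    have := col p h j
    rw [hvy j, add_zero] at this
    exact this
  set c := p.v (C2 a b y : ℂ) with hc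
  have hj : ∀ j, (vp p (y j) = D ∧ p.v ((y j : ℂ) - a) = D) ∨
      (D < vp p (y j) ∧ p.v ((y j : ℂ) - b) = D ∧ D < p.v ((y j : ℂ) - a)) := by
    intro j
    rcases (hY j).eq_or_lt with h1 | h1
    · left
      refine ⟨h1.symm, ?_⟩
      rw [sub_p_eq p _ _ (by rw [← h1]; exact hA.ne), ← h1, min_eq_left hA.le]
    · right
      refine ⟨h1, ?_, ?_⟩
      · rw [sub_p_eq p _ _ (by rw [hB]; exact h1.ne'), hB, min_eq_right h1.le]
      · exact (lt_min h1 hA).trans_le (sub_p p _ _ (pp_ne_a h j))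
  by_cases hc3 : c = 3 * D
  · refine pp_conclude p h hR hva hvb hvy D hA hB.ge hc3 fun j => ?_
    rcases hj j with h1 | ⟨h1, h2, h3⟩
    · exact Or.inl h1
    · right
      have h4 := hcol j
      rw [h2, hc3] at h4
      have h5 : p.v ((y j : ℂ) - a) = vp p a := by
        by_cases h6 : vp p (y j) = vp p a
        · have := sub_p p _ _ (pp_ne_a h j)
          rw [h6, min_self] at this
          linarith
        · have := sub_p_eq p _ _ h6
          rcases min_choice (vp p (y j)) (vp p a) with h7 | h7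
          · rw [this, h7] at h4
            linarith
          · rw [this, h7]
      exact ⟨h5, by rw [h5] at h4; linarith⟩
  · have hrow := row_b p h
    rw [Fin.sum_univ_four, hvb, add_zero, hB] at hrow
    have hrel := pp_rel p hR hva hvb hvy
    have hwt := wt_p p h
    rw [Fin.sum_univ_four] at hwt
    have hsum := h.sum
    have heq := h.eqn
    have c0 := hcol 0
    have c1 := hcol 1
    have c2 := hcol 2
    have c3 := hcol 3
    rcases hj 0 with ⟨e0, f0⟩ | ⟨e0, f0, g0⟩ <;> rcases hj 1 with ⟨e1, f1⟩ | ⟨e1, f1, g1⟩ <;>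
      rcases hj 2 with ⟨e2, f2⟩ | ⟨e2, f2, g2⟩ <;> rcases hj 3 with ⟨e3, f3⟩ | ⟨e3, f3, g3⟩
    · exact hc3 (by linarith)
    · exact hc3 (by linarith)
    · exact hc3 (by linarith)
    · exact pp_pair p h hva hvb D c hA hB hb 2 3 0 1 (by linarith) (by rw [heq]; ring)
        (by linarith) (by linarith) e0 e1 e2 g2 (by linarith) (by linarith)
    · exact hc3 (by linarith)
    · exact pp_pair p h hva hvb D c hA hB hb 1 3 0 2 (by linarith) (by rw [heq]; ring)
        (by linarith) (by linarith) e0 e2 e1 g1 (by linarith) (by linarith)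
    · exact pp_pair p h hva hvb D c hA hB hb 1 2 0 3 (by linarith) (by rw [heq]; ring)
        (by linarith) (by linarith) e0 e3 e1 g1 (by linarith) (by linarith)
    · exact hc3 (by linarith)
    · exact hc3 (by linarith)
    · exact pp_pair p h hva hvb D c hA hB hb 0 3 1 2 (by linarith) (by rw [heq]; ring)
        (by linarith) (by linarith) e1 e2 e0 g0 (by linarith) (by linarith)
    · exact pp_pair p h hva hvb D c hA hB hb 0 2 1 3 (by linarith) (by rw [heq]; ring)
        (by linarith) (by linarith) e1 e3 e0 g0 (by linarith) (by linarith)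
    · exact hc3 (by linarith)
    · exact pp_pair p h hva hvb D c hA hB hb 0 1 2 3 (by linarith) (by rw [heq])
        (by linarith) (by linarith) e2 e3 e0 g0 (by linarith) (by linarith)
    · exact hc3 (by linarith)
    · exact hc3 (by linarith)
    · exact hc3 (by linarith)

/-- numerical step -/
theorem pp_ge {D α β Y n m : ℚ} (hn : Y ≠ α → n = min Y α) (hm : Y ≠ β → m = min Y β)
    (hDn : D ≤ n) (hDm : D ≤ m) (h : 2 * D < α + β) : D ≤ α := by
  by_contra hcon
  push Not at hcon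
  have h1 : Y = α := by
    by_contra h2
    have := hn h2
    have h3 : min Y α ≤ α := min_le_right _ _
    linarith
  by_cases h2 : Y = β
  · linarith
  · have := hm h2
    have h3 : min Y β ≤ Y := min_le_left _ _
    linarith

theorem local_PP (p : Place) {a b : ℝ} {y : Fin 4 → ℝ} (h : Nrm a b y) (hR : Rel p a b y)
    (ha : 0 < vp p a) (hb : 0 < vp p b) : Star p a b y := by
  obtain ⟨hva, hvb, hvy⟩ := pp_vm p h hR ha hb
  by_contra hS
  obtain ⟨q0, hq0⟩ := Finite.exists_min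
    (fun q : Fin 4 × Bool => if q.2 then p.v ((y q.1 : ℂ) - a) else p.v ((y q.1 : ℂ) - b))
  obtain ⟨D, hD1, hD2, hD3⟩ : ∃ D : ℚ, (∀ t, D ≤ p.v ((y t : ℂ) - a)) ∧
      (∀ t, D ≤ p.v ((y t : ℂ) - b)) ∧
      ∃ t, p.v ((y t : ℂ) - a) = D ∨ p.v ((y t : ℂ) - b) = D := by
    refine ⟨_, fun t => hq0 (t, true), fun t => hq0 (t, false), q0.1, ?_⟩
    cases hb' : q0.2
    · right
      simp [hb']
    · left
      simp [hb']
  have h2D : 2 * D < vp p a + vp p b := by
    by_contra hle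
    push Not at hle
    refine hS fun t => ⟨?_, ?_⟩
    · rw [hva, hvb]
      linarith [hD1 t]
    · rw [hva, hvb]
      linarith [hD2 t]
  have hDa : D ≤ vp p a := pp_ge (sub_p_eq p (y 0) a) (sub_p_eq p (y 0) b) (hD1 0) (hD2 0) h2D
  have hDb : D ≤ vp p b := pp_ge (sub_p_eq p (y 0) b) (sub_p_eq p (y 0) a) (hD2 0) (hD1 0)
    (by linarith)
  have hY : ∀ j, D ≤ vp p (y j) := by
    intro j
    by_contra hcon
    push Not at hcon
    have := sub_p_eq p (y j) a (by linarith [hcon, hDa] : vp p (y j) < vp p a).ne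
    rw [min_eq_left (by linarith)] at this
    linarith [hD1 j]
  rcases hDa.eq_or_lt with hA | hA
  · rcases hDb.eq_or_lt with hB | hB
    · linarith
    · exact pp_mixed p h.swap hR.swap hvb hva hvy D hB hA.symm ha hY
  · rcases hDb.eq_or_lt with hB | hB
    · exact pp_mixed p h hR hva hvb hvy D hA hB.symm hb hY
    · have hcol : ∀ j, 2 * p.v ((y j : ℂ) - a) + 2 * p.v ((y j : ℂ) - b) =
          p.v (C2 a b y : ℂ) + vp p (y j) := by
        intro j
        have := col p h j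
        rw [hvy j, add_zero] at this
        exact this
      have hj : ∀ j, (vp p (y j) = D ∧ p.v ((y j : ℂ) - a) = D ∧ p.v ((y j : ℂ) - b) = D) ∨
          (D < vp p (y j) ∧ D < p.v ((y j : ℂ) - a) ∧ D < p.v ((y j : ℂ) - b)) := by
        intro j
        rcases (hY j).eq_or_lt with h1 | h1
        · left
          refine ⟨h1.symm, ?_, ?_⟩
          · rw [sub_p_eq p _ _ (by rw [← h1]; exact hA.ne), ← h1, min_eq_left hA.le]
          · rw [sub_p_eq p _ _ (by rw [← h1]; exact hB.ne), ← h1, min_eq_left hB.le]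
        · right
          exact ⟨h1, (lt_min h1 hA).trans_le (sub_p p _ _ (pp_ne_a h j)),
            (lt_min h1 hB).trans_le (sub_p p _ _ (pp_ne_b h j))⟩
      have hc3 : p.v (C2 a b y : ℂ) = 3 * D := by
        obtain ⟨t, ht⟩ := hD3
        rcases hj t with ⟨h1, h2, h3⟩ | ⟨h1, h2, h3⟩
        · have := hcol t
          rw [h1, h2, h3] at this
          linarith
        · rcases ht with ht | ht
          · exact absurd ht h2.ne'
          · exact absurd ht h3.ne'
      refine pp_conclude p h hR hva hvb hvy D hA hB.le hc3 fun j => ?_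
      rcases hj j with ⟨h1, h2, _⟩ | ⟨h1, h2, h3⟩
      · exact Or.inl ⟨h1, h2⟩
      · right
        have h4 := hcol j
        rw [hc3] at h4
        have h5 : p.v ((y j : ℂ) - a) = vp p a := by
          by_cases h6 : vp p (y j) = vp p a
          · have := sub_p p _ _ (pp_ne_a h j)
            rw [h6, min_self] at this
            linarith
          · have := sub_p_eq p _ _ h6
            rcases min_choice (vp p (y j)) (vp p a) with h7 | h7
            · rw [this, h7] at h4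
              linarith
            · rw [this, h7]
        have h8 : p.v ((y j : ℂ) - b) = vp p b := by
          by_cases h6 : vp p (y j) = vp p b
          · have := sub_p p _ _ (pp_ne_b h j)
            rw [h6, min_self] at this
            linarith
          · have := sub_p_eq p _ _ h6
            rcases min_choice (vp p (y j)) (vp p b) with h7 | h7
            · rw [this, h7] at h4
              linarith
            · rw [this, h7]
        exact ⟨h5, by rw [h5, h8] at h4; linarith⟩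

end Pool.Agent.TetRot
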