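import Pool.Agent.TetRot.LocalPN
import Pool.Agent.TetRot.LocalPP
import Pool.Agent.TetRot.LocalPM
import Pool.Agent.TetRot.LocalNN

/-! # All places -/

set_option autoImplicit false

open Complex

namespace Pool.Agent.TetRot

theorem star_conj {p : Place} {a b : ℝ} {y : Fin 4 → ℝ} (h : Star p.conj a b y) :
    Star p a b y := by
  intro t
  obtain ⟨h1, h2⟩ := h t
  rw [vp_conj, vm_conj, vp_conj, vm_conj] at h1 h2
  have e1 : p.conj.v ((y t : ℂ) - a) = p.v ((y t : ℂ) - a) := by
    have := v_conj_real p (y t - a)
    push_cast at this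
    exact this
  have e2 : p.conj.v ((y t : ℂ) - b) = p.v ((y t : ℂ) - b) := by
    have := v_conj_real p (y t - b)
    push_cast at this
    exact this
  rw [e1] at h1
  rw [e2] at h2
  constructor
  · linarith
  · linarith

theorem local_all (p : Place) {a b : ℝ} {y : Fin 4 → ℝ} (h : Nrm a b y) (hR : Rel p a b y) :
    (∃ j k, TyI p a b y j k) ∨ (∃ j k, TyI p.conj a b y j k) ∨ Star p a b y := by
  rcases trich p a with ha | ha | ha
  · rcases trich p b with hb | hb | hb
    · exact Or.inr (Or.inr (local_NN p h hR ha.1 hb.1))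
    · exact absurd (local_PN p h.swap hR.swap hb.1 ha.1) not_false
    · refine absurd (local_PN p.conj h.swap hR.conj.swap ?_ ?_) not_false
      · rw [vp_conj]; exact hb.2
      · rw [vp_conj, vm_conj]; exact ha.1.symm
  · rcases trich p b with hb | hb | hb
    · exact absurd (local_PN p h hR ha.1 hb.1) not_false
    · exact Or.inr (Or.inr (local_PP p h hR ha.1 hb.1))
    · exact Or.inl (local_PM p h hR ha.1 hb.2)
  · rcases trich p b with hb | hb | hb
    · refine absurd (local_PN p.conj h hR.conj ?_ ?_) not_false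
      · rw [vp_conj]; exact ha.2
      · rw [vp_conj, vm_conj]; exact hb.1.symm
    · refine Or.inr (Or.inl (local_PM p.conj h hR.conj ?_ ?_))
      · rw [vp_conj]; exact ha.2
      · rw [vm_conj]; exact hb.1
    · refine Or.inr (Or.inr (star_conj (local_PP p.conj h hR.conj ?_ ?_)))
      · rw [vp_conj]; exact ha.2
      · rw [vp_conj]; exact hb.2

end Pool.Agent.TetRot
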