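import Mathlib
import Pool.Agent.TetDim.BasicG
import Pool.Agent.TetRot.NormDefs

/-!
# Normalisation of the coordinates of a tetrahedron with a rotation of order two

`exists_root`: the quadratic has a root `ξ + i η`, `η > 0`. `nrm_of_root`: the normalised
coordinates satisfy `Nrm`.
-/

set_option autoImplicit false

open Complex
open Pool.Agent.TetRel

namespace Pool.Agent.TetRot

/-- the linear coefficient of the quadratic -/
noncomputable def cB (l : Fin 6 → ℝ) : ℝ :=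
  yS l 1 * yS l 2 * yS l 3 - 2 * aS l * bS l * (aS l + bS l)

theorem quad {l : Fin 6 → ℝ} (hs : Rot l) (X : ℝ) :
    (X - aS l) ^ 2 * (X - bS l) ^ 2 - (X - yS l 0) * (X - yS l 1) * (X - yS l 2) * (X - yS l 3)
    = (l 0 * l 5 + l 1 ^ 2 + l 2 ^ 2) / 2 * X ^ 2 + cB l * X + aS l ^ 2 * bS l ^ 2 := by
  obtain ⟨h1, h2⟩ := hs
  simp only [cB, aS, bS, yS, Matrix.cons_val]
  rw [← h1, ← h2]
  ring

theorem quadC {l : Fin 6 → ℝ} (hs : Rot l) (X : ℂ) :
    (X - aS l) ^ 2 * (X - bS l) ^ 2 - (X - yS l 0) * (X - yS l 1) * (X - yS l 2) * (X - yS l 3)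
    = ((l 0 * l 5 + l 1 ^ 2 + l 2 ^ 2) / 2 : ℝ) * X ^ 2 + (cB l : ℝ) * X +
      ((aS l ^ 2 * bS l ^ 2 : ℝ) : ℂ) := by
  obtain ⟨h1, h2⟩ := hs
  simp only [cB, aS, bS, yS, Matrix.cons_val]
  rw [← h1, ← h2]
  push_cast
  ring

theorem disc {l : Fin 6 → ℝ} (hs : Rot l) :
    16 * (4 * ((l 0 * l 5 + l 1 ^ 2 + l 2 ^ 2) / 2) * (aS l ^ 2 * bS l ^ 2) - cB l ^ 2) =
      TetDim.P l := by
  obtain ⟨h1, h2⟩ := hs
  simp only [cB, aS, bS, yS, Matrix.cons_val, TetDim.P]
  rw [← h1, ← h2]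
  ring

theorem C_pos (v : Fin 4 → E3) (hv : AffineIndependent ℝ v) :
    0 < (len v 0 * len v 5 + len v 1 ^ 2 + len v 2 ^ 2) / 2 := by
  obtain ⟨_, hl, _⟩ := TetDim.basic v hv
  have h0 := hl 0
  have h5 := hl 5
  have h1 := hl 1
  have h2 := hl 2
  positivity

theorem exists_root (v : Fin 4 → E3) (hv : AffineIndependent ℝ v) (hs : Rot (len v)) :
    ∃ ξ η : ℝ, 0 < η ∧ IsRoot (len v) ξ η := by
  obtain ⟨hG, hl, _⟩ := TetDim.basic v hv
  have hC := C_pos v hv
  have hP := hG.2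
  rw [← disc hs] at hP
  set c := (len v 0 * len v 5 + len v 1 ^ 2 + len v 2 ^ 2) / 2 with hc
  have hd : 0 < 4 * c * (aS (len v) ^ 2 * bS (len v) ^ 2) - cB (len v) ^ 2 := by linarith
  refine ⟨-cB (len v) / (2 * c),
    √(4 * c * (aS (len v) ^ 2 * bS (len v) ^ 2) - cB (len v) ^ 2) / (2 * c), ?_, ?_⟩
  · have := Real.sqrt_pos.mpr hd
    positivity
  · intro X
    rw [quad hs X, ← hc]
    have h1 := Real.sq_sqrt hd.le
    rw [div_pow, h1]
    field_simp
    ring

theorem nrm_of_root (v : Fin 4 → E3) (hv : AffineIndependent ℝ v) (hs : Rot (len v)) (ξ η : ℝ)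
    (hη : 0 < η) (hr : IsRoot (len v) ξ η) :
    Nrm (aN (len v) ξ η) (bN (len v) ξ η) (yN (len v) ξ η) := by
  obtain ⟨hG, hl, _⟩ := TetDim.basic v hv
  have hT := hG.1
  have hC := C_pos v hv
  have hS := hs
  obtain ⟨e1, e2⟩ := hs
  generalize len v = l at *
  have t00 := hT 0 0
  have t01 := hT 0 1
  have t02 := hT 0 2
  have t10 := hT 1 0
  have t11 := hT 1 1
  have t12 := hT 1 2
  have t20 := hT 2 0
  have t21 := hT 2 1
  have t22 := hT 2 2
  simp only [TetDim.D, TetDim.S, Matrix.cons_val] at t00 t01 t02 t10 t11 t12 t20 t21 t22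
  have p0 := hl 0
  have p1 := hl 1
  have p2 := hl 2
  have p5 := hl 5
  have mono : ∀ x y : ℝ, x < y → (x - ξ) / η < (y - ξ) / η := by
    intro x y hxy
    exact div_lt_div_of_pos_right (by linarith) hη
  refine ⟨?_, ?_, ?_, ?_, ?_, ?_⟩
  · simp only [aN, bN, yN]
    rw [← mul_div_assoc, ← mul_div_assoc, ← add_div, ← add_div, ← add_div, ← add_div]
    congr 1
    simp only [aS, bS, yS, Matrix.cons_val]
    linarith
  · -- the equation
    have h0 := hr 0
    have h1 := hr 1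
    rw [quad hS] at h0 h1
    set c := (l 0 * l 5 + l 1 ^ 2 + l 2 ^ 2) / 2 with hc
    have hB : cB l = -(2 * ξ * c) := by linear_combination h1 - h0
    have hD : aS l ^ 2 * bS l ^ 2 = c * (ξ ^ 2 + η ^ 2) := by linear_combination h0
    have hq := quadC hS ((ξ : ℂ) + η * I)
    rw [← hc, hB, hD] at hq
    have hz : ((c : ℝ) : ℂ) * ((ξ : ℂ) + η * I) ^ 2 + ((-(2 * ξ * c) : ℝ) : ℂ) * ((ξ : ℂ) + η * I) +
        ((c * (ξ ^ 2 + η ^ 2) : ℝ) : ℂ) = 0 := by
      push_cast
      linear_combination ((c : ℂ) * (η : ℂ) ^ 2) * I_sq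
    rw [hz] at hq
    have hηC : (η : ℂ) ≠ 0 := by exact_mod_cast hη.ne'
    have key : ∀ g : ℝ, (((g - ξ) / η : ℝ) : ℂ) - I = -(((ξ : ℂ) + η * I) - g) / η := by
      intro g
      push_cast
      field_simp
      ring
    simp only [aN, bN, yN]
    rw [key, key, key, key, key, key]
    field_simp
    linear_combination hq
  · simp only [aN, yN]
    apply mono
    simp only [aS, yS, Matrix.cons_val]
    linarith
  · simp only [bN, yN]
    apply mono
    simp only [bS, yS, Matrix.cons_val]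
    linarith
  · intro k hk
    simp only [aN, yN]
    apply mono
    fin_cases k
    · exact absurd rfl hk
    · simp [aS, yS]
      linarith
    · simp [aS, yS]
      linarith
    · simp [aS, yS]
      linarith
  · intro k hk
    simp only [bN, yN]
    apply mono
    fin_cases k
    · exact absurd rfl hk
    · simp [bS, yS]
      linarith
    · simp [bS, yS]
      linarith
    · simp [bS, yS]
      linarith

end Pool.Agent.TetRot
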