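import Pool.Agent.TetRot.NormDefs
import Pool.Agent.TetDim.BasicG

/-! # The dihedral angles in the coordinates (package Z2, helper37) -/

set_option autoImplicit false

open Complex
open Pool.Agent.TetRel

namespace Pool.Agent.TetRot

/-- the volume in terms of the quadratic -/
lemma P_eq {l : Fin 6 → ℝ} (hs : Rot l) {ξ η : ℝ} (hr : IsRoot l ξ η) :
    TetDim.P l = (8 * ((l 0 * l 5 + l 1 ^ 2 + l 2 ^ 2) / 2) * η) ^ 2 := by
  obtain ⟨h4, h3⟩ := hs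
  have e0 := hr 0
  have e1 := hr 1
  have e2 := hr (-1)
  simp only [aS, bS, yS, ← h3, ← h4, Matrix.cons_val_zero, Matrix.cons_val_one, Matrix.cons_val]
    at e0 e1 e2
  set C := (l 0 * l 5 + l 1 ^ 2 + l 2 ^ 2) / 2 with hC
  -- `C (ξ² + η²) = D`, `-2 C ξ = B`
  have hD : C * (ξ ^ 2 + η ^ 2) = (l 1 + l 2 + l 5) ^ 2 * (l 1 + l 2 + l 0) ^ 2 / 16 := by
    linear_combination - e0
  have hB : C * ξ = - ((l 1 + l 2) * ((l 0 + l 5) / 2 + l 2) * ((l 0 + l 5) / 2 + l 1) -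
      2 * ((l 1 + l 2 + l 5) / 2) * ((l 1 + l 2 + l 0) / 2) *
        ((l 1 + l 2 + l 5) / 2 + (l 1 + l 2 + l 0) / 2)) / 2 := by
    linear_combination (e1 - e2) / 4
  have h1 : (8 * C * η) ^ 2 = 64 * C * (C * (ξ ^ 2 + η ^ 2)) - 64 * (C * ξ) ^ 2 := by ring
  rw [h1, hD, hB, hC, TetDim.P, ← h3, ← h4]
  ring

/-- the real and imaginary part of `(A₁ - x)(A₂ - x)(Y₁ - x̄)(Y₂ - x̄)` -/
lemma im_re (A1 A2 Y1 Y2 ξ η : ℝ) :
    (((A1 : ℂ) - (ξ + η * I)) * ((A2 : ℂ) - (ξ + η * I)) * (((Y1 : ℂ) - (ξ - η * I)) *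
      ((Y2 : ℂ) - (ξ - η * I)))).im =
      η * ((2 * ξ - (A1 + A2)) * (Y1 * Y2 - (ξ ^ 2 + η ^ 2)) -
        (2 * ξ - (Y1 + Y2)) * (A1 * A2 - (ξ ^ 2 + η ^ 2))) ∧
    (((A1 : ℂ) - (ξ + η * I)) * ((A2 : ℂ) - (ξ + η * I)) * (((Y1 : ℂ) - (ξ - η * I)) *
      ((Y2 : ℂ) - (ξ - η * I)))).re =
      (2 * ξ - (A1 + A2)) * (2 * ξ - (Y1 + Y2)) * (ξ ^ 2 + η ^ 2) +
        (A1 * A2 - (ξ ^ 2 + η ^ 2)) * (Y1 * Y2 - (ξ ^ 2 + η ^ 2)) +
        ((2 * ξ - (A1 + A2)) * (Y1 * Y2 - (ξ ^ 2 + η ^ 2)) +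
          (2 * ξ - (Y1 + Y2)) * (A1 * A2 - (ξ ^ 2 + η ^ 2))) * ξ := by
  constructor
  · simp only [Complex.mul_im, Complex.mul_re, Complex.sub_re, Complex.sub_im, Complex.add_re,
      Complex.add_im, Complex.ofReal_re, Complex.ofReal_im, Complex.I_re, Complex.I_im]
    ring
  · simp only [Complex.mul_im, Complex.mul_re, Complex.sub_re, Complex.sub_im, Complex.add_re,
      Complex.add_im, Complex.ofReal_re, Complex.ofReal_im, Complex.I_re, Complex.I_im]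
    ring

lemma zz_eq (A ξ η : ℝ) (hη : 0 < η) :
    zz ((A - ξ) / η) = ((A : ℂ) - (ξ - η * I)) / ((A : ℂ) - (ξ + η * I)) := by
  have hη' : (η : ℂ) ≠ 0 := by exact_mod_cast hη.ne'
  unfold zz
  push_cast
  have e1 : ((A : ℂ) - ξ) / η + I = ((A : ℂ) - (ξ - η * I)) / η := by
    field_simp; ring
  have e2 : ((A : ℂ) - ξ) / η - I = ((A : ℂ) - (ξ + η * I)) / η := by
    field_simp; ring
  rw [e1, e2, div_div_div_cancel_right₀ hη']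

lemma sub_ne (A ξ η : ℝ) (hη : 0 < η) : ((A : ℂ) - (ξ + η * I)) ≠ 0 ∧
    ((A : ℂ) - (ξ - η * I)) ≠ 0 := by
  constructor
  · intro h
    have := congrArg Complex.im h
    simp at this
    exact hη.ne' this
  · intro h
    have := congrArg Complex.im h
    simp at this
    exact hη.ne' this

/-- the core: if `cos θ Im Q + sin θ Re Q = 0` then `e^{2 i θ} = Q̄ / Q` -/
lemma core (A1 A2 Y1 Y2 ξ η θ : ℝ) (hη : 0 < η)
    (h : Real.cos θ * (η * ((2 * ξ - (A1 + A2)) * (Y1 * Y2 - (ξ ^ 2 + η ^ 2)) -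
        (2 * ξ - (Y1 + Y2)) * (A1 * A2 - (ξ ^ 2 + η ^ 2)))) +
      Real.sin θ * ((2 * ξ - (A1 + A2)) * (2 * ξ - (Y1 + Y2)) * (ξ ^ 2 + η ^ 2) +
        (A1 * A2 - (ξ ^ 2 + η ^ 2)) * (Y1 * Y2 - (ξ ^ 2 + η ^ 2)) +
        ((2 * ξ - (A1 + A2)) * (Y1 * Y2 - (ξ ^ 2 + η ^ 2)) +
          (2 * ξ - (Y1 + Y2)) * (A1 * A2 - (ξ ^ 2 + η ^ 2))) * ξ) = 0) :
    exp (2 * I * θ) = zz ((A1 - ξ) / η) * zz ((A2 - ξ) / η) /
      (zz ((Y1 - ξ) / η) * zz ((Y2 - ξ) / η)) := by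
  obtain ⟨hi, hre⟩ := im_re A1 A2 Y1 Y2 ξ η
  set Q : ℂ := (((A1 : ℂ) - (ξ + η * I)) * ((A2 : ℂ) - (ξ + η * I)) *
    (((Y1 : ℂ) - (ξ - η * I)) * ((Y2 : ℂ) - (ξ - η * I)))) with hQ
  have hconj : starRingEnd ℂ Q = ((A1 : ℂ) - (ξ - η * I)) * ((A2 : ℂ) - (ξ - η * I)) *
    (((Y1 : ℂ) - (ξ + η * I)) * ((Y2 : ℂ) - (ξ + η * I))) := by
    rw [hQ]
    simp only [map_mul, map_sub, map_add, Complex.conj_ofReal, Complex.conj_I]
    ring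
  have hE : exp (θ * I) = (Real.cos θ : ℂ) + (Real.sin θ : ℂ) * I := by
    rw [Complex.exp_mul_I]; push_cast; ring
  have hEn : exp (θ * I) * starRingEnd ℂ (exp (θ * I)) = 1 := by
    rw [← Complex.exp_conj, ← Complex.exp_add]
    simp
  have him : (exp (θ * I) * Q).im = 0 := by
    rw [hE, Complex.mul_im]
    simp only [Complex.add_re, Complex.add_im, Complex.mul_re, Complex.mul_im, Complex.ofReal_re,
      Complex.ofReal_im, Complex.I_re, Complex.I_im]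
    rw [hi, hre]
    linear_combination h
  have hreal : starRingEnd ℂ (exp (θ * I) * Q) = exp (θ * I) * Q := Complex.conj_eq_iff_im.2 him
  have hQ0 : Q ≠ 0 := by
    rw [hQ]
    exact mul_ne_zero (mul_ne_zero (sub_ne A1 ξ η hη).1 (sub_ne A2 ξ η hη).1)
      (mul_ne_zero (sub_ne Y1 ξ η hη).2 (sub_ne Y2 ξ η hη).2)
  have h2 : exp (2 * I * θ) * Q = starRingEnd ℂ Q := by
    have e1 : exp (2 * I * θ) = exp (θ * I) * exp (θ * I) := by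
      rw [← Complex.exp_add]; congr 1; ring
    rw [e1, mul_assoc, ← hreal, map_mul, ← mul_assoc, hEn, one_mul]
  have h3 : exp (2 * I * θ) = starRingEnd ℂ Q / Q := by
    rw [eq_div_iff hQ0]; exact h2
  rw [h3, hconj, hQ, zz_eq _ _ _ hη, zz_eq _ _ _ hη, zz_eq _ _ _ hη, zz_eq _ _ _ hη]
  have n1 := sub_ne A1 ξ η hη
  have n2 := sub_ne A2 ξ η hη
  have n3 := sub_ne Y1 ξ η hη
  have n4 := sub_ne Y2 ξ η hη
  field_simp [n1.1, n1.2, n2.1, n2.2, n3.1, n3.2, n4.1, n4.2]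

/-- from the angle function to the core -/
lemma core' (l : Fin 6 → ℝ) (hg : TetDim.Good l) (hs : Rot l) (ξ η : ℝ) (hη : 0 < η)
    (hr : IsRoot l ξ η) (e : Fin 6) (A1 A2 Y1 Y2 B D : ℝ)
    (hB : B = yS l 1 * yS l 2 * yS l 3 - 2 * aS l * bS l * (aS l + bS l))
    (hD : D = aS l ^ 2 * bS l ^ 2)
    (hid : TetDim.N l e * ((-B - (l 0 * l 5 + l 1 ^ 2 + l 2 ^ 2) / 2 * (A1 + A2)) *
        ((l 0 * l 5 + l 1 ^ 2 + l 2 ^ 2) / 2 * (Y1 * Y2) - D) -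
        (-B - (l 0 * l 5 + l 1 ^ 2 + l 2 ^ 2) / 2 * (Y1 + Y2)) *
        ((l 0 * l 5 + l 1 ^ 2 + l 2 ^ 2) / 2 * (A1 * A2) - D)) +
      16 * l e * ((-B - (l 0 * l 5 + l 1 ^ 2 + l 2 ^ 2) / 2 * (A1 + A2)) *
        (-B - (l 0 * l 5 + l 1 ^ 2 + l 2 ^ 2) / 2 * (Y1 + Y2)) * D +
        (l 0 * l 5 + l 1 ^ 2 + l 2 ^ 2) / 2 *
          ((l 0 * l 5 + l 1 ^ 2 + l 2 ^ 2) / 2 * (A1 * A2) - D) *
          ((l 0 * l 5 + l 1 ^ 2 + l 2 ^ 2) / 2 * (Y1 * Y2) - D) +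
        ((-B - (l 0 * l 5 + l 1 ^ 2 + l 2 ^ 2) / 2 * (A1 + A2)) *
          ((l 0 * l 5 + l 1 ^ 2 + l 2 ^ 2) / 2 * (Y1 * Y2) - D) +
        (-B - (l 0 * l 5 + l 1 ^ 2 + l 2 ^ 2) / 2 * (Y1 + Y2)) *
          ((l 0 * l 5 + l 1 ^ 2 + l 2 ^ 2) / 2 * (A1 * A2) - D)) * (-B / 2)) = 0) :
    exp (2 * I * (TetDim.Th l e : ℝ)) = zz ((A1 - ξ) / η) * zz ((A2 - ξ) / η) /
      (zz ((Y1 - ξ) / η) * zz ((Y2 - ξ) / η)) := by
  obtain ⟨hl, hF⟩ := TetDim.good_pos hg.1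
  obtain ⟨-, hcos, hsin⟩ := TetDim.Th_facts hg e
  have hP := P_eq hs hr
  have e0 := hr 0
  have e1 := hr 1
  have e2 := hr (-1)
  have hC0 : 0 < (l 0 * l 5 + l 1 ^ 2 + l 2 ^ 2) / 2 := by
    have := hl 0; have := hl 5; have := hl 1; positivity
  set C := (l 0 * l 5 + l 1 ^ 2 + l 2 ^ 2) / 2 with hC
  have hsum : 2 * aS l + 2 * bS l = yS l 0 + yS l 1 + yS l 2 + yS l 3 := by
    simp only [aS, bS, yS, Matrix.cons_val_zero, Matrix.cons_val_one, Matrix.cons_val]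
    ring
  have hy0 : yS l 0 = 0 := rfl
  rw [hy0] at e0 e1 e2 hsum
  have hDp : C * (ξ ^ 2 + η ^ 2) = D := by
    rw [hD]; linear_combination - e0
  have hBp : C * ξ = - B / 2 := by
    rw [hB]
    linear_combination (e1 - e2) / 4 + (1 / 2 : ℝ) * hsum
  have hsq : √(TetDim.P l) = 8 * C * η := by
    rw [hP]; exact Real.sqrt_sq (by positivity)
  have hW : 0 < √(TetDim.F l (ec e) * TetDim.F l (ed e)) :=
    Real.sqrt_pos.2 (mul_pos (hF _) (hF _))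
  apply core A1 A2 Y1 Y2 ξ η _ hη
  rw [hcos, hsin, hsq]
  set W := √(TetDim.F l (ec e) * TetDim.F l (ed e)) with hWdef
  set NN := TetDim.N l e with hNN
  have key : NN * ((2 * ξ - (A1 + A2)) * (Y1 * Y2 - (ξ ^ 2 + η ^ 2)) -
        (2 * ξ - (Y1 + Y2)) * (A1 * A2 - (ξ ^ 2 + η ^ 2))) +
      16 * l e * C * ((2 * ξ - (A1 + A2)) * (2 * ξ - (Y1 + Y2)) * (ξ ^ 2 + η ^ 2) +
        (A1 * A2 - (ξ ^ 2 + η ^ 2)) * (Y1 * Y2 - (ξ ^ 2 + η ^ 2)) +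
        ((2 * ξ - (A1 + A2)) * (Y1 * Y2 - (ξ ^ 2 + η ^ 2)) +
          (2 * ξ - (Y1 + Y2)) * (A1 * A2 - (ξ ^ 2 + η ^ 2))) * ξ) = 0 := by
    have hC2 : C ^ 2 ≠ 0 := (pow_pos hC0 2).ne'
    apply mul_left_cancel₀ hC2
    rw [mul_zero]
    have f1 : C ^ 2 * (NN * ((2 * ξ - (A1 + A2)) * (Y1 * Y2 - (ξ ^ 2 + η ^ 2)) -
        (2 * ξ - (Y1 + Y2)) * (A1 * A2 - (ξ ^ 2 + η ^ 2))) +
      16 * l e * C * ((2 * ξ - (A1 + A2)) * (2 * ξ - (Y1 + Y2)) * (ξ ^ 2 + η ^ 2) +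
        (A1 * A2 - (ξ ^ 2 + η ^ 2)) * (Y1 * Y2 - (ξ ^ 2 + η ^ 2)) +
        ((2 * ξ - (A1 + A2)) * (Y1 * Y2 - (ξ ^ 2 + η ^ 2)) +
          (2 * ξ - (Y1 + Y2)) * (A1 * A2 - (ξ ^ 2 + η ^ 2))) * ξ)) =
      NN * ((2 * (C * ξ) - C * (A1 + A2)) * (C * (Y1 * Y2) - C * (ξ ^ 2 + η ^ 2)) -
        (2 * (C * ξ) - C * (Y1 + Y2)) * (C * (A1 * A2) - C * (ξ ^ 2 + η ^ 2))) +
      16 * l e * ((2 * (C * ξ) - C * (A1 + A2)) * (2 * (C * ξ) - C * (Y1 + Y2)) *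
        (C * (ξ ^ 2 + η ^ 2)) +
        C * (C * (A1 * A2) - C * (ξ ^ 2 + η ^ 2)) * (C * (Y1 * Y2) - C * (ξ ^ 2 + η ^ 2)) +
        ((2 * (C * ξ) - C * (A1 + A2)) * (C * (Y1 * Y2) - C * (ξ ^ 2 + η ^ 2)) +
          (2 * (C * ξ) - C * (Y1 + Y2)) * (C * (A1 * A2) - C * (ξ ^ 2 + η ^ 2))) * (C * ξ)) := by
      ring
    rw [f1, hDp, hBp]
    have f2 : 2 * (-B / 2) = -B := by ring
    rw [f2]
    exact hid
  have hW' : W ≠ 0 := hW.ne'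
  field_simp
  linear_combination η * key

theorem exp_dih (v : Fin 4 → E3) (hv : AffineIndependent ℝ v) (hs : Rot (len v)) (ξ η : ℝ)
    (hη : 0 < η) (hr : IsRoot (len v) ξ η) (e : Fin 6) :
    exp (2 * I * dih v e) =
      ![zz (bN (len v) ξ η) ^ 2 / (zz (yN (len v) ξ η 2) * zz (yN (len v) ξ η 3)),
        zz (aN (len v) ξ η) * zz (bN (len v) ξ η) / (zz (yN (len v) ξ η 1) * zz (yN (len v) ξ η 3)),
        zz (aN (len v) ξ η) * zz (bN (len v) ξ η) / (zz (yN (len v) ξ η 1) * zz (yN (len v) ξ η 2)),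
        zz (aN (len v) ξ η) * zz (bN (len v) ξ η) / (zz (yN (len v) ξ η 1) * zz (yN (len v) ξ η 2)),
        zz (aN (len v) ξ η) * zz (bN (len v) ξ η) / (zz (yN (len v) ξ η 1) * zz (yN (len v) ξ η 3)),
        zz (aN (len v) ξ η) ^ 2 / (zz (yN (len v) ξ η 2) * zz (yN (len v) ξ η 3))] e := by
  obtain ⟨hg, -, -, hd, -⟩ := TetDim.basic v hv
  rw [hd e]
  set l := len v with hl
  obtain ⟨h4, h3⟩ := hs
  have hs : Rot l := ⟨h4, h3⟩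
  fin_cases e
  · have := core' l hg hs ξ η hη hr 0 (bS l) (bS l) (yS l 2) (yS l 3) _ _ rfl rfl (by
      simp only [aS, bS, yS, TetDim.N, TetDim.num, ← h3, ← h4, Matrix.cons_val_zero,
        Matrix.cons_val_one, Matrix.cons_val]
      ring)
    simpa [pow_two, aN, bN, yN] using this
  · have := core' l hg hs ξ η hη hr 1 (aS l) (bS l) (yS l 1) (yS l 3) _ _ rfl rfl (by
      simp only [aS, bS, yS, TetDim.N, TetDim.num, ← h3, ← h4, Matrix.cons_val_zero,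
        Matrix.cons_val_one, Matrix.cons_val]
      ring)
    simpa [aN, bN, yN] using this
  · have := core' l hg hs ξ η hη hr 2 (aS l) (bS l) (yS l 1) (yS l 2) _ _ rfl rfl (by
      simp only [aS, bS, yS, TetDim.N, TetDim.num, ← h3, ← h4, Matrix.cons_val_zero,
        Matrix.cons_val_one, Matrix.cons_val]
      ring)
    simpa [aN, bN, yN] using this
  · have := core' l hg hs ξ η hη hr 3 (aS l) (bS l) (yS l 1) (yS l 2) _ _ rfl rfl (by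
      simp only [aS, bS, yS, TetDim.N, TetDim.num, ← h3, ← h4, Matrix.cons_val_zero,
        Matrix.cons_val_one, Matrix.cons_val]
      ring)
    simpa [aN, bN, yN] using this
  · have := core' l hg hs ξ η hη hr 4 (aS l) (bS l) (yS l 1) (yS l 3) _ _ rfl rfl (by
      simp only [aS, bS, yS, TetDim.N, TetDim.num, ← h3, ← h4, Matrix.cons_val_zero,
        Matrix.cons_val_one, Matrix.cons_val]
      ring)
    simpa [aN, bN, yN] using this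
  · have := core' l hg hs ξ η hη hr 5 (aS l) (aS l) (yS l 2) (yS l 3) _ _ rfl rfl (by
      simp only [aS, bS, yS, TetDim.N, TetDim.num, ← h3, ← h4, Matrix.cons_val_zero,
        Matrix.cons_val_one, Matrix.cons_val]
      ring)
    simpa [pow_two, aN, bN, yN] using this

end Pool.Agent.TetRot
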