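import Mathlib
import Pool.Agent.TetRel.Main
import Pool.Agent.TetRot.Ultra
import Pool.Agent.TetRot.UltraN
import Pool.Agent.TetRot.NormZ
import Pool.Agent.TetRot.AngleZ

/-! # The linear relation given by a place (helper94) -/

set_option autoImplicit false

open Complex
open Pool.Agent.TetRel

namespace Pool.Agent.TetRot

theorem zz_ne (g : ℝ) : zz g ≠ 0 := div_ne_zero (ne_m g) (ne_p g)

theorem v_zz (p : Place) (g : ℝ) : p.v (zz g) = - uu p g := by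
  unfold zz uu vp vm
  rw [p.div _ _ (ne_m g) (ne_p g)]
  ring

theorem v_zz_mul (p : Place) (x y z w : ℝ) :
    p.v (zz x * zz y / (zz z * zz w)) = - uu p x - uu p y + uu p z + uu p w := by
  rw [p.div _ _ (mul_ne_zero (zz_ne x) (zz_ne y)) (mul_ne_zero (zz_ne z) (zz_ne w)),
    p.mul _ _ (zz_ne x) (zz_ne y), p.mul _ _ (zz_ne z) (zz_ne w), v_zz, v_zz, v_zz, v_zz]
  ring

theorem v_zz_sq (p : Place) (x z w : ℝ) :
    p.v (zz x ^ 2 / (zz z * zz w)) = - 2 * uu p x + uu p z + uu p w := by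
  rw [pow_two, v_zz_mul]
  ring

theorem prod_exp (v : Fin 4 → E3) (n : Fin 6 → ℕ)
    (hn : ∑ e, (n e : ℝ) * dih v e = 2 * Real.pi) :
    ∏ e, exp (2 * I * dih v e) ^ (n e) = 1 := by
  have h1 : ∀ e, exp (2 * I * dih v e) ^ (n e) = exp ((n e : ℂ) * (2 * I * dih v e)) :=
    fun e => (Complex.exp_nat_mul _ _).symm
  simp only [h1]
  rw [← Complex.exp_sum]
  have h2 : ∑ e, (n e : ℂ) * (2 * I * dih v e) = 2 * I * ((2 * Real.pi : ℝ) : ℂ) := by
    rw [← hn, Complex.ofReal_sum, Finset.mul_sum]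
    refine Finset.sum_congr rfl fun e _ => ?_
    push_cast
    ring
  rw [h2, Complex.exp_eq_one_iff]
  refine ⟨2, ?_⟩
  push_cast
  ring

/-! ## Z3 (RelZ) -/
theorem rel_type (v : Fin 4 → E3) (hv : AffineIndependent ℝ v) (hs : Rot (len v)) (ξ η : ℝ)
    (hη : 0 < η) (hr : IsRoot (len v) ξ η) (n : Fin 6 → ℕ)
    (hn : ∑ e, (n e : ℝ) * dih v e = 2 * Real.pi) (p : Place) :
    2 * (uu p (aN (len v) ξ η) : ℝ) * aS (fun e => n e) + 2 * (uu p (bN (len v) ξ η) : ℝ) * bS (fun e => n e)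
      = ∑ j, (uu p (yN (len v) ξ η j) : ℝ) * yS (fun e => n e) j := by
  have h1 := congrArg p.v (prod_exp v n hn)
  rw [p.one, p.prod _ _ fun e _ => pow_ne_zero _ (Complex.exp_ne_zero _)] at h1
  have h2 : ∀ e, p.v (exp (2 * I * dih v e) ^ (n e)) = n e * p.v (exp (2 * I * dih v e)) :=
    fun e => p.pow _ (Complex.exp_ne_zero _) _
  simp only [h2] at h1
  rw [Fin.sum_univ_six] at h1
  simp only [exp_dih v hv hs ξ η hη hr] at h1
  simp only [Matrix.cons_val, v_zz_mul, v_zz_sq] at h1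
  have h3 := congrArg (fun q : ℚ => (q : ℝ)) h1
  simp only [Rat.cast_zero, Rat.cast_add, Rat.cast_mul, Rat.cast_neg, Rat.cast_sub,
    Rat.cast_natCast, Rat.cast_ofNat] at h3
  rw [Fin.sum_univ_four]
  simp only [aS, bS, yS, Matrix.cons_val]
  linear_combination (-1 / 2 : ℝ) * h3

theorem rel_of_tiles (v : Fin 4 → E3) (hv : AffineIndependent ℝ v) (hs : Rot (len v)) (ξ η : ℝ)
    (hη : 0 < η) (hr : IsRoot (len v) ξ η) (hT : Tiles v) (p : Place) :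
    Rel p (aN (len v) ξ η) (bN (len v) ξ η) (yN (len v) ξ η) := by
  obtain ⟨k, n, c, -, -, htype, -, hlen⟩ := cone v hv hT
  have hN := nrm_of_root v hv hs ξ η hη hr
  have hw := wt_p p hN
  have hw' := wt_m p hN
  set A := uu p (aN (len v) ξ η) with hA
  set B := uu p (bN (len v) ξ η) with hB
  set Y : Fin 4 → ℚ := fun j => uu p (yN (len v) ξ η j) with hY
  have hsum : 2 * A + 2 * B = ∑ j, Y j := by
    rw [hA, hB]
    simp only [hY, uu, Finset.sum_sub_distrib]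
    linear_combination hw - hw'
  have hsum' : 2 * (A : ℝ) + 2 * (B : ℝ) = (Y 0 : ℝ) + Y 1 + Y 2 + Y 3 := by
    rw [Fin.sum_univ_four] at hsum
    exact_mod_cast hsum
  have hrel : 2 * (A : ℝ) * aS (len v) + 2 * (B : ℝ) * bS (len v) =
      ∑ j, (Y j : ℝ) * yS (len v) j := by
    have ht : ∀ i, 2 * (A : ℝ) * aS (fun e => n i e) + 2 * (B : ℝ) * bS (fun e => n i e) =
        ∑ j, (Y j : ℝ) * yS (fun e => n i e) j := fun i =>
      rel_type v hv hs ξ η hη hr (n i) (htype i) p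
    have ht' := Finset.sum_congr (rfl : (Finset.univ : Finset (Fin k)) = Finset.univ)
      fun i _ => congrArg (fun z : ℝ => c i * z) (ht i)
    simp only [Fin.sum_univ_four, aS, bS, yS, Matrix.cons_val] at ht' ⊢
    simp only [hlen]
    have e1 : ∀ e f : Fin 6, ∑ i, c i * (n i e : ℝ) + ∑ i, c i * (n i f : ℝ) =
        ∑ i, (c i * (n i e : ℝ) + c i * (n i f : ℝ)) := fun e f => Finset.sum_add_distrib.symm
    have e2 : ∑ i, c i * (2 * (A : ℝ) * (((n i 1 : ℝ) + n i 2 + n i 3 + n i 4) / 4 + n i 5 / 2) +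
        2 * (B : ℝ) * (((n i 1 : ℝ) + n i 2 + n i 3 + n i 4) / 4 + n i 0 / 2)) =
        2 * (A : ℝ) * ((∑ i, c i * (n i 1 : ℝ) + ∑ i, c i * (n i 2 : ℝ) + ∑ i, c i * (n i 3 : ℝ) +
          ∑ i, c i * (n i 4 : ℝ)) / 4 + (∑ i, c i * (n i 5 : ℝ)) / 2) +
        2 * (B : ℝ) * ((∑ i, c i * (n i 1 : ℝ) + ∑ i, c i * (n i 2 : ℝ) + ∑ i, c i * (n i 3 : ℝ) +
          ∑ i, c i * (n i 4 : ℝ)) / 4 + (∑ i, c i * (n i 0 : ℝ)) / 2) := by
      simp only [Finset.sum_div, ← Finset.sum_add_distrib, Finset.mul_sum]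
      exact Finset.sum_congr rfl fun i _ => by ring
    have e3 : ∑ i, c i * ((Y 0 : ℝ) * 0 + (Y 1 : ℝ) * (((n i 1 : ℝ) + n i 2 + n i 3 + n i 4) / 2) +
        (Y 2 : ℝ) * (((n i 0 : ℝ) + n i 5) / 2 + ((n i 2 : ℝ) + n i 3) / 2) +
        (Y 3 : ℝ) * (((n i 0 : ℝ) + n i 5) / 2 + ((n i 1 : ℝ) + n i 4) / 2)) =
        (Y 0 : ℝ) * 0 + (Y 1 : ℝ) * ((∑ i, c i * (n i 1 : ℝ) + ∑ i, c i * (n i 2 : ℝ) +
          ∑ i, c i * (n i 3 : ℝ) + ∑ i, c i * (n i 4 : ℝ)) / 2) +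
        (Y 2 : ℝ) * ((∑ i, c i * (n i 0 : ℝ) + ∑ i, c i * (n i 5 : ℝ)) / 2 +
          (∑ i, c i * (n i 2 : ℝ) + ∑ i, c i * (n i 3 : ℝ)) / 2) +
        (Y 3 : ℝ) * ((∑ i, c i * (n i 0 : ℝ) + ∑ i, c i * (n i 5 : ℝ)) / 2 +
          (∑ i, c i * (n i 1 : ℝ) + ∑ i, c i * (n i 4 : ℝ)) / 2) := by
      rw [mul_zero, zero_add]
      simp only [Finset.sum_div, ← Finset.sum_add_distrib, Finset.mul_sum]
      exact Finset.sum_congr rfl fun i _ => by ring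
    rw [e2, e3] at ht'
    exact ht'
  unfold Rel
  change 2 * (A : ℝ) * aN (len v) ξ η + 2 * (B : ℝ) * bN (len v) ξ η =
    ∑ j, (Y j : ℝ) * yN (len v) ξ η j
  rw [Fin.sum_univ_four] at hrel ⊢
  simp only [aN, bN, yN]
  have hη' : η ≠ 0 := hη.ne'
  field_simp
  linear_combination hrel - ξ * hsum'

end Pool.Agent.TetRot
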