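import Mathlib
import Pool.Agent.TetRot.Defs2
import Pool.Agent.TetRot.NormZ

/-!
# The shapes with a place of type I

`shape`: the tetrahedron is a Hill tetrahedron or belongs to the second family. `alg_len`: if the
normalised coordinates have algebraic ratios, so have the edge lengths.
-/

set_option autoImplicit false

open Complex
open Pool.Agent.TetRel

namespace Pool.Agent.TetRot

theorem main_eq {l : Fin 6 → ℝ} (hs : Rot l) {ξ η : ℝ} (hη : 0 < η) (hr : IsRoot l ξ η)
    {u : ℝ} (h2 : 4 * (u / η) ^ 2 = (aN l ξ η ^ 2 + 1) * (bN l ξ η ^ 2 + 1)) :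
    (4 * ((l 0 * l 5 + l 1 ^ 2 + l 2 ^ 2) / 2) * (aS l ^ 2 * bS l ^ 2) - cB l ^ 2) * u ^ 2 =
      ((aS l - yS l 0) * (aS l - yS l 1) * (aS l - yS l 2) * (aS l - yS l 3)) *
      ((bS l - yS l 0) * (bS l - yS l 1) * (bS l - yS l 2) * (bS l - yS l 3)) := by
  have h0 := hr 0
  have h1 := hr 1
  have ha := hr (aS l)
  have hb := hr (bS l)
  rw [quad hs] at h0 h1
  set c := (l 0 * l 5 + l 1 ^ 2 + l 2 ^ 2) / 2 with hc
  have hB : cB l = -(2 * ξ * c) := by linear_combination h1 - h0
  have hD : aS l ^ 2 * bS l ^ 2 = c * (ξ ^ 2 + η ^ 2) := by linear_combination h0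
  have h3 : 4 * u ^ 2 * η ^ 2 = ((aS l - ξ) ^ 2 + η ^ 2) * ((bS l - ξ) ^ 2 + η ^ 2) := by
    simp only [aN, bN] at h2
    field_simp at h2
    linear_combination h2
  rw [hB, hD]
  rw [sub_self] at ha hb
  have ha' : (aS l - yS l 0) * (aS l - yS l 1) * (aS l - yS l 2) * (aS l - yS l 3) =
      -(c * ((aS l - ξ) ^ 2 + η ^ 2)) := by linear_combination -ha
  have hb' : (bS l - yS l 0) * (bS l - yS l 1) * (bS l - yS l 2) * (bS l - yS l 3) =
      -(c * ((bS l - ξ) ^ 2 + η ^ 2)) := by linear_combination -hb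
  rw [ha', hb']
  linear_combination c ^ 2 * h3

theorem shape (v : Fin 4 → E3) (hv : AffineIndependent ℝ v) (hs : Rot (len v)) (ξ η : ℝ)
    (hη : 0 < η) (hr : IsRoot (len v) ξ η) (j k : Fin 4) (j0 : j ≠ 0) (k0 : k ≠ 0) (jk : j ≠ k)
    (h1 : yN (len v) ξ η j - aN (len v) ξ η = yN (len v) ξ η k - bN (len v) ξ η)
    (h2 : 4 * (yN (len v) ξ η j - aN (len v) ξ η) ^ 2 =
      (aN (len v) ξ η ^ 2 + 1) * (bN (len v) ξ η ^ 2 + 1)) :
    HillL (len v) ∨ ReggeL (len v) := by
  obtain ⟨_, hl, _⟩ := TetDim.basic v hv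
  generalize len v = l at *
  have e : ∀ x y : ℝ, (x - ξ) / η - (y - ξ) / η = (x - y) / η := by
    intro x y
    ring
  have e3 : yN l ξ η j - aN l ξ η = (yS l j - aS l) / η := e _ _
  have e4 : yN l ξ η k - bN l ξ η = (yS l k - bS l) / η := e _ _
  rw [e3] at h1 h2
  rw [e4] at h1
  have h1' : yS l j - aS l = yS l k - bS l := by
    field_simp at h1
    exact h1
  have hm := main_eq hs hη hr h2
  obtain ⟨q1, q2⟩ := hs
  have p0 := hl 0
  have p1 := hl 1
  have p2 := hl 2
  have p5 := hl 5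
  have fin : ∀ u H : ℝ, 0 < u → u ^ 4 * H ^ 2 = 0 → H = 0 := by
    intro u H hu h
    rcases mul_eq_zero.mp h with h | h
    · exact absurd h (by positivity)
    · exact pow_eq_zero_iff (two_ne_zero) |>.mp h
  fin_cases j <;> fin_cases k
  · exact absurd rfl j0
  · exact absurd rfl j0
  · exact absurd rfl j0
  · exact absurd rfl j0
  · exact absurd rfl k0
  · exact absurd rfl jk
  · -- (1,2)
    left; left
    simp only [Fin.isValue, Fin.reduceFinMk, Fin.mk_one, Fin.zero_eta] at h1' hm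
    simp only [cB, aS, bS, yS, Matrix.cons_val] at h1' hm
    rw [← q1, ← q2] at h1' hm
    have h5 : l 5 = l 1 := by linarith
    rw [h5] at hm
    refine ⟨h5, ?_⟩
    have := fin (l 2) (3 * l 1 ^ 2 + l 0 ^ 2 - 3 * l 2 ^ 2) p2 (by linear_combination (-256) * hm)
    linarith
  · -- (1,3)
    left; right; left
    simp only [Fin.isValue, Fin.reduceFinMk, Fin.mk_one, Fin.zero_eta] at h1' hm
    simp only [cB, aS, bS, yS, Matrix.cons_val] at h1' hm
    rw [← q1, ← q2] at h1' hm
    have h5 : l 5 = l 2 := by linarith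
    rw [h5] at hm
    refine ⟨h5, ?_⟩
    have := fin (l 1) (3 * l 2 ^ 2 + l 0 ^ 2 - 3 * l 1 ^ 2) p1 (by linear_combination (-256) * hm)
    linarith
  · exact absurd rfl k0
  · -- (2,1)
    left; right; right; left
    simp only [Fin.isValue, Fin.reduceFinMk, Fin.mk_one, Fin.zero_eta] at h1' hm
    simp only [cB, aS, bS, yS, Matrix.cons_val] at h1' hm
    rw [← q1, ← q2] at h1' hm
    have h5 : l 0 = l 1 := by linarith
    rw [h5] at hm
    refine ⟨h5, ?_⟩
    have := fin (l 2) (3 * l 1 ^ 2 + l 5 ^ 2 - 3 * l 2 ^ 2) p2 (by linear_combination (-256) * hm)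
    linarith
  · exact absurd rfl jk
  · -- (2,3)
    right
    simp only [Fin.isValue, Fin.reduceFinMk, Fin.mk_one, Fin.zero_eta] at h1' hm
    simp only [cB, aS, bS, yS, Matrix.cons_val] at h1' hm
    rw [← q1, ← q2] at h1' hm
    have h5 : l 0 = l 5 + 2 * (l 1 - l 2) := by linarith
    refine ⟨Or.inl (by linarith), ?_⟩
    rw [h5] at hm
    have := fin (l 0 + l 5) (16 * (l 1 ^ 2 - l 1 * l 2 + l 2 ^ 2) - 3 * (l 0 + l 5) ^ 2)
      (by linarith) (by rw [h5]; linear_combination (-65536) * hm)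
    linarith
  · exact absurd rfl k0
  · -- (3,1)
    left; right; right; right
    simp only [Fin.isValue, Fin.reduceFinMk, Fin.mk_one, Fin.zero_eta] at h1' hm
    simp only [cB, aS, bS, yS, Matrix.cons_val] at h1' hm
    rw [← q1, ← q2] at h1' hm
    have h5 : l 0 = l 2 := by linarith
    rw [h5] at hm
    refine ⟨h5, ?_⟩
    have := fin (l 1) (3 * l 2 ^ 2 + l 5 ^ 2 - 3 * l 1 ^ 2) p1 (by linear_combination (-256) * hm)
    linarith
  · -- (3,2)
    right
    simp only [Fin.isValue, Fin.reduceFinMk, Fin.mk_one, Fin.zero_eta] at h1' hm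
    simp only [cB, aS, bS, yS, Matrix.cons_val] at h1' hm
    rw [← q1, ← q2] at h1' hm
    have h5 : l 0 = l 5 + 2 * (l 2 - l 1) := by linarith
    refine ⟨Or.inr (by linarith), ?_⟩
    rw [h5] at hm
    have := fin (l 0 + l 5) (16 * (l 1 ^ 2 - l 1 * l 2 + l 2 ^ 2) - 3 * (l 0 + l 5) ^ 2)
      (by linarith) (by rw [h5]; linear_combination (-65536) * hm)
    linarith
  · exact absurd rfl jk

theorem alg_len (v : Fin 4 → E3) (hv : AffineIndependent ℝ v) (hs : Rot (len v)) (ξ η : ℝ)
    (hη : 0 < η) (h : Alg (aN (len v) ξ η) (bN (len v) ξ η) (yN (len v) ξ η)) :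
    ∀ i j, IsAlgebraic ℚ (len v i / len v j) := by
  obtain ⟨_, hl, _⟩ := TetDim.basic v hv
  generalize len v = l at *
  obtain ⟨q1, q2⟩ := hs
  have p0 := hl 0
  have p1 := hl 1
  have p2 := hl 2
  have p5 := hl 5
  have hη' := hη.ne'
  have ha : aS l = (l 1 + l 2) / 2 + l 5 / 2 := by
    simp only [aS]; rw [← q1, ← q2]; ring
  have hb : bS l = (l 1 + l 2) / 2 + l 0 / 2 := by
    simp only [bS]; rw [← q1, ← q2]; ring
  have hapos : 0 < aS l := by rw [ha]; positivity
  have ha0 := hapos.ne'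
  have y0 : yS l 0 = 0 := by simp [yS]
  have y1 : yS l 1 = l 1 + l 2 := by simp only [yS, Matrix.cons_val]; rw [← q1, ← q2]; ring
  have y2 : yS l 2 = (l 0 + l 5) / 2 + l 2 := by
    simp only [yS, Matrix.cons_val]; rw [← q2]; ring
  have y3 : yS l 3 = (l 0 + l 5) / 2 + l 1 := by
    simp only [yS, Matrix.cons_val]; rw [← q1]; ring
  have e : ∀ x y : ℝ, (x - ξ) / η - (y - ξ) / η = (x - y) / η := by
    intro x y
    ring
  have h1 : ∀ t, IsAlgebraic ℚ ((yS l t - aS l) / aS l) := by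
    intro t
    have := (h t).1.neg
    simp only [yN, aN, e] at this
    have e2 : -((yS l t - aS l) / η / ((yS l 0 - aS l) / η)) = (yS l t - aS l) / aS l := by
      rw [y0]
      field_simp
      ring
    rwa [e2] at this
  have h2 : ∀ t, IsAlgebraic ℚ ((yS l t - bS l) / aS l) := by
    intro t
    have := (h t).2.neg
    simp only [yN, aN, bN, e] at this
    have e2 : -((yS l t - bS l) / η / ((yS l 0 - aS l) / η)) = (yS l t - bS l) / aS l := by
      rw [y0]
      field_simp
      ring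
    rwa [e2] at this
  have alg2 : IsAlgebraic ℚ (2 : ℝ) := by
    have := isAlgebraic_algebraMap (R := ℚ) (A := ℝ) 2
    simpa using this
  have alg1 : IsAlgebraic ℚ (1 : ℝ) := isAlgebraic_one
  have hb' : IsAlgebraic ℚ (bS l / aS l) := by
    have := (h2 0).neg
    rw [y0] at this
    have e2 : -((0 - bS l) / aS l) = bS l / aS l := by ring
    rwa [e2] at this
  have hy : ∀ t, IsAlgebraic ℚ (yS l t / aS l) := by
    intro t
    have := (h1 t).add alg1
    have e2 : (yS l t - aS l) / aS l + 1 = yS l t / aS l := by field_simp; ring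
    rwa [e2] at this
  have g5 : IsAlgebraic ℚ (l 5 / aS l) := by
    have := alg2.sub (hy 1)
    have e2 : 2 - yS l 1 / aS l = l 5 / aS l := by
      rw [y1]
      field_simp
      rw [ha]
      ring
    rwa [e2] at this
  have g0 : IsAlgebraic ℚ (l 0 / aS l) := by
    have := (alg2.mul hb').sub (hy 1)
    have e2 : 2 * (bS l / aS l) - yS l 1 / aS l = l 0 / aS l := by
      rw [y1, hb]
      field_simp
      ring
    rwa [e2] at this
  have g2 : IsAlgebraic ℚ (l 2 / aS l) := by
    have := (((hy 2).sub alg1).sub hb').add (hy 1)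
    have e2 : yS l 2 / aS l - 1 - bS l / aS l + yS l 1 / aS l = l 2 / aS l := by
      rw [y1, y2, hb]
      field_simp
      rw [ha]
      ring
    rwa [e2] at this
  have g1 : IsAlgebraic ℚ (l 1 / aS l) := by
    have := (((hy 3).sub alg1).sub hb').add (hy 1)
    have e2 : yS l 3 / aS l - 1 - bS l / aS l + yS l 1 / aS l = l 1 / aS l := by
      rw [y1, y3, hb]
      field_simp
      rw [ha]
      ring
    rwa [e2] at this
  have g : ∀ i, IsAlgebraic ℚ (l i / aS l) := by
    intro i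
    fin_cases i
    · exact g0
    · exact g1
    · exact g2
    · show IsAlgebraic ℚ (l 3 / aS l)
      rw [← q2]; exact g2
    · show IsAlgebraic ℚ (l 4 / aS l)
      rw [← q1]; exact g1
    · exact g5
  intro i j
  have h3 := (g i).mul (g j).inv
  have e2 : l i / aS l * (l j / aS l)⁻¹ = l i / l j := by
    have := (hl j).ne'
    field_simp
  rwa [e2] at h3

end Pool.Agent.TetRot
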