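import Mathlib
import Pool.Agent.TetRot.Defs2
import Pool.Agent.TetRot.GlobalCore
import Pool.Agent.TetRot.LemXCore
import Pool.Agent.TetRot.LocalAll
import Pool.Agent.TetRot.NormZ
import Pool.Agent.TetRot.RelZ
import Pool.Agent.TetRot.ShapeH
import Pool.Agent.TetRot.HillT

/-! # The final assembly (helper21): the existence of places (`EP`) and the exclusion of the second
family (`RN`) are hypotheses here -/

set_option autoImplicit false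

open Pool.Agent.TetRel

namespace Pool.Agent.TetRot

/-- Hill tetrahedra: the vertices are `P, P + a, P + a + b, P + a + b + c` in some order, where
`a, b, c` have the same length and the same inner product pairwise. -/
def Hill (v : Fin 4 → E3) : Prop :=
  ∃ τ : Equiv.Perm (Fin 4),
    ‖v (τ 1) - v (τ 0)‖ = ‖v (τ 2) - v (τ 1)‖ ∧ ‖v (τ 2) - v (τ 1)‖ = ‖v (τ 3) - v (τ 2)‖ ∧
    inner ℝ (v (τ 1) - v (τ 0)) (v (τ 2) - v (τ 1)) = inner ℝ (v (τ 2) - v (τ 1)) (v (τ 3) - v (τ 2)) ∧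
    inner ℝ (v (τ 2) - v (τ 1)) (v (τ 3) - v (τ 2)) = inner ℝ (v (τ 1) - v (τ 0)) (v (τ 3) - v (τ 2))

/-- The squares of the distances along a path. -/
theorem path_sq (P Q R S : E3) :
    dist P R ^ 2 = ‖Q - P‖ ^ 2 + ‖R - Q‖ ^ 2 + 2 * inner ℝ (Q - P) (R - Q) ∧
    dist Q S ^ 2 = ‖R - Q‖ ^ 2 + ‖S - R‖ ^ 2 + 2 * inner ℝ (R - Q) (S - R) ∧
    dist P S ^ 2 = ‖Q - P‖ ^ 2 + ‖R - Q‖ ^ 2 + ‖S - R‖ ^ 2 + 2 * inner ℝ (Q - P) (R - Q) +
      2 * inner ℝ (R - Q) (S - R) + 2 * inner ℝ (Q - P) (S - R) := by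
  have a1 : R - P = (Q - P) + (R - Q) := by abel
  have a2 : S - Q = (R - Q) + (S - R) := by abel
  have a3 : S - P = (Q - P) + ((R - Q) + (S - R)) := by abel
  refine ⟨?_, ?_, ?_⟩
  · rw [dist_comm, dist_eq_norm, a1, norm_add_sq_real]
    ring
  · rw [dist_comm, dist_eq_norm, a2, norm_add_sq_real]
    ring
  · rw [dist_comm, dist_eq_norm, a3, norm_add_sq_real, norm_add_sq_real, inner_add_right]
    ring

/-- path `P Q R S` with three equal edges, `PR = QS` and `3 PR² = 3 PQ² + PS²` -/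
theorem hill_path {v : Fin 4 → E3} (τ : Equiv.Perm (Fin 4))
    (h1 : dist (v (τ 0)) (v (τ 1)) = dist (v (τ 1)) (v (τ 2)))
    (h2 : dist (v (τ 1)) (v (τ 2)) = dist (v (τ 2)) (v (τ 3)))
    (h3 : dist (v (τ 0)) (v (τ 2)) = dist (v (τ 1)) (v (τ 3)))
    (h4 : 3 * dist (v (τ 0)) (v (τ 2)) ^ 2 =
      3 * dist (v (τ 0)) (v (τ 1)) ^ 2 + dist (v (τ 0)) (v (τ 3)) ^ 2) : Hill v := by
  obtain ⟨p1, p2, p3⟩ := path_sq (v (τ 0)) (v (τ 1)) (v (τ 2)) (v (τ 3))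
  have e01 : dist (v (τ 0)) (v (τ 1)) = ‖v (τ 1) - v (τ 0)‖ := dist_eq_norm' _ _
  have e12 : dist (v (τ 1)) (v (τ 2)) = ‖v (τ 2) - v (τ 1)‖ := dist_eq_norm' _ _
  have e23 : dist (v (τ 2)) (v (τ 3)) = ‖v (τ 3) - v (τ 2)‖ := dist_eq_norm' _ _
  rw [e01, e12] at h1
  rw [e12, e23] at h2
  rw [p1, p3, e01] at h4
  rw [← h1] at h2
  rw [← h1, ← h2] at h4
  have h3' : dist (v (τ 0)) (v (τ 2)) ^ 2 = dist (v (τ 1)) (v (τ 3)) ^ 2 := by rw [h3]
  rw [p1, p2, ← h1, ← h2] at h3'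
  refine ⟨τ, h1, h1.symm.trans h2, ?_, ?_⟩ <;> linarith

/-- conversely -/
theorem path_hill {v : Fin 4 → E3} {τ : Equiv.Perm (Fin 4)}
    (h1 : ‖v (τ 1) - v (τ 0)‖ = ‖v (τ 2) - v (τ 1)‖)
    (h2 : ‖v (τ 2) - v (τ 1)‖ = ‖v (τ 3) - v (τ 2)‖)
    (h3 : inner ℝ (v (τ 1) - v (τ 0)) (v (τ 2) - v (τ 1)) =
      inner ℝ (v (τ 2) - v (τ 1)) (v (τ 3) - v (τ 2)))
    (h4 : inner ℝ (v (τ 2) - v (τ 1)) (v (τ 3) - v (τ 2)) =
      inner ℝ (v (τ 1) - v (τ 0)) (v (τ 3) - v (τ 2))) :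
    dist (v (τ 0)) (v (τ 1)) = dist (v (τ 1)) (v (τ 2)) ∧
    dist (v (τ 1)) (v (τ 2)) = dist (v (τ 2)) (v (τ 3)) ∧
    dist (v (τ 0)) (v (τ 2)) = dist (v (τ 1)) (v (τ 3)) ∧
    3 * dist (v (τ 0)) (v (τ 2)) ^ 2 =
      3 * dist (v (τ 0)) (v (τ 1)) ^ 2 + dist (v (τ 0)) (v (τ 3)) ^ 2 := by
  obtain ⟨p1, p2, p3⟩ := path_sq (v (τ 0)) (v (τ 1)) (v (τ 2)) (v (τ 3))
  have e01 : dist (v (τ 0)) (v (τ 1)) = ‖v (τ 1) - v (τ 0)‖ := dist_eq_norm' _ _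
  have e12 : dist (v (τ 1)) (v (τ 2)) = ‖v (τ 2) - v (τ 1)‖ := dist_eq_norm' _ _
  have e23 : dist (v (τ 2)) (v (τ 3)) = ‖v (τ 3) - v (τ 2)‖ := dist_eq_norm' _ _
  rw [← h1] at h2 p1 p2 p3
  rw [← h2] at p2 p3
  refine ⟨?_, ?_, ?_, ?_⟩
  · rw [e01, e12, h1]
  · rw [e12, e23, ← h2, h1]
  · have : dist (v (τ 0)) (v (τ 2)) ^ 2 = dist (v (τ 1)) (v (τ 3)) ^ 2 := by
      rw [p1, p2, h3]
    exact (pow_left_inj₀ dist_nonneg dist_nonneg two_ne_zero).1 this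
  · rw [p1, p3, e01]
    linarith

/-- the lengths of the six edges -/
theorem len_all (v : Fin 4 → E3) : len v 0 = dist (v 0) (v 1) ∧ len v 1 = dist (v 0) (v 2) ∧
    len v 2 = dist (v 0) (v 3) ∧ len v 3 = dist (v 1) (v 2) ∧ len v 4 = dist (v 1) (v 3) ∧
    len v 5 = dist (v 2) (v 3) := ⟨rfl, rfl, rfl, rfl, rfl, rfl⟩

theorem TilesPer.tiles {v : Fin 4 → E3} (h : TilesPer v) : Tiles v := by
  obtain ⟨S, h1, h2, h3, -⟩ := h
  exact ⟨S, h1, h2, h3⟩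

/-- a permutation with given values -/
theorem exists_perm (f : Fin 4 → Fin 4) (hf : Function.Injective f) :
    ∃ τ : Equiv.Perm (Fin 4), ∀ i, τ i = f i :=
  ⟨Equiv.ofBijective f ⟨hf, Finite.surjective_of_injective hf⟩, fun _ => rfl⟩

theorem hill_of_hillL {v : Fin 4 → E3} (h13 : dist (v 0) (v 2) = dist (v 1) (v 3))
    (h12 : dist (v 0) (v 3) = dist (v 1) (v 2)) (h : HillL (len v)) : Hill v := by
  obtain ⟨e0, e1, e2, e3, e4, e5⟩ := len_all v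
  unfold HillL at h
  rw [e0, e1, e2, e5] at h
  have c20 := dist_comm (v 2) (v 0)
  have c30 := dist_comm (v 3) (v 0)
  have c21 := dist_comm (v 2) (v 1)
  have c31 := dist_comm (v 3) (v 1)
  have c32 := dist_comm (v 3) (v 2)
  rcases h with ⟨h1, h2⟩ | ⟨h1, h2⟩ | ⟨h1, h2⟩ | ⟨h1, h2⟩
  · obtain ⟨τ, hτ⟩ := exists_perm ![0, 2, 3, 1] (by decide)
    have t0 : τ 0 = 0 := hτ 0
    have t1 : τ 1 = 2 := hτ 1
    have t2 : τ 2 = 3 := hτ 2
    have t3 : τ 3 = 1 := hτ 3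
    refine hill_path τ ?_ ?_ ?_ ?_ <;> simp only [t0, t1, t2, t3]
    · exact h1.symm
    · rw [h1, c31, h13]
    · rw [c21, h12]
    · exact h2
  · obtain ⟨τ, hτ⟩ := exists_perm ![0, 3, 2, 1] (by decide)
    have t0 : τ 0 = 0 := hτ 0
    have t1 : τ 1 = 3 := hτ 1
    have t2 : τ 2 = 2 := hτ 2
    have t3 : τ 3 = 1 := hτ 3
    refine hill_path τ ?_ ?_ ?_ ?_ <;> simp only [t0, t1, t2, t3]
    · rw [c32, h1]
    · rw [c32, h1, c21, h12]
    · rw [c31, h13]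
    · exact h2
  · obtain ⟨τ, hτ⟩ := exists_perm ![2, 0, 1, 3] (by decide)
    have t0 : τ 0 = 2 := hτ 0
    have t1 : τ 1 = 0 := hτ 1
    have t2 : τ 2 = 1 := hτ 2
    have t3 : τ 3 = 3 := hτ 3
    refine hill_path τ ?_ ?_ ?_ ?_ <;> simp only [t0, t1, t2, t3]
    · rw [c20, h1]
    · rw [h1, h13]
    · rw [c21, h12]
    · rw [c21, c20, ← h12]
      exact h2
  · obtain ⟨τ, hτ⟩ := exists_perm ![3, 0, 1, 2] (by decide)
    have t0 : τ 0 = 3 := hτ 0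
    have t1 : τ 1 = 0 := hτ 1
    have t2 : τ 2 = 1 := hτ 2
    have t3 : τ 3 = 2 := hτ 3
    refine hill_path τ ?_ ?_ ?_ ?_ <;> simp only [t0, t1, t2, t3]
    · rw [c30, h1]
    · rw [h1, h12]
    · rw [c31, h13]
    · rw [c31, c30, c32, ← h13]
      exact h2

theorem per_of_hill {v : Fin 4 → E3} (hv : AffineIndependent ℝ v) (h : Hill v) : TilesPer v := by
  obtain ⟨τ, h1, h2, h3, h4⟩ := h
  obtain ⟨d1, d2, d3, d4⟩ := path_hill h1 h2 h3 h4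
  obtain ⟨σ, hσ⟩ := exists_perm ![0, 3, 1, 2] (by decide)
  have s0 : σ 0 = 0 := hσ 0
  have s1 : σ 1 = 3 := hσ 1
  have s2 : σ 2 = 1 := hσ 2
  have s3 : σ 3 = 2 := hσ 3
  have hw : AffineIndependent ℝ (v ∘ (σ.trans τ)) := hv.comp_embedding (σ.trans τ).toEmbedding
  obtain ⟨e0, e1, e2, e3, e4, e5⟩ := len_all (v ∘ (σ.trans τ))
  simp only [Function.comp_apply, Equiv.trans_apply, s0, s1, s2, s3] at e0 e1 e2 e3 e4 e5
  have c31 := dist_comm (v (τ 3)) (v (τ 1))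
  have c32 := dist_comm (v (τ 3)) (v (τ 2))
  have hR : Rot (len (v ∘ (σ.trans τ))) := by
    refine ⟨?_, ?_⟩
    · rw [e1, e4, c32, d1, d2]
    · rw [e2, e3, c31, d3]
  have hH : HillL (len (v ∘ (σ.trans τ))) := by
    left
    rw [e0, e1, e2, e5]
    exact ⟨d1.symm, d4⟩
  have h := hill_per _ hw hR hH
  unfold TilesPer at h ⊢
  rwa [EquivLike.range_comp v (σ.trans τ)] at h

/-- the main theorem, modulo the existence of places and the exclusion of the second family -/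
theorem hillL_of_tiles (EP : ∀ f : ℂ, ¬ IsAlgebraic ℚ f → ∃ p : Place, p.v f < 0)
    (RN : ∀ v : Fin 4 → E3, AffineIndependent ℝ v → Rot (len v) → ReggeL (len v) → Tiles v →
      ∀ i j, IsAlgebraic ℚ (len v i / len v j))
    (v : Fin 4 → E3) (hv : AffineIndependent ℝ v) (hs : Rot (len v))
    (hna : ∃ i j, ¬ IsAlgebraic ℚ (len v i / len v j)) (hT : Tiles v) : HillL (len v) := by
  obtain ⟨ξ, η, hη, hr⟩ := exists_root v hv hs
  have hN := nrm_of_root v hv hs ξ η hη hr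
  have hR := rel_of_tiles v hv hs ξ η hη hr hT
  have hL := fun p => local_all p hN (hR p)
  have hA : ¬ Alg (aN (len v) ξ η) (bN (len v) ξ η) (yN (len v) ξ η) := by
    intro h
    obtain ⟨i, j, hij⟩ := hna
    exact hij (alg_len v hv hs ξ η hη h i j)
  obtain ⟨j, k, j0, k0, jk, h1, h2⟩ := global_of EP hN hL hA
    (fun j k t j0 k0 t0 jk jt kt h1 h2 => lemX_of hN hA EP hL j k t j0 k0 t0 jk jt kt h1 h2)
  rcases shape v hv hs ξ η hη hr j k j0 k0 jk h1 h2 with h | h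
  · exact h
  · obtain ⟨i, j, hij⟩ := hna
    exact absurd (RN v hv hs h hT i j) hij

theorem final_of (EP : ∀ f : ℂ, ¬ IsAlgebraic ℚ f → ∃ p : Place, p.v f < 0)
    (RN : ∀ v : Fin 4 → E3, AffineIndependent ℝ v → Rot (len v) → ReggeL (len v) → Tiles v →
      ∀ i j, IsAlgebraic ℚ (len v i / len v j))
    (v : Fin 4 → E3) (hv : AffineIndependent ℝ v)
    (h13 : dist (v 0) (v 2) = dist (v 1) (v 3)) (h12 : dist (v 0) (v 3) = dist (v 1) (v 2))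
    (hna : ∃ i j k l : Fin 4, ¬ IsAlgebraic ℚ (dist (v i) (v j) / dist (v k) (v l))) :
    (Tiles v ↔ Hill v) ∧ (Tiles v → TilesPer v) := by
  have hs : Rot (len v) := ⟨h13, h12⟩
  have key : ∀ i j : Fin 4, dist (v i) (v j) = 0 ∨ ∃ e, dist (v i) (v j) = len v e := by
    intro i j
    by_cases hij : i = j
    · left
      rw [hij, dist_self]
    · right
      have : ∃ e : Fin 6, (ea e = i ∧ eb e = j) ∨ (ea e = j ∧ eb e = i) := by
        revert i j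
        decide
      obtain ⟨e, ⟨h1, h2⟩ | ⟨h1, h2⟩⟩ := this
      · exact ⟨e, by rw [len, h1, h2]⟩
      · exact ⟨e, by rw [len, h1, h2, dist_comm]⟩
  have hna' : ∃ i j, ¬ IsAlgebraic ℚ (len v i / len v j) := by
    obtain ⟨i, j, k, l, h⟩ := hna
    rcases key i j with h1 | ⟨e, h1⟩
    · rw [h1, zero_div] at h
      exact absurd isAlgebraic_zero h
    rcases key k l with h2 | ⟨f, h2⟩
    · rw [h2, div_zero] at h
      exact absurd isAlgebraic_zero h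
    exact ⟨e, f, by rwa [h1, h2] at h⟩
  have hT : Tiles v → Hill v := fun hT =>
    hill_of_hillL h13 h12 (hillL_of_tiles EP RN v hv hs hna' hT)
  exact ⟨⟨hT, fun h => (per_of_hill hv h).tiles⟩, fun h => per_of_hill hv (hT h)⟩

end Pool.Agent.TetRot
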