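import Mathlib
import Pool.Agent.TetRel.Main
import Pool.Agent.TetDim.BasicG
import Pool.Agent.TetRot.Defs2

/-!
# The Regge images of the Hill tetrahedra

If `l` is `ReggeL` the six dihedral angles are `5π/6 - x, x, 2π/3 - x, 2π/3 - x, x, π/6 + x` (or the
same with the edges `02`, `13` and `03`, `12` exchanged). If such a tetrahedron tiles, all ratios of
its edges are algebraic.
-/

set_option autoImplicit false

open Pool.Agent.TetRel
open Pool.Agent.TetDim (heron F P num N Th Good Tri good_pos Th_facts)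

namespace Pool.Agent.TetRot

section Poly

variable {w d U V : ℝ}

private theorem pF0 (hs : d ^ 2 = 4 * (U - V) ^ 2) (hq : w ^ 2 = 16 / 3 * (U ^ 2 - U * V + V ^ 2)) :
    heron V U ((w - d) / 2) = w / 4 * (w ^ 2 - 4 * d ^ 2) * ((w - d) / 2) := by
  unfold heron
  linear_combination ((1/8) * w ^ 2 + (-1/4) * w * d + (-1/16) * d ^ 2 + (1/4) * U ^ 2 +
    (1/2) * U * V + (1/4) * V ^ 2) * hs + ((-3/16) * w ^ 2 + (3/8) * w * d) * hq

private theorem pF2 (hs : d ^ 2 = 4 * (U - V) ^ 2) (hq : w ^ 2 = 16 / 3 * (U ^ 2 - U * V + V ^ 2)) :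
    heron ((w + d) / 2) V U = w / 4 * (w ^ 2 - 4 * d ^ 2) * ((w + d) / 2) := by
  unfold heron
  linear_combination ((1/8) * w ^ 2 + (1/4) * w * d + (-1/16) * d ^ 2 + (1/4) * U ^ 2 +
    (1/2) * U * V + (1/4) * V ^ 2) * hs + ((-3/16) * w ^ 2 + (-3/8) * w * d) * hq

private theorem pN0 (hs : d ^ 2 = 4 * (U - V) ^ 2) (hq : w ^ 2 = 16 / 3 * (U ^ 2 - U * V + V ^ 2)) :
    num ((w + d) / 2) U V V U ((w - d) / 2) = (w ^ 2 - 4 * d ^ 2) * ((w + d) / 2) * d / 4 := by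
  unfold num
  linear_combination ((-1/4) * w ^ 2 + (1/4) * w * d + (5/16) * d ^ 2 + (7/4) * U ^ 2 +
    (-5/2) * U * V + (7/4) * V ^ 2) * hs + ((-3/16) * w ^ 2 + (-3/8) * w * d + (-3/2) * U ^ 2 +
    (3) * U * V + (-3/2) * V ^ 2) * hq

private theorem pN5 (hs : d ^ 2 = 4 * (U - V) ^ 2) (hq : w ^ 2 = 16 / 3 * (U ^ 2 - U * V + V ^ 2)) :
    num ((w - d) / 2) U V V U ((w + d) / 2) = -((w ^ 2 - 4 * d ^ 2) * ((w - d) / 2) * d / 4) := by
  unfold num
  linear_combination ((-1/4) * w ^ 2 + (-1/4) * w * d + (5/16) * d ^ 2 + (7/4) * U ^ 2 +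
    (-5/2) * U * V + (7/4) * V ^ 2) * hs + ((-3/16) * w ^ 2 + (3/8) * w * d + (-3/2) * U ^ 2 +
    (3) * U * V + (-3/2) * V ^ 2) * hq

private theorem pN1 (hs : d ^ 2 = 4 * (U - V) ^ 2) (hq : w ^ 2 = 16 / 3 * (U ^ 2 - U * V + V ^ 2)) :
    num U ((w + d) / 2) V V ((w - d) / 2) U = (w ^ 2 - 4 * d ^ 2) * (U + V) * (2 * V - U) / 6 := by
  unfold num
  linear_combination ((-1/8) * w ^ 2 + (1/16) * d ^ 2 + (1/12) * U ^ 2 + (1/6) * U * V +
    (13/12) * V ^ 2) * hs + ((1/16) * w ^ 2 + (1/2) * U ^ 2 + (1/2) * U * V + (-1) * V ^ 2) * hq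

private theorem pN2 (hs : d ^ 2 = 4 * (U - V) ^ 2) (hq : w ^ 2 = 16 / 3 * (U ^ 2 - U * V + V ^ 2)) :
    num V ((w + d) / 2) U U ((w - d) / 2) V = (w ^ 2 - 4 * d ^ 2) * (U + V) * (2 * U - V) / 6 := by
  unfold num
  linear_combination ((-1/8) * w ^ 2 + (1/16) * d ^ 2 + (13/12) * U ^ 2 + (1/6) * U * V +
    (1/12) * V ^ 2) * hs + ((1/16) * w ^ 2 + (-1) * U ^ 2 + (1/2) * U * V + (1/2) * V ^ 2) * hq

end Poly

/-- the cosines -/
private theorem cosines {l : Fin 6 → ℝ} (hG : Good l) (h4 : l 4 = l 1) (h3 : l 3 = l 2)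
    (hs : (l 0 - l 5) ^ 2 = 4 * (l 1 - l 2) ^ 2)
    (hq : 16 * (l 1 ^ 2 - l 1 * l 2 + l 2 ^ 2) = 3 * (l 0 + l 5) ^ 2) :
    Real.cos (Th l 0) = (l 0 - l 5) / (l 0 + l 5) ∧
    Real.cos (Th l 5) = -((l 0 - l 5) / (l 0 + l 5)) ∧
    Real.cos (Th l 1) = 2 * (2 * l 2 - l 1) / (√3 * (l 0 + l 5)) ∧
    Real.cos (Th l 2) = 2 * (2 * l 1 - l 2) / (√3 * (l 0 + l 5)) ∧
    Real.cos (Th l 3) = 2 * (2 * l 1 - l 2) / (√3 * (l 0 + l 5)) ∧
    Real.cos (Th l 4) = 2 * (2 * l 2 - l 1) / (√3 * (l 0 + l 5)) := by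
  obtain ⟨hl, hF⟩ := good_pos hG.1
  obtain ⟨w, hw⟩ : ∃ w, w = l 0 + l 5 := ⟨_, rfl⟩
  obtain ⟨d, hd⟩ : ∃ d, d = l 0 - l 5 := ⟨_, rfl⟩
  have e0 : l 0 = (w + d) / 2 := by rw [hw, hd]; ring
  have e5 : l 5 = (w - d) / 2 := by rw [hw, hd]; ring
  rw [← hw, ← hd]
  rw [← hd] at hs
  rw [← hw] at hq
  have hq' : w ^ 2 = 16 / 3 * (l 1 ^ 2 - l 1 * l 2 + l 2 ^ 2) := by linarith
  have hw0 : 0 < w := by rw [hw]; exact add_pos (hl 0) (hl 5)
  have h05 : 0 < (w + d) / 2 := by rw [← e0]; exact hl 0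
  have h55 : 0 < (w - d) / 2 := by rw [← e5]; exact hl 5
  have hUV : 0 < l 1 + l 2 := add_pos (hl 1) (hl 2)
  have s3 : √3 * √3 = (3 : ℝ) := Real.mul_self_sqrt (by norm_num)
  have s30 : 0 < √3 := Real.sqrt_pos.2 (by norm_num)
  have F0 : F l 0 = w / 4 * (w ^ 2 - 4 * d ^ 2) * ((w - d) / 2) := by
    rw [← pF0 hs hq']
    show heron (l 3) (l 4) (l 5) = _
    rw [h3, h4, e5]
  have F1 : F l 1 = w / 4 * (w ^ 2 - 4 * d ^ 2) * ((w - d) / 2) := by
    rw [← pF0 hs hq']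
    show heron (l 1) (l 2) (l 5) = _
    rw [e5]
    unfold heron
    ring
  have F2 : F l 2 = w / 4 * (w ^ 2 - 4 * d ^ 2) * ((w + d) / 2) := by
    rw [← pF2 hs hq']
    show heron (l 0) (l 2) (l 4) = _
    rw [h4, e0]
  have F3 : F l 3 = w / 4 * (w ^ 2 - 4 * d ^ 2) * ((w + d) / 2) := by
    rw [← pF2 hs hq']
    show heron (l 0) (l 1) (l 3) = _
    rw [h3, e0]
    unfold heron
    ring
  have hK : 0 < w ^ 2 - 4 * d ^ 2 := by
    have h1 := hF 0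
    rw [F0] at h1
    by_contra hcon
    have h2 : w / 4 * (w ^ 2 - 4 * d ^ 2) * ((w - d) / 2) ≤ 0 := by
      have h3 : w / 4 * (w ^ 2 - 4 * d ^ 2) ≤ 0 :=
        mul_nonpos_of_nonneg_of_nonpos (by positivity) (not_lt.1 hcon)
      exact mul_nonpos_of_nonpos_of_nonneg h3 h55.le
    linarith
  have hL : 3 * ((w + d) / 2) * ((w - d) / 2) = (l 1 + l 2) ^ 2 := by
    linear_combination (-3 / 4) * hs + (3 / 4) * hq'
  -- the denominators
  have D0 : √(F l (ec 0) * F l (ed 0)) = w / 4 * (w ^ 2 - 4 * d ^ 2) * ((w + d) / 2) := by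
    show √(F l 2 * F l 3) = _
    rw [F2, F3, Real.sqrt_mul_self]
    positivity
  have D5 : √(F l (ec 5) * F l (ed 5)) = w / 4 * (w ^ 2 - 4 * d ^ 2) * ((w - d) / 2) := by
    show √(F l 0 * F l 1) = _
    rw [F0, F1, Real.sqrt_mul_self]
    positivity
  have DD : √(w / 4 * (w ^ 2 - 4 * d ^ 2) * ((w - d) / 2) *
      (w / 4 * (w ^ 2 - 4 * d ^ 2) * ((w + d) / 2))) =
      w / 4 * (w ^ 2 - 4 * d ^ 2) * (l 1 + l 2) / √3 := by
    rw [Real.sqrt_eq_iff_mul_self_eq_of_pos (by positivity), div_mul_div_comm, s3]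
    linear_combination (-(w / 4 * (w ^ 2 - 4 * d ^ 2)) ^ 2 / 3) * hL
  have D1 : √(F l (ec 1) * F l (ed 1)) = w / 4 * (w ^ 2 - 4 * d ^ 2) * (l 1 + l 2) / √3 := by
    show √(F l 1 * F l 3) = _
    rw [F1, F3, DD]
  have D2 : √(F l (ec 2) * F l (ed 2)) = w / 4 * (w ^ 2 - 4 * d ^ 2) * (l 1 + l 2) / √3 := by
    show √(F l 1 * F l 2) = _
    rw [F1, F2, DD]
  have D3 : √(F l (ec 3) * F l (ed 3)) = w / 4 * (w ^ 2 - 4 * d ^ 2) * (l 1 + l 2) / √3 := by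
    show √(F l 0 * F l 3) = _
    rw [F0, F3, DD]
  have D4 : √(F l (ec 4) * F l (ed 4)) = w / 4 * (w ^ 2 - 4 * d ^ 2) * (l 1 + l 2) / √3 := by
    show √(F l 0 * F l 2) = _
    rw [F0, F2, DD]
  have N0 : N l 0 = (w ^ 2 - 4 * d ^ 2) * ((w + d) / 2) * d / 4 := by
    rw [← pN0 hs hq']
    show num (l 0) (l 1) (l 3) (l 2) (l 4) (l 5) = _
    rw [h3, h4, e0, e5]
  have N5 : N l 5 = -((w ^ 2 - 4 * d ^ 2) * ((w - d) / 2) * d / 4) := by
    rw [← pN5 hs hq']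
    show num (l 5) (l 1) (l 2) (l 3) (l 4) (l 0) = _
    rw [h3, h4, e0, e5]
  have N1 : N l 1 = (w ^ 2 - 4 * d ^ 2) * (l 1 + l 2) * (2 * l 2 - l 1) / 6 := by
    rw [← pN1 hs hq']
    show num (l 1) (l 0) (l 3) (l 2) (l 5) (l 4) = _
    rw [h3, h4, e0, e5]
  have N2 : N l 2 = (w ^ 2 - 4 * d ^ 2) * (l 1 + l 2) * (2 * l 1 - l 2) / 6 := by
    rw [← pN2 hs hq']
    show num (l 2) (l 0) (l 4) (l 1) (l 5) (l 3) = _
    rw [h3, h4, e0, e5]
  have N3 : N l 3 = (w ^ 2 - 4 * d ^ 2) * (l 1 + l 2) * (2 * l 1 - l 2) / 6 := by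
    rw [← pN2 hs hq']
    show num (l 3) (l 0) (l 1) (l 4) (l 5) (l 2) = _
    rw [h3, h4, e0, e5]
  have N4 : N l 4 = (w ^ 2 - 4 * d ^ 2) * (l 1 + l 2) * (2 * l 2 - l 1) / 6 := by
    rw [← pN1 hs hq']
    show num (l 4) (l 0) (l 2) (l 3) (l 5) (l 1) = _
    rw [h3, h4, e0, e5]
  have key : ∀ z : ℝ, (w ^ 2 - 4 * d ^ 2) * (l 1 + l 2) * z / 6 /
      (w / 4 * (w ^ 2 - 4 * d ^ 2) * (l 1 + l 2) / √3) = 2 * z / (√3 * w) := by
    intro z
    rw [div_eq_div_iff (by positivity) (by positivity)]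
    field_simp
    rw [show √3 ^ 2 = 3 by rw [sq]; exact s3]
    ring
  refine ⟨?_, ?_, ?_, ?_, ?_, ?_⟩
  · rw [(Th_facts hG 0).2.1, D0, N0, div_eq_div_iff (by positivity) hw0.ne']
    ring
  · rw [(Th_facts hG 5).2.1, D5, N5, neg_div]
    congr 1
    rw [div_eq_div_iff (by positivity) hw0.ne']
    ring
  · rw [(Th_facts hG 1).2.1, D1, N1, key]
  · rw [(Th_facts hG 2).2.1, D2, N2, key]
  · rw [(Th_facts hG 3).2.1, D3, N3, key]
  · rw [(Th_facts hG 4).2.1, D4, N4, key]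

private theorem sin_of {x c s : ℝ} (hx : 0 < x ∧ x < Real.pi) (hc : Real.cos x = c)
    (h : c ^ 2 + s ^ 2 = 1) (hs : 0 < s) : Real.sin x = s := by
  have h1 := Real.sin_sq_add_cos_sq x
  rw [hc] at h1
  have h2 : Real.sin x ^ 2 = s ^ 2 := by linarith
  exact (sq_eq_sq₀ (Real.sin_pos_of_pos_of_lt_pi hx.1 hx.2).le hs.le).1 h2

private theorem sum_eq {x y c : ℝ} (hx : 0 < x ∧ x < Real.pi) (hy : 0 < y ∧ y < Real.pi)
    (hc : 0 ≤ c ∧ c ≤ Real.pi) (h1 : Real.cos (x + y) = Real.cos c) (h2 : 0 < Real.sin (x + y)) :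
    x + y = c := by
  have h3 : x + y ≤ Real.pi := by
    by_contra hcon
    have h4 := Real.sin_pos_of_pos_of_lt_pi (x := x + y - Real.pi) (by linarith)
      (by linarith [hx.2, hy.2])
    rw [Real.sin_sub_pi] at h4
    linarith
  exact Real.injOn_cos ⟨by linarith [hx.1, hy.1], h3⟩ hc h1

/-- the sines -/
private theorem sines {l : Fin 6 → ℝ} (hG : Good l) (h4 : l 4 = l 1) (h3 : l 3 = l 2)
    (hs : (l 0 - l 5) ^ 2 = 4 * (l 1 - l 2) ^ 2)
    (hq : 16 * (l 1 ^ 2 - l 1 * l 2 + l 2 ^ 2) = 3 * (l 0 + l 5) ^ 2) :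
    Real.sin (Th l 0) = 2 * (l 1 + l 2) / (√3 * (l 0 + l 5)) ∧
    Real.sin (Th l 1) = 2 * l 1 / (l 0 + l 5) ∧ Real.sin (Th l 2) = 2 * l 2 / (l 0 + l 5) := by
  obtain ⟨c0, c5, c1, c2, -, -⟩ := cosines hG h4 h3 hs hq
  obtain ⟨hl, -⟩ := good_pos hG.1
  have hw0 : 0 < l 0 + l 5 := add_pos (hl 0) (hl 5)
  have h1 := hl 1
  have h2 := hl 2
  have s3 : √3 ^ 2 = (3 : ℝ) := Real.sq_sqrt (by norm_num)
  have s30 : 0 < √3 := Real.sqrt_pos.2 (by norm_num)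
  refine ⟨sin_of (Th_facts hG 0).1 c0 ?_ (by positivity),
    sin_of (Th_facts hG 1).1 c1 ?_ (by positivity), sin_of (Th_facts hG 2).1 c2 ?_ (by positivity)⟩
  · rw [div_pow, div_pow, mul_pow, mul_pow, s3, div_add_div _ _ (by positivity) (by positivity),
      div_eq_one_iff_eq (by positivity)]
    linear_combination (3 * (l 0 + l 5) ^ 2) * hs + (l 0 + l 5) ^ 2 * hq
  · rw [div_pow, div_pow, mul_pow, mul_pow, mul_pow, s3,
      div_add_div _ _ (by positivity) (by positivity), div_eq_one_iff_eq (by positivity)]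
    linear_combination (l 0 + l 5) ^ 2 * hq
  · rw [div_pow, div_pow, mul_pow, mul_pow, mul_pow, s3,
      div_add_div _ _ (by positivity) (by positivity), div_eq_one_iff_eq (by positivity)]
    linear_combination (l 0 + l 5) ^ 2 * hq

private theorem cos56 : Real.cos (5 * Real.pi / 6) = -(√3 / 2) := by
  rw [show 5 * Real.pi / 6 = Real.pi - Real.pi / 6 by ring, Real.cos_pi_sub, Real.cos_pi_div_six]

private theorem cos23 : Real.cos (2 * Real.pi / 3) = -(1 / 2) := by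
  rw [show 2 * Real.pi / 3 = Real.pi - Real.pi / 3 by ring, Real.cos_pi_sub, Real.cos_pi_div_three]

section Calc

variable {w U V r : ℝ}

private theorem cA (hw : 0 < w) (hr : r ^ 2 = 3)
    (hq : 16 * (U ^ 2 - U * V + V ^ 2) = 3 * w ^ 2) :
    2 * (2 * V - U) / (r * w) * (2 * (2 * U - V) / (r * w)) - 2 * U / w * (2 * V / w) =
      -(1 / 2) := by
  have h1 : 2 * (2 * V - U) / (r * w) * (2 * (2 * U - V) / (r * w)) =
      4 * (2 * V - U) * (2 * U - V) / (3 * w ^ 2) := by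
    rw [div_mul_div_comm, show r * w * (r * w) = 3 * w ^ 2 by rw [← hr]; ring]
    ring
  rw [h1]
  field_simp
  linear_combination -hq

private theorem cB' (hw : 0 < w) (hr0 : 0 < r)
    (hq : 16 * (U ^ 2 - U * V + V ^ 2) = 3 * w ^ 2) :
    0 < 2 * U / w * (2 * (2 * U - V) / (r * w)) + 2 * (2 * V - U) / (r * w) * (2 * V / w) := by
  have h1 : 2 * U / w * (2 * (2 * U - V) / (r * w)) + 2 * (2 * V - U) / (r * w) * (2 * V / w) =
      8 * (U ^ 2 - U * V + V ^ 2) / (r * w ^ 2) := by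
    field_simp
    ring
  rw [h1, show 8 * (U ^ 2 - U * V + V ^ 2) = 3 / 2 * w ^ 2 by linarith]
  positivity

private theorem cC (hw : 0 < w) (hr : r ^ 2 = 3) (hr0 : 0 < r)
    (hq : 16 * (U ^ 2 - U * V + V ^ 2) = 3 * w ^ 2) :
    2 * (U - V) / w * (2 * (2 * V - U) / (r * w)) - 2 * (U + V) / (r * w) * (2 * U / w) =
      -(r / 2) := by
  have h1 : 2 * (U - V) / w * (2 * (2 * V - U) / (r * w)) - 2 * (U + V) / (r * w) * (2 * U / w) =
      -(8 * (U ^ 2 - U * V + V ^ 2) / (r * w ^ 2)) := by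
    field_simp
    ring
  rw [h1, show 8 * (U ^ 2 - U * V + V ^ 2) = 3 / 2 * w ^ 2 by linarith, ← hr]
  field_simp

private theorem cD (hw : 0 < w) (hr : r ^ 2 = 3)
    (hq : 16 * (U ^ 2 - U * V + V ^ 2) = 3 * w ^ 2) :
    0 < 2 * (U + V) / (r * w) * (2 * (2 * V - U) / (r * w)) + 2 * (U - V) / w * (2 * U / w) := by
  have h1 : 2 * (U + V) / (r * w) * (2 * (2 * V - U) / (r * w)) =
      4 * (U + V) * (2 * V - U) / (3 * w ^ 2) := by
    rw [div_mul_div_comm, show r * w * (r * w) = 3 * w ^ 2 by rw [← hr]; ring]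
    ring
  have h2 : 4 * (U + V) * (2 * V - U) / (3 * w ^ 2) + 2 * (U - V) / w * (2 * U / w) = 1 / 2 := by
    field_simp
    linear_combination hq
  rw [h1, h2]
  norm_num

end Calc

private theorem angles {l : Fin 6 → ℝ} (hG : Good l) (h4 : l 4 = l 1) (h3 : l 3 = l 2)
    (hs : (l 0 - l 5) ^ 2 = 4 * (l 1 - l 2) ^ 2)
    (hq : 16 * (l 1 ^ 2 - l 1 * l 2 + l 2 ^ 2) = 3 * (l 0 + l 5) ^ 2) :
    Th l 5 = Real.pi - Th l 0 ∧ Th l 2 = 2 * Real.pi / 3 - Th l 1 ∧ Th l 3 = Th l 2 ∧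
      Th l 4 = Th l 1 := by
  obtain ⟨c0, c5, c1, c2, c3, c4⟩ := cosines hG h4 h3 hs hq
  obtain ⟨s0, s1, s2⟩ := sines hG h4 h3 hs hq
  obtain ⟨hl, -⟩ := good_pos hG.1
  have hw0 : 0 < l 0 + l 5 := add_pos (hl 0) (hl 5)
  have r3 : √3 ^ 2 = (3 : ℝ) := Real.sq_sqrt (by norm_num)
  have s30 : 0 < √3 := Real.sqrt_pos.2 (by norm_num)
  have T := fun i => (Th_facts hG i).1
  have I : ∀ i, Th l i ∈ Set.Icc (0 : ℝ) Real.pi := fun i => ⟨(T i).1.le, (T i).2.le⟩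
  refine ⟨?_, ?_, ?_, ?_⟩
  · refine Real.injOn_cos (I 5) ⟨by linarith [(T 0).2], by linarith [(T 0).1]⟩ ?_
    rw [Real.cos_pi_sub, c0, c5]
  · have hpi := Real.pi_pos
    have e : Th l 1 + Th l 2 = 2 * Real.pi / 3 := by
      refine sum_eq (T 1) (T 2) ⟨by positivity, by linarith⟩ ?_ ?_
      · rw [Real.cos_add, c1, c2, s1, s2, cos23]
        exact cA hw0 r3 hq
      · rw [Real.sin_add, c1, c2, s1, s2]
        exact cB' hw0 s30 hq
    linarith
  · exact Real.injOn_cos (I 3) (I 2) (by rw [c2, c3])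
  · exact Real.injOn_cos (I 4) (I 1) (by rw [c1, c4])

private theorem angleA {l : Fin 6 → ℝ} (hG : Good l) (h4 : l 4 = l 1) (h3 : l 3 = l 2)
    (hd : l 0 - l 5 = 2 * (l 1 - l 2))
    (hq : 16 * (l 1 ^ 2 - l 1 * l 2 + l 2 ^ 2) = 3 * (l 0 + l 5) ^ 2) :
    Th l 0 = 5 * Real.pi / 6 - Th l 1 := by
  have hs : (l 0 - l 5) ^ 2 = 4 * (l 1 - l 2) ^ 2 := by rw [hd]; ring
  obtain ⟨c0, c5, c1, c2, c3, c4⟩ := cosines hG h4 h3 hs hq
  obtain ⟨s0, s1, s2⟩ := sines hG h4 h3 hs hq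
  obtain ⟨hl, -⟩ := good_pos hG.1
  have hw0 : 0 < l 0 + l 5 := add_pos (hl 0) (hl 5)
  have r3 : √3 ^ 2 = (3 : ℝ) := Real.sq_sqrt (by norm_num)
  have s30 : 0 < √3 := Real.sqrt_pos.2 (by norm_num)
  have T := fun i => (Th_facts hG i).1
  have hpi := Real.pi_pos
  have e : Th l 0 + Th l 1 = 5 * Real.pi / 6 := by
    refine sum_eq (T 0) (T 1) ⟨by positivity, by linarith⟩ ?_ ?_
    · rw [Real.cos_add, c0, c1, s0, s1, cos56, hd]
      exact cC hw0 r3 s30 hq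
    · rw [Real.sin_add, c0, c1, s0, s1, hd]
      exact cD hw0 r3 hq
  linarith

private theorem angleB {l : Fin 6 → ℝ} (hG : Good l) (h4 : l 4 = l 1) (h3 : l 3 = l 2)
    (hd : l 0 - l 5 = 2 * (l 2 - l 1))
    (hq : 16 * (l 1 ^ 2 - l 1 * l 2 + l 2 ^ 2) = 3 * (l 0 + l 5) ^ 2) :
    Th l 0 = 5 * Real.pi / 6 - Th l 2 := by
  have hs : (l 0 - l 5) ^ 2 = 4 * (l 1 - l 2) ^ 2 := by rw [hd]; ring
  have hq' : 16 * (l 2 ^ 2 - l 2 * l 1 + l 1 ^ 2) = 3 * (l 0 + l 5) ^ 2 := by rw [← hq]; ring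
  obtain ⟨c0, c5, c1, c2, c3, c4⟩ := cosines hG h4 h3 hs hq
  obtain ⟨s0, s1, s2⟩ := sines hG h4 h3 hs hq
  obtain ⟨hl, -⟩ := good_pos hG.1
  have hw0 : 0 < l 0 + l 5 := add_pos (hl 0) (hl 5)
  have r3 : √3 ^ 2 = (3 : ℝ) := Real.sq_sqrt (by norm_num)
  have s30 : 0 < √3 := Real.sqrt_pos.2 (by norm_num)
  have T := fun i => (Th_facts hG i).1
  have hpi := Real.pi_pos
  have e : Th l 0 + Th l 2 = 5 * Real.pi / 6 := by
    refine sum_eq (T 0) (T 2) ⟨by positivity, by linarith⟩ ?_ ?_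
    · rw [Real.cos_add, c0, c2, s0, s2, cos56, hd, add_comm (l 1) (l 2)]
      exact cC hw0 r3 s30 hq'
    · rw [Real.sin_add, c0, c2, s0, s2, hd, add_comm (l 1) (l 2)]
      exact cD hw0 r3 hq'
  linarith

/-- the integer relations: a type of the family has `n 0 = n 5` -/
private theorem int_rel {x : ℝ} (hx : ∀ q : ℚ, x ≠ q * Real.pi) {a b c d : ℕ}
    (h : (a : ℝ) * (5 * Real.pi / 6 - x) + b * (Real.pi - (5 * Real.pi / 6 - x)) + c * x +
      d * (2 * Real.pi / 3 - x) = 2 * Real.pi) : a = b := by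
  have hpi := Real.pi_pos
  have h1 : ((b : ℝ) + c - a - d) * x = (2 - 5 * a / 6 - b / 6 - 2 * d / 3) * Real.pi := by
    linear_combination h
  have h2 : (b : ℤ) + c - a - d = 0 := by
    by_contra hne
    have h3 : ((b : ℝ) + c - a - d) ≠ 0 := by exact_mod_cast hne
    apply hx ((2 - 5 * a / 6 - b / 6 - 2 * d / 3) / (b + c - a - d))
    push_cast
    rw [div_mul_eq_mul_div, eq_div_iff h3]
    linear_combination h1
  have h3 : ((b : ℝ) + c - a - d) = 0 := by exact_mod_cast h2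
  rw [h3, zero_mul] at h1
  have h4 : (2 - 5 * a / 6 - b / 6 - 2 * d / 3 : ℝ) = 0 := by
    rcases mul_eq_zero.1 h1.symm with h | h
    · exact h
    · exact absurd h hpi.ne'
  have h5 : (5 * a + b + 4 * d : ℝ) = 12 := by linarith
  have h6 : 5 * a + b + 4 * d = 12 := by exact_mod_cast h5
  have ha : a ≤ 2 := by omega
  have hd : d ≤ 3 := by omega
  interval_cases a <;> interval_cases d <;> omega

private theorem alg_trig (q : ℚ) : IsAlgebraic ℚ (Real.cos (q * Real.pi)) ∧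
    IsAlgebraic ℚ (Real.sin (q * Real.pi)) := by
  have hinj : Function.Injective (algebraMap ℤ ℚ) := Int.cast_injective
  exact ⟨(Real.isAlgebraic_cos_rat_mul_pi q).extendScalars hinj,
    (Real.isAlgebraic_sin_rat_mul_pi q).extendScalars hinj⟩

private theorem alg_sqrt3 : IsAlgebraic ℚ (√3 : ℝ) := by
  refine IsAlgebraic.of_pow (n := 2) (by norm_num) ?_
  rw [Real.sq_sqrt (by norm_num : (0 : ℝ) ≤ 3)]
  exact isAlgebraic_algebraMap (3 : ℚ)

private theorem alg_nat (n : ℕ) [n.AtLeastTwo] : IsAlgebraic ℚ (OfNat.ofNat n : ℝ) := by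
  exact isAlgebraic_algebraMap (OfNat.ofNat n : ℚ)

theorem regge_alg (v : Fin 4 → E3) (hv : AffineIndependent ℝ v) (hs : Rot (len v))
    (hR : ReggeL (len v)) (hT : Tiles v) : ∀ i j, IsAlgebraic ℚ (len v i / len v j) := by
  obtain ⟨hG, hl, -, hdih, -⟩ := TetDim.basic v hv
  obtain ⟨k, n, c, -, -, htype, -, hlen⟩ := cone v hv hT
  obtain ⟨h4, h3⟩ := hs
  obtain ⟨hd, hq⟩ := hR
  set l := len v with hldef
  have hd2 : (l 0 - l 5) ^ 2 = 4 * (l 1 - l 2) ^ 2 := by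
    rcases hd with h | h <;> rw [h] <;> ring
  obtain ⟨t5, t2, t3, t4⟩ := angles hG h4.symm h3.symm hd2 hq
  obtain ⟨c0, c5, c1, c2, -, -⟩ := cosines hG h4.symm h3.symm hd2 hq
  obtain ⟨s0, s1, s2⟩ := sines hG h4.symm h3.symm hd2 hq
  have hw0 : 0 < l 0 + l 5 := add_pos (hl 0) (hl 5)
  have s30 : 0 < √3 := Real.sqrt_pos.2 (by norm_num)
  -- it suffices that all `l i / (l 0 + l 5)` are algebraic
  have suff : (∀ i, IsAlgebraic ℚ (l i / (l 0 + l 5))) → ∀ i j, IsAlgebraic ℚ (l i / l j) := by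
    intro h i j
    have := (h i).mul (h j).inv
    rwa [inv_div, div_mul_div_cancel₀ hw0.ne'] at this
  -- it suffices to treat `l 1`, `l 2`
  have suff2 : IsAlgebraic ℚ (l 1 / (l 0 + l 5)) → IsAlgebraic ℚ (l 2 / (l 0 + l 5)) →
      ∀ i, IsAlgebraic ℚ (l i / (l 0 + l 5)) := by
    intro a1 a2
    have e : IsAlgebraic ℚ ((l 0 - l 5) / (l 0 + l 5)) := by
      rcases hd with h | h
      · rw [h, mul_div_assoc, sub_div]
        exact (alg_nat 2).mul (a1.sub a2)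
      · rw [h, mul_div_assoc, sub_div]
        exact (alg_nat 2).mul (a2.sub a1)
    have e0 : IsAlgebraic ℚ (l 0 / (l 0 + l 5)) := by
      have : l 0 / (l 0 + l 5) = (1 + (l 0 - l 5) / (l 0 + l 5)) * (2 : ℝ)⁻¹ := by
        field_simp
        ring
      rw [this]
      exact (isAlgebraic_one.add e).mul (alg_nat 2).inv
    have e5 : IsAlgebraic ℚ (l 5 / (l 0 + l 5)) := by
      have : l 5 / (l 0 + l 5) = (1 - (l 0 - l 5) / (l 0 + l 5)) * (2 : ℝ)⁻¹ := by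
        field_simp
        ring
      rw [this]
      exact (isAlgebraic_one.sub e).mul (alg_nat 2).inv
    intro i
    fin_cases i
    · exact e0
    · exact a1
    · exact a2
    · show IsAlgebraic ℚ (l 3 / (l 0 + l 5))
      rw [← h3]
      exact a2
    · show IsAlgebraic ℚ (l 4 / (l 0 + l 5))
      rw [← h4]
      exact a1
    · exact e5
  refine suff ?_
  by_cases hrat : ∃ q : ℚ, Th l 1 = q * Real.pi
  · obtain ⟨q, hq1⟩ := hrat
    have hq2 : Th l 2 = ((2 / 3 - q : ℚ) : ℝ) * Real.pi := by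
      rw [t2, hq1]
      push_cast
      ring
    refine suff2 ?_ ?_
    · have h1 := (alg_trig q).2
      rw [← hq1, s1] at h1
      have h2 := h1.mul (alg_nat 2).inv
      rwa [show 2 * l 1 / (l 0 + l 5) * (2 : ℝ)⁻¹ = l 1 / (l 0 + l 5) by ring] at h2
    · have h1 := (alg_trig (2 / 3 - q)).2
      rw [← hq2, s2] at h1
      have h2 := h1.mul (alg_nat 2).inv
      rwa [show 2 * l 2 / (l 0 + l 5) * (2 : ℝ)⁻¹ = l 2 / (l 0 + l 5) by ring] at h2
  · have hx1 : ∀ q : ℚ, Th l 1 ≠ q * Real.pi := fun q h => hrat ⟨q, h⟩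
    have hx2 : ∀ q : ℚ, Th l 2 ≠ q * Real.pi := by
      intro q h
      refine hrat ⟨2 / 3 - q, ?_⟩
      push_cast
      linarith
    have hn : ∀ i, n i 0 = n i 5 := by
      intro i
      have h1 := htype i
      simp only [Fin.sum_univ_six, hdih] at h1
      rw [t3, t4, t5] at h1
      rcases hd with h | h
      · have h0 := angleA hG h4.symm h3.symm h hq
        refine int_rel hx1 (c := n i 1 + n i 4) (d := n i 2 + n i 3) ?_
        push_cast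
        rw [h0, t2] at h1
        linear_combination h1
      · have h0 := angleB hG h4.symm h3.symm h hq
        refine int_rel hx2 (c := n i 2 + n i 3) (d := n i 1 + n i 4) ?_
        push_cast
        rw [h0, show Th l 1 = 2 * Real.pi / 3 - Th l 2 by linarith] at h1
        linear_combination h1
    have h05 : l 0 = l 5 := by
      rw [hlen 0, hlen 5]
      exact Finset.sum_congr rfl fun i _ => by rw [hn i]
    have h12 : l 1 = l 2 := by
      rcases hd with h | h <;> linarith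
    have e1 : (l 1 / (l 0 + l 5)) ^ 2 = ((3 / 16 : ℚ) : ℝ) := by
      rw [div_pow]
      push_cast
      rw [div_eq_div_iff (by positivity) (by norm_num)]
      rw [← h12] at hq
      linear_combination hq
    have a1 : IsAlgebraic ℚ (l 1 / (l 0 + l 5)) := by
      refine IsAlgebraic.of_pow (n := 2) (by norm_num) ?_
      rw [e1]
      exact isAlgebraic_algebraMap (3 / 16 : ℚ)
    exact suff2 a1 (h12 ▸ a1)

end Pool.Agent.TetRot
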