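import Pool.Agent.TetRot.FinalCore
import Pool.Agent.TetRot.PlaceV
import Pool.Agent.TetRot.ReggeN

/-! # Tetrahedra with a rotation of order two: the main theorem (helper21) -/

set_option autoImplicit false

open Pool.Agent.TetRel

namespace Pool.Agent.TetRot

theorem final (v : Fin 4 → E3) (hv : AffineIndependent ℝ v)
    (h13 : dist (v 0) (v 2) = dist (v 1) (v 3)) (h12 : dist (v 0) (v 3) = dist (v 1) (v 2))
    (hna : ∃ i j k l : Fin 4, ¬ IsAlgebraic ℚ (dist (v i) (v j) / dist (v k) (v l))) :
    (Tiles v ↔ Hill v) ∧ (Tiles v → TilesPer v) :=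
  final_of exists_place regge_alg v hv h13 h12 hna

end Pool.Agent.TetRot
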