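import Pool.Agent.TetRot.GlobalCore
import Pool.Agent.TetRot.PlaceV
import Pool.Agent.TetRot.LocalAll
import Pool.Agent.TetRot.LemXCore

/-! # The global theorem -/

set_option autoImplicit false

namespace Pool.Agent.TetRot

theorem global {a b : ℝ} {y : Fin 4 → ℝ} (h : Nrm a b y) (hR : ∀ p, Rel p a b y) (hna : ¬ Alg a b y) :
    ∃ j k : Fin 4, j ≠ 0 ∧ k ≠ 0 ∧ j ≠ k ∧ y j - a = y k - b ∧
      4 * (y j - a) ^ 2 = (a ^ 2 + 1) * (b ^ 2 + 1) := by
  have hL := fun p => local_all p h (hR p)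
  exact global_of exists_place h hL hna fun j k t j0 k0 t0 jk jt kt h1 h2 =>
    lemX_of h hna exists_place hL j k t j0 k0 t0 jk jt kt h1 h2

end Pool.Agent.TetRot
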