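import Mathlib
import Pool.Agent.TetRot.LemXCore
import Pool.Agent.TetRot.PlaceV
import Pool.Agent.TetRot.LocalAll

/-! # Lemma X (helper95) -/

set_option autoImplicit false

namespace Pool.Agent.TetRot

theorem lemX {a b : ℝ} {y : Fin 4 → ℝ} (h : Nrm a b y) (hR : ∀ p, Rel p a b y) (hna : ¬ Alg a b y)
    (j k t : Fin 4) (j0 : j ≠ 0) (k0 : k ≠ 0) (t0 : t ≠ 0) (jk : j ≠ k) (jt : j ≠ t) (kt : k ≠ t)
    (h1 : y j - a = y k - b) (h2 : y k - a = y t - b) : False :=
  lemX_of h hna exists_place (fun p => local_all p h (hR p)) j k t j0 k0 t0 jk jt kt h1 h2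

end Pool.Agent.TetRot
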