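import Pool.Agent.TetRot.Resid

/-! # Local analysis: `a` near `i`, `b` away from `i` and `-i` is impossible (helper76) -/

set_option autoImplicit false

open Complex

namespace Pool.Agent.TetRot

/-- Two of the `y` at `i`: impossible. -/
theorem local_PN_two (p : Place) {a b yj yk yl ym : ℝ} (c β : ℚ)
    (hsum : 2 * a + 2 * b = yj + yk + yl + ym)
    (heqn : ((a : ℂ) - I) ^ 2 * ((b : ℂ) - I) ^ 2 =
      ((yj : ℂ) - I) * ((yk : ℂ) - I) * ((yl : ℂ) - I) * ((ym : ℂ) - I))
    (nja : yj ≠ a) (nka : yk ≠ a) (nlb : yl ≠ b)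
    (ha : 0 < vp p a) (hma : vm p a = 0) (hb : vp p b = β) (hmb : vm p b = β)
    (hj : 0 < vp p yj)
    (hval : 2 * vp p a = vp p yj + vp p yk)
    (hrel : 2 * (vp p a : ℝ) * a = (vp p yj : ℝ) * yj + (vp p yk : ℝ) * yk)
    (hcj : 2 * p.v ((yj : ℂ) - a) = c - 2 * β + vp p yj)
    (hck : 2 * p.v ((yk : ℂ) - a) = c - 2 * β + vp p yk) : False := by
  have h1 : ((vp p yj : ℚ) : ℝ) * (yj - a) = ((-(vp p yk) : ℚ) : ℝ) * (yk - a) := by
    have h2 : 2 * (vp p a : ℝ) = (vp p yj : ℝ) + (vp p yk : ℝ) := by exact_mod_cast hval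
    push_cast
    linear_combination (-1 : ℝ) * hrel + a * h2
  have h3 := v_prop p (yj - a) (yk - a) (vp p yj) (-(vp p yk)) (sub_ne_zero.2 nja)
    (sub_ne_zero.2 nka) hj.ne' h1
  push_cast at h3
  have h4 : vp p yj = vp p yk := by linarith
  have h5 : yj + yk = 2 * a := by
    have h6 : ((vp p yj : ℚ) : ℝ) ≠ 0 := by exact_mod_cast hj.ne'
    have h7 : ((vp p yj : ℚ) : ℝ) * (yj + yk - 2 * a) = 0 := by
      rw [h4] at h1 ⊢
      push_cast at h1
      linear_combination h1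
    have h8 := (mul_eq_zero.1 h7).resolve_left h6
    linarith
  have h9 : yl + ym = 2 * b := by linarith
  have ek : yk = 2 * a - yj := by linarith
  have em : ym = 2 * b - yl := by linarith
  have hth : ((yj : ℂ) - a) ≠ 0 := by
    rw [← Complex.ofReal_sub]
    exact Complex.ofReal_ne_zero.2 (sub_ne_zero.2 nja)
  have hph : ((yl : ℂ) - b) ≠ 0 := by
    rw [← Complex.ofReal_sub]
    exact Complex.ofReal_ne_zero.2 (sub_ne_zero.2 nlb)
  -- the two identities
  have e1 : ((yl : ℂ) - b) ^ 2 * ((a : ℂ) - I) ^ 2 + ((yj : ℂ) - a) ^ 2 * ((b : ℂ) - I) ^ 2 =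
      ((yj : ℂ) - a) ^ 2 * ((yl : ℂ) - b) ^ 2 := by
    rw [ek, em] at heqn
    push_cast at heqn
    linear_combination heqn
  have e2 : ((yl : ℂ) - b) ^ 2 * ((a : ℂ) + I) ^ 2 + ((yj : ℂ) - a) ^ 2 * ((b : ℂ) + I) ^ 2 =
      ((yj : ℂ) - a) ^ 2 * ((yl : ℂ) - b) ^ 2 := by
    have := congrArg (starRingEnd ℂ) e1
    simpa [map_sub, map_mul, map_add, map_pow] using this
  have na := ne_p a
  have nb := ne_p b
  have na' := ne_m a
  have nb' := ne_m b
  have hsq : ∀ x y : ℂ, x ≠ 0 → y ≠ 0 → p.v (x ^ 2 * y ^ 2) = 2 * p.v x + 2 * p.v y := by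
    intro x y hx hy
    rw [p.mul _ _ (pow_ne_zero 2 hx) (pow_ne_zero 2 hy), p.pow x hx, p.pow y hy]
    push_cast
    ring
  have ht : 0 < p.v ((yj : ℂ) - a) := by
    have h10 := sub_p p yj a nja
    have : vp p yj = vp p a := by linarith
    rw [this, min_self] at h10
    linarith
  have vA := hsq ((yl : ℂ) - b) ((a : ℂ) - I) hph na
  have vB := hsq ((yj : ℂ) - a) ((b : ℂ) - I) hth nb
  have vC := hsq ((yj : ℂ) - a) ((yl : ℂ) - b) hth hph
  have vA' := hsq ((yl : ℂ) - b) ((a : ℂ) + I) hph na'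
  have vB' := hsq ((yj : ℂ) - a) ((b : ℂ) + I) hth nb'
  have nA := mul_ne_zero (pow_ne_zero 2 hph) (pow_ne_zero 2 na)
  have nB := mul_ne_zero (pow_ne_zero 2 hth) (pow_ne_zero 2 nb)
  have nA' := mul_ne_zero (pow_ne_zero 2 hph) (pow_ne_zero 2 na')
  have nB' := mul_ne_zero (pow_ne_zero 2 hth) (pow_ne_zero 2 nb')
  have hpa : p.v ((a : ℂ) - I) = vp p a := rfl
  have hpb : p.v ((b : ℂ) - I) = β := hb
  have hma' : p.v ((a : ℂ) + I) = 0 := hma
  have hmb' : p.v ((b : ℂ) + I) = β := hmb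
  rw [hpa] at vA
  rw [hpb] at vB
  rw [hma'] at vA'
  rw [hmb'] at vB'
  have hf : p.v ((yl : ℂ) - b) = p.v ((yj : ℂ) - a) + β := by
    rcases lt_trichotomy (p.v (((yl : ℂ) - b) ^ 2 * ((a : ℂ) + I) ^ 2))
      (p.v (((yj : ℂ) - a) ^ 2 * ((b : ℂ) + I) ^ 2)) with hlt | heq | hgt
    · have h11 := (p.add_lt _ _ nA' nB' hlt).2
      rw [e2] at h11
      linarith
    · linarith
    · have h11 := (p.add_lt _ _ nB' nA' hgt).2
      rw [add_comm, e2] at h11
      linarith
  have hlt : p.v (((yj : ℂ) - a) ^ 2 * ((b : ℂ) - I) ^ 2) <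
      p.v (((yl : ℂ) - b) ^ 2 * ((a : ℂ) - I) ^ 2) := by
    rw [vA, vB]
    linarith
  have h12 := (p.add_lt _ _ nB nA hlt).2
  rw [add_comm, e1] at h12
  linarith

/-- a `y` at `i`: the values of the differences -/
theorem local_PN_P (p : Place) {a b : ℝ} {y : Fin 4 → ℝ} (h : Nrm a b y) (j : Fin 4)
    (hb : vp p b ≤ 0) (hj : 0 < vp p (y j)) (hm : vm p (y j) = 0) :
    2 * p.v ((y j : ℂ) - a) = p.v (C2 a b y : ℂ) - 2 * vp p b + vp p (y j) := by
  have h1 := col p h j
  have h2 := sub_p_eq p (y j) b (by intro h3; linarith)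
  rw [min_eq_right (by linarith)] at h2
  linarith

theorem local_PN_N (p : Place) {a : ℝ} (g : ℝ)
    (ha : 0 < vp p a) (hj : vp p g ≤ 0) : p.v ((g : ℂ) - a) = vp p g := by
  have h2 := sub_p_eq p g a (by intro h3; linarith)
  rwa [min_eq_left (by linarith)] at h2

/-- if `c = 2 β` then the value at a `y` at `i` is twice the value of `a` -/
theorem local_PN_c (p : Place) {a g : ℝ} (na : g ≠ a) (hj : 0 < vp p g)
    (hv : 2 * p.v ((g : ℂ) - a) = vp p g) : vp p g = 2 * vp p a := by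
  by_cases hne : vp p g = vp p a
  · have h1 := sub_p p g a na
    rw [← hne, min_self] at h1
    linarith
  · have h1 := sub_p_eq p g a hne
    rcases le_total (vp p g) (vp p a) with hle | hle
    · rw [min_eq_left hle] at h1
      linarith
    · rw [min_eq_right hle] at h1
      linarith

/-- exactly one `y` at `i`: impossible -/
theorem local_PN_one {a g : ℝ} {s t : ℚ} (na : g ≠ a) (ht : 2 * s = t) (hs : 0 < s)
    (hrel : 2 * (s : ℝ) * a = (t : ℝ) * g) : False := by
  have h1 : 2 * (s : ℝ) = (t : ℝ) := by exact_mod_cast ht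
  have h2 : (0 : ℝ) < (s : ℝ) := by exact_mod_cast hs
  have h3 : 2 * (s : ℝ) * (a - g) = 0 := by
    rw [mul_sub, hrel, h1]
    ring
  rcases mul_eq_zero.1 h3 with h4 | h4
  · linarith
  · exact na (by linarith)

theorem local_PN (p : Place) {a b : ℝ} {y : Fin 4 → ℝ} (h : Nrm a b y) (hR : Rel p a b y)
    (ha : 0 < vp p a) (hb : vp p b = vm p b) : False := by
  obtain ⟨r1, r2, r3⟩ := residue p h hR
  have hma : vm p a = 0 := by
    rcases trich p a with h1 | h1 | h1
    · linarith [h1.2]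
    · exact h1.2
    · linarith [h1.1]
  have hbn : vp p b ≤ 0 := by
    rcases trich p b with h1 | h1 | h1
    · exact h1.2
    · linarith [h1.1, h1.2]
    · linarith [h1.1, h1.2]
  have hmbn : vm p b ≤ 0 := by rw [← hb]; exact hbn
  rw [max_eq_left ha.le, max_eq_right hbn] at r1
  rw [hma, max_self, max_eq_right hmbn] at r2
  rw [min_eq_right ha.le, min_eq_left hbn] at r3
  have nya : ∀ j, y j ≠ a := by
    intro j
    by_cases hj : j = 0
    · rw [hj]
      exact h.a0.ne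
    · exact (h.ak j hj).ne'
  have nyb : ∀ j, y j ≠ b := by
    intro j
    by_cases hj : j = 0
    · rw [hj]
      exact h.b0.ne
    · exact (h.bk j hj).ne'
  have hrow := row_a p h
  have hR' : 2 * (uu p a : ℝ) * a + 2 * (uu p b : ℝ) * b = ∑ j, (uu p (y j) : ℝ) * y j := hR
  have hua : uu p a = vp p a := by rw [uu, hma, sub_zero]
  have hub : uu p b = 0 := by rw [uu, hb, sub_self]
  rw [hua, hub] at hR'
  rw [Fin.sum_univ_four] at r1 r2 r3 hrow hR'
  have hmy : ∀ j, vm p (y j) ≤ 0 := by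
    have m0 := le_max_right (vm p (y 0)) 0
    have m1 := le_max_right (vm p (y 1)) 0
    have m2 := le_max_right (vm p (y 2)) 0
    have m3 := le_max_right (vm p (y 3)) 0
    have n0 := le_max_left (vm p (y 0)) 0
    have n1 := le_max_left (vm p (y 1)) 0
    have n2 := le_max_left (vm p (y 2)) 0
    have n3 := le_max_left (vm p (y 3)) 0
    intro j
    fin_cases j <;> simp only [Fin.zero_eta, Fin.mk_one, Fin.reduceFinMk] <;> linarith
  -- the two possibilities for every `y`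
  have hcase : ∀ j, (0 < vp p (y j) ∧ uu p (y j) = vp p (y j) ∧
        2 * p.v ((y j : ℂ) - a) = p.v (C2 a b y : ℂ) - 2 * vp p b + vp p (y j) ∧
        max (vp p (y j)) 0 = vp p (y j) ∧ min (vp p (y j)) 0 = 0) ∨
      (uu p (y j) = 0 ∧ p.v ((y j : ℂ) - a) = vp p (y j) ∧
        max (vp p (y j)) 0 = 0 ∧ min (vp p (y j)) 0 = vp p (y j)) := by
    intro j
    rcases trich p (y j) with h1 | h1 | h1
    · right
      refine ⟨by rw [uu, h1.1, sub_self], local_PN_N p _ ha h1.2, max_eq_right h1.2,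
        min_eq_left h1.2⟩
    · left
      refine ⟨h1.1, by rw [uu, h1.2, sub_zero], local_PN_P p h j hbn h1.1 h1.2,
        max_eq_left h1.1.le, min_eq_right h1.1.le⟩
    · exact absurd (hmy j) (not_le.2 h1.2)
  have heq := h.eqn
  have hsum := h.sum
  rcases hcase 0 with ⟨p0, u0, v0, x0, z0⟩ | ⟨u0, v0, x0, z0⟩ <;>
    rcases hcase 1 with ⟨p1, u1, v1, x1, z1⟩ | ⟨u1, v1, x1, z1⟩ <;>
    rcases hcase 2 with ⟨p2, u2, v2, x2, z2⟩ | ⟨u2, v2, x2, z2⟩ <;>
    rcases hcase 3 with ⟨p3, u3, v3, x3, z3⟩ | ⟨u3, v3, x3, z3⟩ <;>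
    rw [x0, x1, x2, x3] at r1 <;> rw [z0, z1, z2, z3] at r3 <;> rw [u0, u1, u2, u3] at hR' <;>
    push_cast at hR'
  · -- PPPP
    have c0 := local_PN_c p (nya 0) p0 (by linarith)
    linarith
  · -- PPPN
    have c0 := local_PN_c p (nya 0) p0 (by linarith)
    linarith
  · -- PPNP
    have c0 := local_PN_c p (nya 0) p0 (by linarith)
    linarith
  · -- PPNN
    exact local_PN_two p (p.v (C2 a b y : ℂ)) (vp p b) (yj := y 0) (yk := y 1) (yl := y 2)
      (ym := y 3) (by linarith) (by rw [heq]) (nya 0) (nya 1) (nyb 2) ha hma rfl hb.symm p0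
      (by linarith) (by linarith) v0 v1
  · -- PNPP
    have c0 := local_PN_c p (nya 0) p0 (by linarith)
    linarith
  · -- PNPN
    exact local_PN_two p (p.v (C2 a b y : ℂ)) (vp p b) (yj := y 0) (yk := y 2) (yl := y 1)
      (ym := y 3) (by linarith) (by rw [heq]; ring) (nya 0) (nya 2) (nyb 1) ha hma rfl hb.symm
      p0 (by linarith) (by linarith) v0 v2
  · -- PNNP
    exact local_PN_two p (p.v (C2 a b y : ℂ)) (vp p b) (yj := y 0) (yk := y 3) (yl := y 1)
      (ym := y 2) (by linarith) (by rw [heq]; ring) (nya 0) (nya 3) (nyb 1) ha hma rfl hb.symm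
      p0 (by linarith) (by linarith) v0 v3
  · -- PNNN
    exact local_PN_one (nya 0) (s := vp p a) (t := vp p (y 0)) (by linarith) ha (by linarith)
  · -- NPPP
    have c0 := local_PN_c p (nya 1) p1 (by linarith)
    linarith
  · -- NPPN
    exact local_PN_two p (p.v (C2 a b y : ℂ)) (vp p b) (yj := y 1) (yk := y 2) (yl := y 0)
      (ym := y 3) (by linarith) (by rw [heq]; ring) (nya 1) (nya 2) (nyb 0) ha hma rfl hb.symm
      p1 (by linarith) (by linarith) v1 v2
  · -- NPNP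
    exact local_PN_two p (p.v (C2 a b y : ℂ)) (vp p b) (yj := y 1) (yk := y 3) (yl := y 0)
      (ym := y 2) (by linarith) (by rw [heq]; ring) (nya 1) (nya 3) (nyb 0) ha hma rfl hb.symm
      p1 (by linarith) (by linarith) v1 v3
  · -- NPNN
    exact local_PN_one (nya 1) (s := vp p a) (t := vp p (y 1)) (by linarith) ha (by linarith)
  · -- NNPP
    exact local_PN_two p (p.v (C2 a b y : ℂ)) (vp p b) (yj := y 2) (yk := y 3) (yl := y 0)
      (ym := y 1) (by linarith) (by rw [heq]; ring) (nya 2) (nya 3) (nyb 0) ha hma rfl hb.symm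
      p2 (by linarith) (by linarith) v2 v3
  · -- NNPN
    exact local_PN_one (nya 2) (s := vp p a) (t := vp p (y 2)) (by linarith) ha (by linarith)
  · -- NNNP
    exact local_PN_one (nya 3) (s := vp p a) (t := vp p (y 3)) (by linarith) ha (by linarith)
  · -- NNNN
    linarith

end Pool.Agent.TetRot
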